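import Pool.Agent.H27.OP.Inst

set_option autoImplicit false
set_option linter.unusedSectionVars false

/-!
# Ottaviani-Paoletti: realisation of the extension by an odd letter
-/

open MvPolynomial

namespace Pool.Agent.H27.OP

variable {σ k : Type*} [Fintype σ] [Field k]

/-- the extended polynomial ring -/
abbrev PX (σ k : Type*) [Field k] := MvPolynomial (σ ⊕ (σ →₀ ℕ)) k

/-- the same operator on both components -/
def dbl (V : Type*) [AddCommGroup V] [Module k V] : Module.End k V →ₐ[k] Module.End k (V × V) where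
  toFun A := LinearMap.prodMap A A
  map_one' := by ext <;> simp
  map_mul' _ _ := rfl
  map_zero' := by ext <;> simp
  map_add' A B := by ext <;> simp
  commutes' t := by ext <;> simp

lemma dbl_apply {V : Type*} [AddCommGroup V] [Module k V] (A : Module.End k V) (v : V × V) :
    dbl V A v = (A v.1, A v.2) := rfl

def thv (k V : Type*) [Field k] [AddCommGroup V] [Module k V] : Module.End k (V × V) where
  toFun v := (0, v.1)
  map_add' _ _ := by simp
  map_smul' _ _ := by simp

def dthv (k V : Type*) [Field k] [AddCommGroup V] [Module k V] : Module.End k (V × V) where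
  toFun v := (v.2, 0)
  map_add' _ _ := by simp
  map_smul' _ _ := by simp

def parv (k V : Type*) [Field k] [AddCommGroup V] [Module k V] : Module.End k (V × V) where
  toFun v := (v.1, -v.2)
  map_add' _ _ := by simp [add_comm]
  map_smul' _ _ := by simp

section

variable {V : Type*} [AddCommGroup V] [Module k V]

lemma thv_apply (v : V × V) : thv k V v = (0, v.1) := rfl
lemma dthv_apply (v : V × V) : dthv k V v = (v.2, 0) := rfl
lemma parv_apply (v : V × V) : parv k V v = (v.1, -v.2) := rfl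

lemma thv_thv : thv k V * thv k V = 0 := rfl

lemma dthv_thv : dthv k V * thv k V = 1 - thv k V * dthv k V := by
  refine LinearMap.ext fun v => ?_
  rw [LinearMap.sub_apply, Module.End.mul_apply, Module.End.mul_apply, thv_apply, dthv_apply,
    dthv_apply, thv_apply, Module.End.one_apply]
  ext <;> simp

lemma thv_parv : thv k V * parv k V = -(parv k V * thv k V) := by
  refine LinearMap.ext fun v => ?_
  rw [LinearMap.neg_apply, Module.End.mul_apply, Module.End.mul_apply, thv_apply, parv_apply,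
    parv_apply, thv_apply]
  ext <;> simp

lemma dthv_parv : dthv k V * parv k V = -(parv k V * dthv k V) := by
  refine LinearMap.ext fun v => ?_
  rw [LinearMap.neg_apply, Module.End.mul_apply, Module.End.mul_apply, dthv_apply, parv_apply,
    parv_apply, dthv_apply]
  ext <;> simp

lemma parv_parv : parv k V * parv k V = 1 := by
  refine LinearMap.ext fun v => ?_
  rw [Module.End.mul_apply, parv_apply, parv_apply, Module.End.one_apply]
  ext <;> simp

lemma thv_dbl (A : Module.End k V) : thv k V * dbl V A = dbl V A * thv k V := by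
  refine LinearMap.ext fun v => ?_
  rw [Module.End.mul_apply, Module.End.mul_apply, thv_apply, dbl_apply, dbl_apply, thv_apply]
  ext <;> simp

lemma dthv_dbl (A : Module.End k V) : dthv k V * dbl V A = dbl V A * dthv k V := by
  refine LinearMap.ext fun v => ?_
  rw [Module.End.mul_apply, Module.End.mul_apply, dthv_apply, dbl_apply, dbl_apply, dthv_apply]
  ext <;> simp

lemma parv_dbl (A : Module.End k V) : parv k V * dbl V A = dbl V A * parv k V := by
  refine LinearMap.ext fun v => ?_
  rw [Module.End.mul_apply, Module.End.mul_apply, parv_apply, dbl_apply, dbl_apply, parv_apply]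
  ext <;> simp

end

lemma pderiv_inr_rename (ν : σ →₀ ℕ) (a : MvPolynomial σ k) :
    pderiv (Sum.inr ν) (rename Sum.inl a : PX σ k) = 0 := by
  classical
  induction a using MvPolynomial.induction_on with
  | C a => simp
  | add p q hp hq => rw [map_add, map_add, hp, hq, add_zero]
  | mul_X p i hp =>
    rw [map_mul, rename_X, Derivation.leibniz, hp, pderiv_X_of_ne (by simp)]
    simp

lemma inl_inj : Function.Injective (Sum.inl : σ → σ ⊕ (σ →₀ ℕ)) := Sum.inl_injective

/-- multiplication operator -/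
noncomputable def mlX : MvPolynomial σ k →ₐ[k] Module.End k (PX σ k) :=
  (Algebra.lmul k (PX σ k)).comp (rename Sum.inl)

lemma mlX_apply (a : MvPolynomial σ k) (f : PX σ k) : mlX a f = rename Sum.inl a * f := rfl

noncomputable def pdX (i : σ ⊕ (σ →₀ ℕ)) : Module.End k (PX σ k) := (pderiv i).toLinearMap

lemma pdX_apply (i : σ ⊕ (σ →₀ ℕ)) (f : PX σ k) : pdX i f = pderiv i f := rfl

noncomputable def muX (i : σ ⊕ (σ →₀ ℕ)) : Module.End k (PX σ k) := LinearMap.mulLeft k (X i)

lemma muX_apply (i : σ ⊕ (σ →₀ ℕ)) (f : PX σ k) : muX i f = X i * f := rfl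

lemma pderiv_comm_X (i j : σ ⊕ (σ →₀ ℕ)) (f : PX σ k) :
    pderiv i (pderiv j f) = pderiv j (pderiv i f) := by
  induction f using MvPolynomial.induction_on with
  | C a => simp
  | add p q hp hq => rw [map_add, map_add, hp, hq, map_add, map_add]
  | mul_X p l hp =>
    classical
    simp only [Derivation.leibniz, map_add, smul_eq_mul, hp, pderiv_X, Pi.single_apply]
    split_ifs <;> simp <;> ring

lemma pdX_comm (i j : σ ⊕ (σ →₀ ℕ)) : (pdX i : Module.End k (PX σ k)) * pdX j = pdX j * pdX i :=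
  LinearMap.ext fun f => pderiv_comm_X i j f

lemma pdX_inl_mlX (x : σ) (a : MvPolynomial σ k) :
    pdX (Sum.inl x) * mlX a = mlX a * pdX (Sum.inl x) + mlX (pderiv x a) := by
  refine LinearMap.ext fun f => ?_
  rw [LinearMap.add_apply, Module.End.mul_apply, Module.End.mul_apply, pdX_apply, mlX_apply,
    mlX_apply, mlX_apply, pdX_apply, Derivation.leibniz, pderiv_rename inl_inj]
  simp only [smul_eq_mul]
  ring

lemma pdX_inr_mlX (ν : σ →₀ ℕ) (a : MvPolynomial σ k) :
    pdX (Sum.inr ν) * mlX a = mlX a * pdX (Sum.inr ν) := by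
  refine LinearMap.ext fun f => ?_
  rw [Module.End.mul_apply, Module.End.mul_apply, pdX_apply, mlX_apply,
    mlX_apply, pdX_apply, Derivation.leibniz, pderiv_inr_rename]
  simp

lemma pdX_muX_ne {i j : σ ⊕ (σ →₀ ℕ)} (h : i ≠ j) :
    (pdX i : Module.End k (PX σ k)) * muX j = muX j * pdX i := by
  classical
  refine LinearMap.ext fun f => ?_
  rw [Module.End.mul_apply, Module.End.mul_apply, pdX_apply, muX_apply, muX_apply, pdX_apply,
    Derivation.leibniz, pderiv_X_of_ne (Ne.symm h)]
  simp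

lemma pdX_muX_self (i : σ ⊕ (σ →₀ ℕ)) :
    (pdX i : Module.End k (PX σ k)) * muX i = muX i * pdX i + 1 := by
  classical
  refine LinearMap.ext fun f => ?_
  rw [LinearMap.add_apply, Module.End.mul_apply, Module.End.mul_apply, pdX_apply, muX_apply,
    muX_apply, pdX_apply, Derivation.leibniz, pderiv_X_self]
  simp

lemma muX_comm (i j : σ ⊕ (σ →₀ ℕ)) : (muX i : Module.End k (PX σ k)) * muX j = muX j * muX i := by
  refine LinearMap.ext fun f => ?_
  rw [Module.End.mul_apply, Module.End.mul_apply, muX_apply, muX_apply, muX_apply, muX_apply]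
  ring

lemma muX_mlX (i : σ ⊕ (σ →₀ ℕ)) (a : MvPolynomial σ k) :
    (muX i : Module.End k (PX σ k)) * mlX a = mlX a * muX i := by
  refine LinearMap.ext fun f => ?_
  rw [Module.End.mul_apply, Module.End.mul_apply, muX_apply, muX_apply, mlX_apply, mlX_apply]
  ring

/-- coefficients of the extension -/
noncomputable def CfX (σ k : Type*) [Fintype σ] [Field k] : Cf σ k (PX σ k × PX σ k) where
  m := (dbl (PX σ k)).comp mlX
  T x := dbl (PX σ k) (pdX (Sum.inl x))
  par := parv k (PX σ k)
  Tm x a := by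
    rw [AlgHom.comp_apply, AlgHom.comp_apply, ← map_mul, ← map_mul, ← map_add, pdX_inl_mlX]
  TT x y := by rw [← map_mul, ← map_mul, pdX_comm]
  pp := parv_parv
  pm _ := parv_dbl _
  pT _ := parv_dbl _

section

variable {V : Type*} [AddCommGroup V] [Module k V] {N d : ℕ} (C : Cf σ k V) (Q : Mx σ k N d)

lemma lm_anti_E {A : Module.End k V} (h : A * C.par = -(C.par * A)) (μ : σ →₀ ℕ) :
    lm k N A * bE C Q μ = -(bE C Q μ * lm k N A) := by
  unfold bE
  have h2 : lm k N (-(C.par * A)) = -lm k N (C.par * A) := rfl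
  rw [← mul_assoc, sumE_lm, mul_assoc, mul_assoc, ← map_mul, ← map_mul, h, h2]
  refine LinearMap.ext fun f => ?_
  rw [Module.End.mul_apply, LinearMap.neg_apply, LinearMap.neg_apply, Module.End.mul_apply, map_neg]

lemma lm_anti_J {A : Module.End k V} (h : A * C.par = -(C.par * A)) (μ : σ →₀ ℕ) :
    lm k N A * bJ C Q μ = -(bJ C Q μ * lm k N A) := by
  unfold bJ
  have h2 : lm k N (-(C.par * A)) = -lm k N (C.par * A) := rfl
  rw [← mul_assoc, sumJ_lm, mul_assoc, mul_assoc, ← map_mul, ← map_mul, h, h2]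
  refine LinearMap.ext fun f => ?_
  rw [Module.End.mul_apply, LinearMap.neg_apply, LinearMap.neg_apply, Module.End.mul_apply, map_neg]

lemma lm_comm_E {A : Module.End k V} (h : C.par * A = A * C.par) (μ : σ →₀ ℕ) :
    lm k N A * bE C Q μ = bE C Q μ * lm k N A := by
  unfold bE
  rw [← mul_assoc, sumE_lm, mul_assoc, mul_assoc, ← map_mul, ← map_mul, h]

lemma lm_comm_J {A : Module.End k V} (h : C.par * A = A * C.par) (μ : σ →₀ ℕ) :
    lm k N A * bJ C Q μ = bJ C Q μ * lm k N A := by
  unfold bJ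
  rw [← mul_assoc, sumJ_lm, mul_assoc, mul_assoc, ← map_mul, ← map_mul, h]

end

section

variable {N d : ℕ} (B : Bs σ k N d)

/-- the extended operator algebra -/
noncomputable def SX : Fx σ k (Module.End k (Finset (Fin N) → PX σ k × PX σ k)) d where
  toFk := mkFk (CfX σ k) B.toMx
  th := lm k N (thv k (PX σ k))
  dth := lm k N (dthv k (PX σ k))
  b ν := lm k N (dbl (PX σ k) (muX (Sum.inr ν)))
  db ν := lm k N (dbl (PX σ k) (pdX (Sum.inr ν)))
  thth := by rw [← map_mul, thv_thv, map_zero]
  dd := by rw [← map_mul, ← map_mul, dthv_thv, map_sub, map_one]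
  thE μ := lm_anti_E (CfX σ k) B.toMx thv_parv μ
  thJ μ := lm_anti_J (CfX σ k) B.toMx thv_parv μ
  thm a := by
    show lm k N (thv k (PX σ k)) * lm k N (dbl (PX σ k) (mlX a))
      = lm k N (dbl (PX σ k) (mlX a)) * lm k N (thv k (PX σ k))
    rw [← map_mul, ← map_mul, thv_dbl]
  thT x := by
    show lm k N (thv k (PX σ k)) * lm k N (dbl (PX σ k) (pdX (Sum.inl x)))
      = lm k N (dbl (PX σ k) (pdX (Sum.inl x))) * lm k N (thv k (PX σ k))
    rw [← map_mul, ← map_mul, thv_dbl]
  dthE μ := lm_anti_E (CfX σ k) B.toMx dthv_parv μ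
  dthJ μ := lm_anti_J (CfX σ k) B.toMx dthv_parv μ
  dthm a := by
    show lm k N (dthv k (PX σ k)) * lm k N (dbl (PX σ k) (mlX a))
      = lm k N (dbl (PX σ k) (mlX a)) * lm k N (dthv k (PX σ k))
    rw [← map_mul, ← map_mul, dthv_dbl]
  dthT x := by
    show lm k N (dthv k (PX σ k)) * lm k N (dbl (PX σ k) (pdX (Sum.inl x)))
      = lm k N (dbl (PX σ k) (pdX (Sum.inl x))) * lm k N (dthv k (PX σ k))
    rw [← map_mul, ← map_mul, dthv_dbl]
  dbb μ ν h := by
    rw [← map_mul, ← map_mul, ← map_mul, ← map_mul,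
      pdX_muX_ne (fun h' => h (Sum.inr_injective h'))]
  dbbs μ := by rw [← map_mul, ← map_mul, ← map_mul, ← map_mul, pdX_muX_self, map_add, map_add,
    map_one, map_one]
  bb μ ν := by rw [← map_mul, ← map_mul, ← map_mul, ← map_mul, muX_comm]
  dbdb μ ν := by rw [← map_mul, ← map_mul, ← map_mul, ← map_mul, pdX_comm]
  bE μ ν := lm_comm_E (CfX σ k) B.toMx (parv_dbl _) ν
  bJ μ ν := lm_comm_J (CfX σ k) B.toMx (parv_dbl _) ν
  bm μ a := by
    show lm k N (dbl (PX σ k) (muX (Sum.inr μ))) * lm k N (dbl (PX σ k) (mlX a))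
      = lm k N (dbl (PX σ k) (mlX a)) * lm k N (dbl (PX σ k) (muX (Sum.inr μ)))
    rw [← map_mul, ← map_mul, ← map_mul, ← map_mul, muX_mlX]
  bT μ x := by
    show lm k N (dbl (PX σ k) (muX (Sum.inr μ))) * lm k N (dbl (PX σ k) (pdX (Sum.inl x)))
      = lm k N (dbl (PX σ k) (pdX (Sum.inl x))) * lm k N (dbl (PX σ k) (muX (Sum.inr μ)))
    rw [← map_mul, ← map_mul, ← map_mul, ← map_mul, pdX_muX_ne (by simp)]
  bth μ := by rw [← map_mul, ← map_mul, thv_dbl]
  bdth μ := by rw [← map_mul, ← map_mul, dthv_dbl]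
  dbE μ ν := lm_comm_E (CfX σ k) B.toMx (parv_dbl _) ν
  dbJ μ ν := lm_comm_J (CfX σ k) B.toMx (parv_dbl _) ν
  dbm μ a := by
    show lm k N (dbl (PX σ k) (pdX (Sum.inr μ))) * lm k N (dbl (PX σ k) (mlX a))
      = lm k N (dbl (PX σ k) (mlX a)) * lm k N (dbl (PX σ k) (pdX (Sum.inr μ)))
    rw [← map_mul, ← map_mul, ← map_mul, ← map_mul, pdX_inr_mlX]
  dbT μ x := by
    show lm k N (dbl (PX σ k) (pdX (Sum.inr μ))) * lm k N (dbl (PX σ k) (pdX (Sum.inl x)))
      = lm k N (dbl (PX σ k) (pdX (Sum.inl x))) * lm k N (dbl (PX σ k) (pdX (Sum.inr μ)))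
    rw [← map_mul, ← map_mul, ← map_mul, ← map_mul, pdX_comm]
  dbth μ := by rw [← map_mul, ← map_mul, thv_dbl]
  dbdth μ := by rw [← map_mul, ← map_mul, dthv_dbl]

/-- the inclusion on coefficients -/
noncomputable def jc (σ k : Type*) [Fintype σ] [Field k] :
    MvPolynomial σ k →ₗ[k] PX σ k × PX σ k where
  toFun f := (rename Sum.inl f, 0)
  map_add' _ _ := by simp
  map_smul' _ _ := by simp

/-- the projection on coefficients -/
noncomputable def prc (σ k : Type*) [Fintype σ] [Field k] :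
    PX σ k × PX σ k →ₗ[k] MvPolynomial σ k where
  toFun f := aeval (Sum.elim X 0) f.1
  map_add' _ _ := by simp
  map_smul' _ _ := by simp

lemma jc_apply (f : MvPolynomial σ k) : jc σ k f = (rename Sum.inl f, 0) := rfl
lemma prc_apply (f : PX σ k × PX σ k) : prc σ k f = aeval (Sum.elim X 0) f.1 := rfl

lemma aev_ren (a : MvPolynomial σ k) :
    aeval (Sum.elim X 0 : σ ⊕ (σ →₀ ℕ) → MvPolynomial σ k) (rename Sum.inl a : PX σ k) = a := by
  rw [aeval_rename]
  have : (Sum.elim X 0 : σ ⊕ (σ →₀ ℕ) → MvPolynomial σ k) ∘ Sum.inl = X := rfl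
  rw [this, aeval_X_left_apply]

/-- pointwise linear maps -/
def pw (k : Type*) [Field k] (N : ℕ) {M M' : Type*} [AddCommGroup M] [Module k M]
    [AddCommGroup M'] [Module k M'] (L : M →ₗ[k] M') :
    (Finset (Fin N) → M) →ₗ[k] (Finset (Fin N) → M') where
  toFun f := fun I => L (f I)
  map_add' f g := by ext I; simp
  map_smul' t f := by ext I; simp

lemma pw_apply {M M' : Type*} [AddCommGroup M] [Module k M]
    [AddCommGroup M'] [Module k M'] (L : M →ₗ[k] M') (f : Finset (Fin N) → M)
    (I : Finset (Fin N)) : pw k N L f I = L (f I) := rfl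

lemma aE_pw {M M' : Type*} [AddCommGroup M] [Module k M]
    [AddCommGroup M'] [Module k M'] (L : M →ₗ[k] M') (f : Finset (Fin N) → M) (i : Fin N) :
    aE k i (pw k N L f) = pw k N L (aE k i f) := by
  funext I
  rw [aE_apply, pw_apply, pw_apply, aE_apply]
  split_ifs
  · rw [map_smul]
  · rw [map_zero]

lemma aJ_pw {M M' : Type*} [AddCommGroup M] [Module k M]
    [AddCommGroup M'] [Module k M'] (L : M →ₗ[k] M') (f : Finset (Fin N) → M) (i : Fin N) :
    aJ k i (pw k N L f) = pw k N L (aJ k i f) := by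
  funext I
  rw [aJ_apply, pw_apply, pw_apply, aJ_apply]
  split_ifs
  · rw [map_zero]
  · rw [map_smul]

lemma SX_E (μ : σ →₀ ℕ) (f : Finset (Fin N) → PX σ k × PX σ k) :
    (SX B).E μ f = ∑ i, B.α μ i • aE k i (lm k N (parv k (PX σ k)) f) := by
  show bE (CfX σ k) B.toMx μ f = _
  unfold bE
  rw [Module.End.mul_apply, LinearMap.sum_apply]
  rfl

lemma SX_J (μ : σ →₀ ℕ) (f : Finset (Fin N) → PX σ k × PX σ k) :
    (SX B).J μ f = ∑ i, B.γ μ i • aJ k i (lm k N (parv k (PX σ k)) f) := by
  show bJ (CfX σ k) B.toMx μ f = _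
  unfold bJ
  rw [Module.End.mul_apply, LinearMap.sum_apply]
  rfl

lemma par_j (ω : Finset (Fin N) → MvPolynomial σ k) :
    lm k N (parv k (PX σ k)) (pw k N (jc σ k) ω) = pw k N (jc σ k) ω := by
  funext I
  rw [lm_apply, pw_apply, parv_apply, jc_apply]
  simp

lemma prc_par (v : PX σ k × PX σ k) : prc σ k (parv k (PX σ k) v) = prc σ k v := rfl

/-- the extension of the Koszul complex -/
noncomputable def XK : Xt (SK B) (Finset (Fin N) → PX σ k × PX σ k) where
  S' := SX B
  j := pw k N (jc σ k)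
  pr := pw k N (prc σ k)
  pr_j ω := by
    funext I
    rw [pw_apply, pw_apply, jc_apply, prc_apply]
    exact aev_ren _
  j_m a ω := by
    funext I
    rw [pw_apply, SK_m]
    show dbl (PX σ k) (mlX a) (pw k N (jc σ k) ω I) = _
    rw [dbl_apply, pw_apply, jc_apply, jc_apply, mlX_apply, mlX_apply, map_mul, mul_zero]
  j_E μ ω := by
    rw [SX_E, par_j, SK_E, map_sum]
    refine Finset.sum_congr rfl fun i _ => ?_
    rw [map_smul, aE_pw]
  j_J μ ω := by
    rw [SX_J, par_j, SK_J, map_sum]
    refine Finset.sum_congr rfl fun i _ => ?_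
    rw [map_smul, aJ_pw]
  j_T x ω := by
    funext I
    rw [pw_apply, SK_T]
    show dbl (PX σ k) (pdX (Sum.inl x)) (pw k N (jc σ k) ω I) = _
    rw [dbl_apply, pw_apply, jc_apply, jc_apply, pdX_apply, pdX_apply, pderiv_rename inl_inj,
      map_zero]
  j_dth ω := by
    funext I
    show dthv k (PX σ k) (pw k N (jc σ k) ω I) = _
    rw [dthv_apply, pw_apply, jc_apply]
    rfl
  j_db ν ω := by
    funext I
    show dbl (PX σ k) (pdX (Sum.inr ν)) (pw k N (jc σ k) ω I) = _
    rw [dbl_apply, pw_apply, jc_apply, pdX_apply, pdX_apply, pderiv_inr_rename, map_zero]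
    rfl
  pr_m a ξ := by
    funext I
    rw [pw_apply, SK_m]
    show prc σ k (dbl (PX σ k) (mlX a) (ξ I)) = _
    rw [dbl_apply, prc_apply, mlX_apply, map_mul, pw_apply, prc_apply, aev_ren]
  pr_J μ ξ := by
    rw [SX_J, SK_J, map_sum]
    refine Finset.sum_congr rfl fun i _ => ?_
    rw [map_smul, ← aJ_pw]
    rfl
  pr_th ξ := by
    funext I
    rw [pw_apply]
    show prc σ k (thv k (PX σ k) (ξ I)) = _
    rw [thv_apply, prc_apply, map_zero]
    rfl

end

end Pool.Agent.H27.OP
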