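import Pool.Agent.H27.OP.Level

set_option autoImplicit false
set_option linter.unusedSectionVars false

/-!
# Ottaviani-Paoletti: weight decompositions
-/

open MvPolynomial

namespace Pool.Agent.H27.OP

section jeig

variable {k V : Type*} [Field k] [AddCommGroup V] [Module k V]

/-- `A (A - 1) ⋯ (A - M + 1)` -/
noncomputable def dp (A : Module.End k V) : ℕ → Module.End k V
  | 0 => 1
  | M + 1 => (A - (M : k) • 1) * dp A M

lemma dp_eig (A : Module.End k V) {v : V} {t : k} (h : A v = t • v) (M : ℕ) :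
    dp A M v = (∏ i ∈ Finset.range M, (t - i)) • v := by
  induction M with
  | zero => simp [dp]
  | succ M ih =>
    rw [dp, Module.End.mul_apply, ih, map_smul, LinearMap.sub_apply, h, LinearMap.smul_apply,
      Module.End.one_apply, ← sub_smul, smul_smul, Finset.prod_range_succ]

lemma dp_zero_of_le (A : Module.End k V) {v : V} {M M' : ℕ} (h : dp A M v = 0) (hM : M ≤ M') :
    dp A M' v = 0 := by
  induction M', hM using Nat.le_induction with
  | base => exact h
  | succ N _ ih => rw [dp, Module.End.mul_apply, ih, map_zero]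

lemma dp_mem (A : Module.End k V) (W : Submodule k V) (hA : ∀ w ∈ W, A w ∈ W) {v : V}
    (hv : v ∈ W) (M : ℕ) : dp A M v ∈ W := by
  induction M with
  | zero => simpa [dp] using hv
  | succ M ih =>
    rw [dp, Module.End.mul_apply, LinearMap.sub_apply, LinearMap.smul_apply, Module.End.one_apply]
    exact sub_mem (hA _ ih) (W.smul_mem _ ih)

/-- locally finite with natural eigenvalues -/
def LF (A : Module.End k V) : Submodule k V where
  carrier := {v | ∃ M, dp A M v = 0}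
  add_mem' := by
    rintro v w ⟨M, hM⟩ ⟨N, hN⟩
    refine ⟨max M N, ?_⟩
    rw [map_add, dp_zero_of_le A hM (le_max_left _ _), dp_zero_of_le A hN (le_max_right _ _),
      add_zero]
  zero_mem' := ⟨0, map_zero _⟩
  smul_mem' := by
    rintro t v ⟨M, hM⟩
    exact ⟨M, by rw [map_smul, hM, smul_zero]⟩

lemma eig1 [CharZero k] (A : Module.End k V) (W : Submodule k V) (hA : ∀ w ∈ W, A w ∈ W)
    (M : ℕ) : ∀ v ∈ W, dp A M v = 0 → v ∈ Submodule.span k {v | v ∈ W ∧ ∃ n : ℕ, A v = (n : k) • v} := by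
  induction M with
  | zero =>
    intro v _ h
    have : v = 0 := by simpa [dp] using h
    rw [this]; exact zero_mem _
  | succ M ih =>
    intro v hv h
    have h1 : A (dp A M v) = (M : k) • dp A M v := by
      rw [dp, Module.End.mul_apply, LinearMap.sub_apply, LinearMap.smul_apply,
        Module.End.one_apply] at h
      exact sub_eq_zero.mp h
    have h2 : ∏ i ∈ Finset.range M, ((M : k) - i) ≠ 0 := by
      rw [Finset.prod_ne_zero_iff]
      intro i hi h3
      have h4 := sub_eq_zero.mp h3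
      have h5 := Nat.cast_injective h4
      have h6 := Finset.mem_range.mp hi
      omega
    set c := ∏ i ∈ Finset.range M, ((M : k) - i) with hc
    have h3 : dp A M (v - c⁻¹ • dp A M v) = 0 := by
      rw [map_sub, map_smul, dp_eig A h1 M, ← hc, smul_smul, inv_mul_cancel₀ h2, one_smul, sub_self]
    have h4 := dp_mem A W hA hv M
    have h5 := ih _ (sub_mem hv (W.smul_mem _ h4)) h3
    have h6 : v = (v - c⁻¹ • dp A M v) + c⁻¹ • dp A M v := by abel
    rw [h6]
    exact add_mem h5 (Submodule.smul_mem _ _ (Submodule.subset_span ⟨h4, M, h1⟩))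

lemma jeig [CharZero k] {ι : Type*} (A : ι → Module.End k V) (l : List ι) :
    ∀ (W : Submodule k V), (∀ i ∈ l, ∀ w ∈ W, A i w ∈ W) → (∀ i ∈ l, ∀ w ∈ W, w ∈ LF (A i)) →
      (∀ i ∈ l, ∀ j ∈ l, A i * A j = A j * A i) →
      W ≤ Submodule.span k {v | v ∈ W ∧ ∀ i ∈ l, ∃ n : ℕ, A i v = (n : k) • v} := by
  induction l with
  | nil =>
    intro W _ _ _ w hw
    exact Submodule.subset_span ⟨hw, by simp⟩
  | cons i l ih =>
    intro W hst hlf hcom w hw
    obtain ⟨M, hM⟩ := hlf i List.mem_cons_self w hw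
    have h1 := eig1 (A i) W (hst i List.mem_cons_self) M w hw hM
    refine (Submodule.span_le.mpr ?_) h1
    rintro v ⟨hv, n, hn⟩
    let W' : Submodule k V := W ⊓ LinearMap.ker (A i - (n : k) • 1)
    have hW' : ∀ u, u ∈ W' ↔ u ∈ W ∧ A i u = (n : k) • u := by
      intro u
      rw [Submodule.mem_inf, LinearMap.mem_ker, LinearMap.sub_apply, LinearMap.smul_apply,
        Module.End.one_apply, sub_eq_zero]
    have h2 := ih W' (by
      intro j hj u hu
      rw [hW'] at hu ⊢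
      refine ⟨hst j (List.mem_cons_of_mem _ hj) u hu.1, ?_⟩
      have := congrArg (fun f : Module.End k V => f u)
        (hcom i List.mem_cons_self j (List.mem_cons_of_mem _ hj))
      simp only [Module.End.mul_apply] at this
      rw [this, hu.2, map_smul]) (by
      intro j hj u hu
      exact hlf j (List.mem_cons_of_mem _ hj) u ((hW' u).mp hu).1) (by
      intro j hj j' hj'
      exact hcom j (List.mem_cons_of_mem _ hj) j' (List.mem_cons_of_mem _ hj'))
    refine (Submodule.span_mono ?_) (h2 ((hW' v).mpr ⟨hv, hn⟩))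
    rintro u ⟨hu, hu'⟩
    refine ⟨((hW' u).mp hu).1, ?_⟩
    intro j hj
    rcases List.mem_cons.mp hj with h3 | h3
    · subst h3
      exact ⟨n, ((hW' u).mp hu).2⟩
    · exact hu' j h3

end jeig

variable {σ k : Type*} [Fintype σ] [Field k]

lemma X_pd_mon (x : σ) (μ : σ →₀ ℕ) :
    (X x : MvPolynomial σ k) * pderiv x (monomial μ 1) = (μ x : k) • monomial μ 1 := by
  classical
  rw [pderiv_monomial, X, monomial_mul, one_mul, one_mul, smul_monomial, smul_eq_mul, mul_one]
  by_cases h : μ x = 0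
  · rw [h]; simp
  · congr 2
    ext y
    by_cases hy : y = x
    · subst hy
      simp only [Finsupp.coe_add, Finsupp.coe_tsub, Pi.add_apply, Pi.sub_apply,
        Finsupp.single_eq_same]
      omega
    · simp [Finsupp.single_eq_of_ne hy]

section

variable {F : Type*} [AddCommGroup F] [Module k F] {d : ℕ}
variable {S : Fk σ k (Module.End k F) d} (A : Gr S)

/-- the commuting family of elementary number operators -/
noncomputable def nop (S : Fk σ k (Module.End k F) d) : (σ →₀ ℕ) ⊕ σ → Module.End k F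
  | Sum.inl μ => S.E μ * S.J μ
  | Sum.inr x => S.m (X x) * S.T x

lemma D_diag (x : σ) (ω : F) :
    S.D (X x) x ω = S.m (X x) (S.T x ω) + ∑ μ ∈ Mo σ d, (μ x : k) • S.E μ (S.J μ ω) := by
  rw [D_apply]
  congr 1
  refine Finset.sum_congr rfl fun μ hμ => ?_
  rw [X_pd_mon, map_smul, S.Ee_monomial hμ, LinearMap.smul_apply]

lemma EE_self [CharZero k] (μ : σ →₀ ℕ) : S.E μ * S.E μ = 0 := by
  have h := S.EE μ μ
  have h2 : (2 : k) • (S.E μ * S.E μ) = 0 := by
    rw [two_smul]
    nth_rewrite 1 [h]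
    exact neg_add_cancel _
  have h3 := congrArg (fun z => (2 : k)⁻¹ • z) h2
  simpa [smul_smul] using h3

lemma nop_inl_sq [CharZero k] {μ : σ →₀ ℕ} (hμ : μ ∈ Mo σ d) :
    (S.E μ * S.J μ) * (S.E μ * S.J μ) = S.E μ * S.J μ := by
  rw [mul_assoc, ← mul_assoc (S.J μ), S.JEs μ hμ, sub_mul, one_mul, mul_sub, mul_assoc (S.E μ) (S.J μ),
    ← mul_assoc (S.E μ) (S.E μ), EE_self]
  simp

lemma T_X_pow (x : σ) (M : ℕ) :
    S.T x * S.m (X x ^ M) = S.m (X x ^ M) * S.T x + (M : k) • S.m (X x ^ (M - 1)) := by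
  rw [S.Tm, pderiv_pow, pderiv_X_self, mul_one, map_mul]
  congr 1
  rw [show ((M : ℕ) : MvPolynomial σ k) = C (M : k) by simp, ← map_mul, ← smul_eq_C_mul, map_smul]

lemma dp_XT (x : σ) (M : ℕ) :
    dp (S.m (X x) * S.T x) M = S.m (X x ^ M) * (S.T x) ^ M := by
  induction M with
  | zero => simp [dp]
  | succ M ih =>
    rw [dp, ih, sub_mul, mul_assoc (S.m (X x)), ← mul_assoc (S.T x), T_X_pow, add_mul, mul_add,
      mul_assoc (S.m (X x ^ M)), ← pow_succ', ← mul_assoc, ← map_mul, ← pow_succ', smul_mul_assoc,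
      mul_smul_comm, smul_mul_assoc, one_mul, ← mul_assoc (S.m (X x)), ← map_mul]
    rcases M with _ | M
    · simp
    · rw [← pow_succ', Nat.succ_sub_one]
      abel

include A in
lemma T_pow_zero (x : σ) : ∀ (m : ℕ) {a : ℕ} {ω : F}, ω ∈ A.G a m → (S.T x ^ (m + 1)) ω = 0 := by
  intro m
  induction m with
  | zero => intro a ω h; simpa using A.GT0 h
  | succ m ih =>
    intro a ω h
    rw [pow_succ, Module.End.mul_apply]
    exact ih (A.GT h)

include A in
lemma nop_mem {a m : ℕ} (i : (σ →₀ ℕ) ⊕ σ) {ω : F} (h : ω ∈ A.G a m) : nop S i ω ∈ A.G a m := by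
  rcases i with μ | x
  · show (S.E μ * S.J μ) ω ∈ A.G a m
    rw [Module.End.mul_apply]
    rcases a with _ | a
    · rw [A.GJ0 h, map_zero]; exact zero_mem _
    · exact A.GE (A.GJ h)
  · show (S.m (X x) * S.T x) ω ∈ A.G a m
    rw [Module.End.mul_apply]
    rcases m with _ | m
    · rw [A.GT0 h, map_zero]; exact zero_mem _
    · exact A.Gm (isHomogeneous_X _ _) (A.GT h)

/-- the indices used -/
noncomputable def nix (σ : Type*) [Fintype σ] (d : ℕ) : List ((σ →₀ ℕ) ⊕ σ) :=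
  ((Mo σ d).toList.map Sum.inl) ++ ((Finset.univ : Finset σ).toList.map Sum.inr)

lemma mem_nix_inl {μ : σ →₀ ℕ} : (Sum.inl μ : (σ →₀ ℕ) ⊕ σ) ∈ nix σ d ↔ μ ∈ Mo σ d := by
  simp [nix]

lemma mem_nix_inr {x : σ} : (Sum.inr x : (σ →₀ ℕ) ⊕ σ) ∈ nix σ d := by
  simp [nix]

lemma nop_comm {i j : (σ →₀ ℕ) ⊕ σ} (hi : i ∈ nix σ d) (hj : j ∈ nix σ d) :
    nop S i * nop S j = nop S j * nop S i := by
  have h1 : ∀ μ x, S.E μ * S.J μ * (S.m (X x) * S.T x) = S.m (X x) * S.T x * (S.E μ * S.J μ) := by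
    intro μ x
    rw [mul_assoc, ← mul_assoc (S.J μ), ← S.mJ, mul_assoc (S.m (X x)), ← S.TJ, ← mul_assoc,
      ← S.mE, mul_assoc, ← mul_assoc (S.E μ), ← S.TE]
    simp only [mul_assoc]
  rcases i with μ | x
  · rcases j with ν | y
    · rw [mem_nix_inl] at hi hj
      by_cases h : μ = ν
      · rw [h]
      · show S.E μ * S.J μ * (S.E ν * S.J ν) = S.E ν * S.J ν * (S.E μ * S.J μ)
        have e1 : S.E μ * S.J μ * (S.E ν * S.J ν) = -(S.E μ * S.E ν * (S.J μ * S.J ν)) := by
          rw [mul_assoc, ← mul_assoc (S.J μ), S.JE μ hi ν hj h, neg_mul, mul_neg]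
          simp only [mul_assoc]
        have e2 : S.E ν * S.J ν * (S.E μ * S.J μ) = -(S.E ν * S.E μ * (S.J ν * S.J μ)) := by
          rw [mul_assoc, ← mul_assoc (S.J ν), S.JE ν hj μ hi (Ne.symm h), neg_mul, mul_neg]
          simp only [mul_assoc]
        rw [e1, e2, S.EE μ ν, S.JJ μ ν, neg_mul_neg]
    · exact h1 μ y
  · rcases j with ν | y
    · exact (h1 ν x).symm
    · by_cases h : x = y
      · rw [h]
      · show S.m (X x) * S.T x * (S.m (X y) * S.T y) = S.m (X y) * S.T y * (S.m (X x) * S.T x)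
        rw [mul_assoc, ← mul_assoc (S.T x), S.Tm, pderiv_X_of_ne (Ne.symm h), map_zero, add_zero,
          mul_assoc (S.m (X y)) (S.T y), ← mul_assoc (S.T y) (S.m (X x)), S.Tm,
          pderiv_X_of_ne h, map_zero, add_zero, mul_assoc (S.m (X y)), S.TT x y,
          ← mul_assoc, S.mm (X x) (X y)]
        simp only [mul_assoc]

include A in
lemma nop_LF [CharZero k] {a m : ℕ} {i : (σ →₀ ℕ) ⊕ σ} (hi : i ∈ nix σ d) {ω : F}
    (h : ω ∈ A.G a m) : ω ∈ LF (nop S i) := by
  rcases i with μ | x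
  · rw [mem_nix_inl] at hi
    refine ⟨2, ?_⟩
    show dp (S.E μ * S.J μ) 2 ω = 0
    have : dp (S.E μ * S.J μ) 2 = 0 := by
      simp only [dp, Nat.cast_one, Nat.cast_zero, one_smul, zero_smul, sub_zero, mul_one]
      rw [sub_mul, nop_inl_sq hi, one_mul, sub_self]
    rw [this]; rfl
  · refine ⟨m + 1, ?_⟩
    show dp (S.m (X x) * S.T x) (m + 1) ω = 0
    rw [dp_XT, Module.End.mul_apply, T_pow_zero A x m h, map_zero]

include A in
/-- `D_{xx}` is locally finite on `G a m` -/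
lemma Dxx_LF [CharZero k] {a m : ℕ} (x : σ) {ω : F} (h : ω ∈ A.G a m) :
    ω ∈ LF (S.D (X x) x) := by
  have h1 := jeig (nop S) (nix σ d) (A.G a m) (fun i _ w hw => nop_mem A i hw)
    (fun i hi w hw => nop_LF A hi hw) (fun i hi j hj => nop_comm hi hj) h
  refine (Submodule.span_le.mpr ?_) h1
  rintro v ⟨hv, hv'⟩
  -- v is an eigenvector of D_{xx} with a natural eigenvalue
  have h2 : ∃ n : ℕ, S.D (X x) x v = (n : k) • v := by
    obtain ⟨t, ht⟩ := hv' (Sum.inr x) mem_nix_inr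
    have h3 : ∀ μ : σ →₀ ℕ, ∃ n : ℕ, μ ∈ Mo σ d → S.E μ (S.J μ v) = (n : k) • v := by
      intro μ
      by_cases hμ : μ ∈ Mo σ d
      · obtain ⟨n, hn⟩ := hv' (Sum.inl μ) (mem_nix_inl.mpr hμ)
        exact ⟨n, fun _ => hn⟩
      · exact ⟨0, fun h => absurd h hμ⟩
    choose n hn using h3
    refine ⟨t + ∑ μ ∈ Mo σ d, μ x * n μ, ?_⟩
    rw [D_diag, show S.m (X x) (S.T x v) = (t : k) • v from ht, Nat.cast_add, add_smul,
      Nat.cast_sum, Finset.sum_smul]
    congr 1
    refine Finset.sum_congr rfl fun μ hμ => ?_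
    rw [hn μ hμ, smul_smul, Nat.cast_mul]
  obtain ⟨n, hn⟩ := h2
  refine ⟨n + 1, ?_⟩
  rw [dp_eig _ hn, Finset.prod_range_succ, sub_self, mul_zero, zero_smul]

lemma D_comm_diag (x y : σ) : S.D (X x) x * S.D (X y) y = S.D (X y) y * S.D (X x) x := by
  by_cases h : x = y
  · rw [h]
  · have hX : ∀ x : σ, (X x : MvPolynomial σ k).IsHomogeneous 1 := fun x => isHomogeneous_X _ _
    have h0 : ∀ z : σ, S.D (0 : MvPolynomial σ k) z = 0 := by
      intro z
      have := S.D_smul 0 (0 : MvPolynomial σ k) z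
      simpa using this
    rw [S.D_D (hX x) (hX y) x y, pderiv_X_of_ne (Ne.symm h), pderiv_X_of_ne h, mul_zero, mul_zero,
      h0, h0, add_zero, sub_zero]

include A in
/-- cycles are sums of weight vectors -/
lemma wt_span [CharZero k] {a m : ℕ} {κ : F} (h : κ ∈ A.G a m) (hz : S.del κ = 0) :
    κ ∈ Submodule.span k {v | (v ∈ A.G a m ∧ S.del v = 0) ∧
      ∃ w : σ → ℕ, ∀ x, S.D (X x) x v = (w x : k) • v} := by
  have hX : ∀ x : σ, (X x : MvPolynomial σ k).IsHomogeneous 1 := fun x => isHomogeneous_X _ _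
  let W : Submodule k F := A.G a m ⊓ LinearMap.ker S.del
  have hW : ∀ v, v ∈ W ↔ v ∈ A.G a m ∧ S.del v = 0 := by
    intro v
    rw [Submodule.mem_inf, LinearMap.mem_ker]
  have h1 := jeig (fun x : σ => S.D (X x) x) (Finset.univ : Finset σ).toList W
    (fun x _ w hw => (hW _).mpr ⟨D_mem A ((hW w).mp hw).1 (hX x) x,
      D_cycle (hX x) x ((hW w).mp hw).2⟩)
    (fun x _ w hw => Dxx_LF A x ((hW w).mp hw).1) (fun x _ y _ => D_comm_diag x y)
    ((hW κ).mpr ⟨h, hz⟩)
  refine (Submodule.span_mono ?_) h1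
  rintro v ⟨hv, hv'⟩
  refine ⟨(hW v).mp hv, ?_⟩
  choose w hw using fun x : σ => hv' x (by simp)
  exact ⟨w, hw⟩

include A in
/-- the sum of the weights -/
lemma wt_sum [CharZero k] {a m : ℕ} {v : F} (h : v ∈ A.G a m) (hv : v ≠ 0) {w : σ → ℕ}
    (hw : ∀ x, S.D (X x) x v = (w x : k) • v) : ∑ x, w x = m + d * a := by
  have h1 : ∑ x, S.D (X x) x v = ((m + d * a : ℕ) : k) • v := by
    have h2 : ∀ x ∈ (Finset.univ : Finset σ), S.D (X x) x v
        = S.m (X x) (S.T x v) + ∑ μ ∈ Mo σ d, (μ x : k) • S.E μ (S.J μ v) :=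
      fun x _ => D_diag x v
    rw [Finset.sum_congr rfl h2, Finset.sum_add_distrib, A.eul h, Finset.sum_comm]
    have h3 : ∀ μ ∈ Mo σ d, ∑ x, (μ x : k) • S.E μ (S.J μ v) = (d : k) • S.E μ (S.J μ v) := by
      intro μ hμ
      rw [← Finset.sum_smul]
      congr 1
      rw [mem_Mo, Finsupp.degree_eq_sum] at hμ
      rw [← hμ, Nat.cast_sum]
    rw [Finset.sum_congr rfl h3, ← Finset.smul_sum, A.num h, smul_smul, ← add_smul]
    congr 1
    push_cast
    ring
  have h2 : ∑ x, S.D (X x) x v = ((∑ x, w x : ℕ) : k) • v := by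
    rw [Finset.sum_congr rfl fun x _ => hw x, ← Finset.sum_smul, Nat.cast_sum]
  rw [h2] at h1
  have h3 : (((∑ x, w x : ℕ) : k) - ((m + d * a : ℕ) : k)) • v = 0 := by
    rw [sub_smul, h1, sub_self]
  rcases smul_eq_zero.mp h3 with h4 | h4
  · exact Nat.cast_injective (sub_eq_zero.mp h4)
  · exact absurd h4 hv

end

end Pool.Agent.H27.OP
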