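import Pool.Agent.H27.OP.Meas
import Pool.Agent.H27.OP.InstX

set_option autoImplicit false
set_option linter.unusedSectionVars false

/-!
# Ottaviani-Paoletti: the main theorem for the Koszul complex
-/

open MvPolynomial

namespace Pool.Agent.H27.OP

variable {σ k : Type*} [Fintype σ] [Field k]

/-- a basis of the forms of degree `d` gives the matrices -/
lemma exists_Bs {N d : ℕ} (φ : Fin N → MvPolynomial σ k)
    (hφ : ∀ i, φ i ∈ homogeneousSubmodule σ k d) (hli : LinearIndependent k φ)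
    (hsp : Submodule.span k (Set.range φ) = homogeneousSubmodule σ k d) :
    ∃ B : Bs σ k N d, B.φ = φ := by
  classical
  have h1 : ∀ μ : σ →₀ ℕ, ∃ c : Fin N → k, μ ∈ Mo σ d → ∑ i, c i • φ i = monomial μ 1 := by
    intro μ
    by_cases hμ : μ ∈ Mo σ d
    · have h2 : monomial μ (1 : k) ∈ Submodule.span k (Set.range φ) := by
        rw [hsp, mem_homogeneousSubmodule]
        exact isHomogeneous_monomial _ (mem_Mo.mp hμ)
      obtain ⟨c, hc⟩ := (Submodule.mem_span_range_iff_exists_fun k).mp h2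
      exact ⟨c, fun _ => hc⟩
    · exact ⟨0, fun h => absurd h hμ⟩
  choose α hα using h1
  have hcoe : ∀ μ ∈ Mo σ d, ∀ ν ∈ Mo σ d, ∑ i, coeff μ (φ i) * α ν i
      = if ν = μ then 1 else 0 := by
    intro μ hμ ν hν
    have h2 := congrArg (coeff μ) (hα ν hν)
    rw [coeff_sum, coeff_monomial] at h2
    rw [← h2]
    refine Finset.sum_congr rfl fun i _ => ?_
    rw [coeff_smul, smul_eq_mul, mul_comm]
  refine ⟨{ α := α, γ := fun μ i => coeff μ (φ i), ga := ?_, gas := ?_, φ := φ,
            hom := fun i => (mem_homogeneousSubmodule _ _).mp (hφ i), coe := fun _ _ _ => rfl,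
            ag := ?_ }, rfl⟩
  · intro μ hμ ν hν hne
    rw [hcoe μ hμ ν hν, if_neg (Ne.symm hne)]
  · intro μ hμ
    rw [hcoe μ hμ μ hμ, if_pos rfl]
  · intro i j
    have h2 : ∑ i, (∑ μ ∈ Mo σ d, α μ i * coeff μ (φ j)) • φ i = φ j := by
      have h3 : ∀ i ∈ (Finset.univ : Finset (Fin N)),
          (∑ μ ∈ Mo σ d, α μ i * coeff μ (φ j)) • φ i
          = ∑ μ ∈ Mo σ d, coeff μ (φ j) • (α μ i • φ i) := by
        intro i _
        rw [Finset.sum_smul]
        refine Finset.sum_congr rfl fun μ _ => ?_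
        rw [smul_smul, mul_comm]
      rw [Finset.sum_congr rfl h3, Finset.sum_comm]
      have h4 : ∀ μ ∈ Mo σ d, ∑ i, coeff μ (φ j) • (α μ i • φ i)
          = coeff μ (φ j) • monomial μ (1 : k) := by
        intro μ hμ
        rw [← Finset.smul_sum, hα μ hμ]
      rw [Finset.sum_congr rfl h4]
      have := sum_coeff (LinearMap.id : MvPolynomial σ k →ₗ[k] MvPolynomial σ k)
        ((mem_homogeneousSubmodule _ _).mp (hφ j))
      simpa only [LinearMap.id_apply] using this
    have h5 : ∑ i, ((∑ μ ∈ Mo σ d, α μ i * coeff μ (φ j)) - (if i = j then 1 else 0)) • φ i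
        = 0 := by
      have h6 : ∀ i ∈ (Finset.univ : Finset (Fin N)),
          ((∑ μ ∈ Mo σ d, α μ i * coeff μ (φ j)) - (if i = j then 1 else 0)) • φ i
          = (∑ μ ∈ Mo σ d, α μ i * coeff μ (φ j)) • φ i - (if i = j then φ i else 0) := by
        intro i _
        rw [sub_smul]
        congr 1
        split_ifs
        · rw [one_smul]
        · rw [zero_smul]
      rw [Finset.sum_congr rfl h6, Finset.sum_sub_distrib, h2, Finset.sum_ite_eq']
      simp
    have h6 := Fintype.linearIndependent_iff.mp hli _ h5 i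
    exact sub_eq_zero.mp h6

lemma arith {d p a : ℕ} (h : (p - d) ^ 2 < 4 * (d + 1)) (ha : a ≤ p) :
    a * (p - a) ≤ (a + 1) * d := by
  rcases le_or_gt p (d + a) with h1 | h1
  · have h2 : p - a ≤ d := by omega
    calc a * (p - a) ≤ a * d := Nat.mul_le_mul_left _ h2
      _ ≤ (a + 1) * d := Nat.mul_le_mul_right _ (by omega)
  · obtain ⟨y, hy⟩ : ∃ y, p = d + a + y := ⟨p - (d + a), by omega⟩
    subst hy
    have h2 : d + a + y - d = a + y := by omega
    have h3 : d + a + y - a = d + y := by omega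
    rw [h2] at h
    rw [h3]
    have h4 : 4 * (a * y) ≤ (a + y) ^ 2 := by
      zify
      nlinarith [sq_nonneg ((a : ℤ) - y)]
    have h5 : a * y < d + 1 := by omega
    calc a * (d + y) = a * d + a * y := by ring
      _ ≤ a * d + d := by omega
      _ = (a + 1) * d := by ring

/-- **Main theorem.** -/
theorem koszul_exact (n d p : ℕ) (hd : 1 ≤ d) (hp : (p - d) ^ 2 < 4 * (d + 1))
    {K : Type*} [Field K] [CharZero K]
    (N : ℕ) (φ : Fin N → MvPolynomial (Fin (n + 1)) K)
    (hφ : ∀ i, φ i ∈ homogeneousSubmodule (Fin (n + 1)) K d)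
    (hli : LinearIndependent K φ)
    (hsp : Submodule.span K (Set.range φ) = homogeneousSubmodule (Fin (n + 1)) K d)
    (i : ℕ) (hi : i ≤ p) (m : ℕ) (hm : 2 * d ≤ m)
    (f : Finset (Fin N) → MvPolynomial (Fin (n + 1)) K)
    (hf : ∀ I, f I ∈ homogeneousSubmodule (Fin (n + 1)) K m)
    (hf0 : ∀ I : Finset (Fin N), I.card ≠ i → f I = 0)
    (hz : ∀ J : Finset (Fin N), J.card + 1 = i →
      ∑ b ∈ Jᶜ, (-1 : MvPolynomial (Fin (n + 1)) K) ^ (J.filter (fun c => c < b)).card
        * φ b * f (insert b J) = 0) :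
    ∃ g : Finset (Fin N) → MvPolynomial (Fin (n + 1)) K,
      (∀ I, g I ∈ homogeneousSubmodule (Fin (n + 1)) K (m - d)) ∧
      (∀ I : Finset (Fin N), I.card ≠ i + 1 → g I = 0) ∧
      ∀ I : Finset (Fin N), I.card = i →
        f I = ∑ b ∈ Iᶜ, (-1 : MvPolynomial (Fin (n + 1)) K) ^ (I.filter (fun c => c < b)).card
          * φ b * g (insert b I) := by
  obtain ⟨B, rfl⟩ := exists_Bs φ hφ hli hsp
  have hdel : ∀ (h : Finset (Fin N) → MvPolynomial (Fin (n + 1)) K) (I : Finset (Fin N)),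
      (SK B).del h I
        = ∑ b ∈ Iᶜ, (-1 : MvPolynomial (Fin (n + 1)) K) ^ (I.filter (fun c => c < b)).card
          * B.φ b * h (insert b I) := by
    intro h I
    have h1 : Iᶜ = Finset.univ.filter (fun b => ¬ b ∈ I) := by
      ext b; simp
    rw [SK_del, h1, Finset.sum_filter]
    refine Finset.sum_congr rfl fun b _ => ?_
    rw [aJ_apply]
    by_cases hb : b ∈ I
    · rw [if_pos hb, if_neg (not_not.mpr hb), mul_zero]
    · rw [if_neg hb, if_pos hb, sgn, smul_eq_C_mul, map_pow, map_neg, C_1]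
      ring
  have hfG : f ∈ (AK B).G i m := fun I =>
    ⟨(mem_homogeneousSubmodule _ _).mp (hf I), fun hI => hf0 I hI⟩
  have hfz : (SK B).del f = 0 := by
    funext J
    rw [hdel]
    by_cases hJ : J.card + 1 = i
    · exact hz J hJ
    · refine Finset.sum_eq_zero fun b hb => ?_
      rw [hf0 (insert b J) (by
        rw [Finset.card_insert_of_notMem (Finset.mem_compl.mp hb)]; exact hJ), mul_zero]
  obtain ⟨e, he⟩ : ∃ e, d = e + 1 := ⟨d - 1, by omega⟩
  have hpi : ∀ a, 1 ≤ a → a ≤ i → a * (i - a) ≤ (a + 1) * d := by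
    intro a _ ha
    refine arith ?_ ha
    refine lt_of_le_of_lt ?_ hp
    exact Nat.pow_le_pow_left (by omega) 2
  obtain ⟨ω0, hω0⟩ := abstract_main (AK B) (XK B) (fun x : Fin (n + 1) => (x : ℕ))
    (fun _ _ h => h) he hpi hm hfG hfz
  have h1 : (SK B).del ω0 ∈ (AK B).G i (m - d + d) := by
    rw [hω0, Nat.sub_add_cancel (by omega)]
    exact hfG
  obtain ⟨ω, hω, hωd⟩ := (AK B).lift h1
  refine ⟨ω, fun I => (mem_homogeneousSubmodule _ _).mpr (hω I).1, fun I hI => (hω I).2 hI, ?_⟩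
  intro I _
  rw [← hdel, hωd, hω0]

end Pool.Agent.H27.OP
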