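import Pool.Agent.H27.OP.Level

set_option autoImplicit false
set_option linter.unusedSectionVars false

/-!
# Ottaviani-Paoletti: removing a variable, the final descent
-/

open MvPolynomial

namespace Pool.Agent.H27.OP

variable {σ k : Type*} [Fintype σ] [Field k]

section ring

variable {O : Type*} [Ring O] [Algebra k O] {d : ℕ} (S : Fk σ k O d)

open Classical in
/-- the part of `∂` free of `x` -/
noncomputable def d1 (S : Fk σ k O d) (x : σ) : O :=
  ∑ μ ∈ (Mo σ d).filter (fun μ => μ x = 0), S.m (monomial μ 1) * S.J μ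

open Classical in
/-- the part of `∂` divisible by `x`, divided by `x` -/
noncomputable def d2 (S : Fk σ k O d) (x : σ) : O :=
  ∑ μ ∈ (Mo σ d).filter (fun μ => ¬ μ x = 0), S.m (monomial (μ - Finsupp.single x 1) 1) * S.J μ

lemma X_mon (x : σ) (μ : σ →₀ ℕ) (h : ¬ μ x = 0) :
    (X x : MvPolynomial σ k) * monomial (μ - Finsupp.single x 1) 1 = monomial μ 1 := by
  classical
  rw [X, monomial_mul, one_mul]
  congr 2
  ext y
  by_cases hy : y = x
  · subst hy
    simp only [Finsupp.coe_add, Finsupp.coe_tsub, Pi.add_apply, Pi.sub_apply,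
      Finsupp.single_eq_same]
    omega
  · simp [Finsupp.single_eq_of_ne hy]

lemma del_split (x : σ) : S.del = d1 S x + S.m (X x) * d2 S x := by
  classical
  unfold d1 d2
  rw [Fk.del_eq, ← Finset.sum_filter_add_sum_filter_not (Mo σ d) (fun μ => μ x = 0),
    Finset.mul_sum]
  congr 1
  refine Finset.sum_congr rfl fun μ hμ => ?_
  rw [← mul_assoc, ← map_mul, X_mon x μ (Finset.mem_filter.mp hμ).2]

lemma d1_J (x : σ) (ν : σ →₀ ℕ) : d1 S x * S.J ν = -(S.J ν * d1 S x) := by
  unfold d1
  rw [Finset.sum_mul, Finset.mul_sum, ← Finset.sum_neg_distrib]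
  refine Finset.sum_congr rfl fun μ _ => ?_
  rw [mul_assoc, S.JJ, mul_neg, ← mul_assoc, S.mJ, mul_assoc]

lemma d1_E (x : σ) {ν : σ →₀ ℕ} (hν : ν ∈ Mo σ d) (h : ¬ ν x = 0) :
    d1 S x * S.E ν = -(S.E ν * d1 S x) := by
  unfold d1
  rw [Finset.sum_mul, Finset.mul_sum, ← Finset.sum_neg_distrib]
  refine Finset.sum_congr rfl fun μ hμ => ?_
  obtain ⟨h1, h2⟩ := Finset.mem_filter.mp hμ
  rw [mul_assoc, S.JE μ h1 ν hν (by rintro rfl; exact h h2), mul_neg, ← mul_assoc, S.mE, mul_assoc]

lemma d2_Ee {e : ℕ} (hd : d = e + 1) (x : σ) {f : MvPolynomial σ k} (hf : f.IsHomogeneous e) :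
    d2 S x * S.Ee (X x * f) = S.m f - S.Ee (X x * f) * d2 S x := by
  classical
  unfold d2
  rw [Finset.sum_mul, Finset.mul_sum]
  have h : ∀ μ ∈ (Mo σ d).filter (fun μ => ¬ μ x = 0),
      S.m (monomial (μ - Finsupp.single x 1) 1) * S.J μ * S.Ee (X x * f)
      = coeff (μ - Finsupp.single x 1) f • S.m (monomial (μ - Finsupp.single x 1) 1)
        - S.Ee (X x * f) * (S.m (monomial (μ - Finsupp.single x 1) 1) * S.J μ) := by
    intro μ hμ
    obtain ⟨h1, h2⟩ := Finset.mem_filter.mp hμ
    rw [mul_assoc, S.JEe h1, mul_sub, mul_smul_comm, mul_one, ← mul_assoc, S.mEe, mul_assoc,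
      coeff_X_mul', if_pos (Finsupp.mem_support_iff.mpr h2)]
  rw [Finset.sum_congr rfl h, Finset.sum_sub_distrib]
  congr 1
  rw [show S.m f = S.m.toLinearMap f from rfl, ← sum_coeff S.m.toLinearMap hf]
  refine Finset.sum_bij' (fun μ _ => μ - Finsupp.single x 1) (fun μ _ => μ + Finsupp.single x 1)
    ?_ ?_ ?_ ?_ ?_
  · intro μ hμ
    obtain ⟨h1, h2⟩ := Finset.mem_filter.mp hμ
    have h3 : μ - Finsupp.single x 1 + Finsupp.single x 1 = μ := by
      ext y
      by_cases hy : y = x
      · subst hy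
        simp only [Finsupp.coe_add, Finsupp.coe_tsub, Pi.add_apply, Pi.sub_apply,
          Finsupp.single_eq_same]
        omega
      · simp [Finsupp.single_eq_of_ne hy]
    rw [mem_Mo] at h1 ⊢
    have h4 : (μ - Finsupp.single x 1 + Finsupp.single x 1).degree
        = (μ - Finsupp.single x 1).degree + 1 := by
      rw [map_add, Finsupp.degree_single]
    rw [h3] at h4
    omega
  · intro μ hμ
    refine Finset.mem_filter.mpr ⟨?_, by simp⟩
    rw [mem_Mo] at hμ ⊢
    rw [map_add, Finsupp.degree_single, hμ, hd]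
  · intro μ hμ
    obtain ⟨h1, h2⟩ := Finset.mem_filter.mp hμ
    ext y
    by_cases hy : y = x
    · subst hy
      simp only [Finsupp.coe_add, Finsupp.coe_tsub, Pi.add_apply, Pi.sub_apply,
        Finsupp.single_eq_same]
      omega
    · simp [Finsupp.single_eq_of_ne hy]
  · intro μ _
    ext y
    simp
  · intro μ _
    rfl

lemma d2_Pc {e : ℕ} (hd : d = e + 1) (x : σ) (F : List (MvPolynomial σ k)) (hF : Fk.HomL e F) :
    d2 S x * S.Pc (X x) F = Fk.sg k F.length • (S.Pc (X x) F * d2 S x) + S.Cc (X x) F := by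
  induction F with
  | nil => simp [Fk.Pc, Fk.Cc, Fk.sg]
  | cons f F ih =>
    have h := hF.of_cons
    rw [Fk.Pc, Fk.Cc, ← mul_assoc, d2_Ee S hd x h.1, sub_mul, mul_assoc, ih h.2, mul_add,
      List.length_cons, Fk.sg_succ, mul_smul_comm, neg_smul]
    simp only [mul_assoc]
    abel

end ring

section

variable {F : Type*} [AddCommGroup F] [Module k F] {d : ℕ}
variable {S : Fk σ k (Module.End k F) d} (A : Gr S)

lemma JJ_self [CharZero k] (μ : σ →₀ ℕ) (ω : F) : S.J μ (S.J μ ω) = 0 := by
  have h := congrArg (fun f : Module.End k F => f ω) (S.JJ μ μ)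
  simp only [Module.End.mul_apply, LinearMap.neg_apply] at h
  have h2 : (2 : k) • S.J μ (S.J μ ω) = 0 := by
    rw [two_smul]
    nth_rewrite 1 [h]
    exact neg_add_cancel _
  have h3 := congrArg (fun z => (2 : k)⁻¹ • z) h2
  simpa [smul_smul] using h3

include A in
lemma Hdown [CharZero k] {e : ℕ} (hd : d = e + 1) {p m : ℕ} (hml : ∀ a q, a + q = p + 1 → a ≤ p →
    ML S A e a q) (hm : d + 1 ≤ m) (x : σ) (D : Finset (σ →₀ ℕ)) :
    ∀ (a : ℕ) (L : List (MvPolynomial σ k)) (ω : F), Fk.HomL e L → a + L.length = p + 1 →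
      ω ∈ A.G a m → d1 S x ω = 0 → (∀ μ ∈ D, μ ∈ Mo σ d ∧ ¬ μ x = 0) →
      (∀ ν ∈ Mo σ d, ¬ ν x = 0 → ν ∉ D → S.J ν ω = 0) →
      d2 S x (S.Pc (X x) L ω) ∈ LinearMap.range S.del := by
  classical
  induction D using Finset.induction_on with
  | empty =>
    intro a L ω hL hlen hω h1 _ hJ
    have h2 : d2 S x ω = 0 := by
      unfold d2
      rw [LinearMap.sum_apply]
      refine Finset.sum_eq_zero fun μ hμ => ?_
      obtain ⟨g1, g2⟩ := Finset.mem_filter.mp hμ
      rw [Module.End.mul_apply, hJ μ g1 g2 (Finset.notMem_empty _), map_zero]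
    have h3 : S.del ω = 0 := by
      rw [del_split S x, LinearMap.add_apply, Module.End.mul_apply, h1, h2, map_zero, add_zero]
    have h4 := congrArg (fun f : Module.End k F => f ω) (d2_Pc S hd x L hL)
    simp only [Module.End.mul_apply, LinearMap.add_apply, LinearMap.smul_apply, h2, map_zero,
      smul_zero, zero_add] at h4
    rw [h4]
    rcases Nat.lt_or_ge p a with ha | ha
    · have : L = [] := List.length_eq_zero_iff.mp (by omega)
      subst this
      simp [Fk.Cc]
    · exact (hml a L.length hlen ha m hm ω hω h3).2.2 _ L (isHomogeneous_X _ _) hL rfl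
  | insert μ D hμD ih =>
    intro a L ω hL hlen hω h1 hD hJ
    obtain ⟨hμ, hμx⟩ := hD μ (Finset.mem_insert_self _ _)
    have hD' : ∀ μ ∈ D, μ ∈ Mo σ d ∧ ¬ μ x = 0 :=
      fun ν hν => hD ν (Finset.mem_insert_of_mem hν)
    have e0 : ω = S.J μ (S.E μ ω) + S.E μ (S.J μ ω) := by
      have := congrArg (fun f : Module.End k F => f ω) (S.JEs μ hμ)
      simp only [Module.End.mul_apply, LinearMap.sub_apply, Module.End.one_apply] at this
      rw [this]; abel
    have hJ1 : ∀ ν ∈ Mo σ d, ¬ ν x = 0 → ν ∉ D → S.J ν (S.J μ ω) = 0 := by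
      intro ν hν hνx hνD
      by_cases h : ν = μ
      · subst h; exact JJ_self _ _
      · have := congrArg (fun f : Module.End k F => f ω) (S.JJ ν μ)
        simp only [Module.End.mul_apply, LinearMap.neg_apply] at this
        rw [this, hJ ν hν hνx (by simp [h, hνD]), map_zero, neg_zero]
    have hd1 : d1 S x (S.J μ ω) = 0 := by
      have := congrArg (fun f : Module.End k F => f ω) (d1_J S x μ)
      simp only [Module.End.mul_apply, LinearMap.neg_apply] at this
      rw [this, h1, map_zero, neg_zero]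
    -- first part
    have part1 : d2 S x (S.Pc (X x) L (S.J μ (S.E μ ω))) ∈ LinearMap.range S.del := by
      refine ih a L _ hL hlen (A.GJ (A.GE hω)) ?_ hD' ?_
      · have t1 := congrArg (fun f : Module.End k F => f (S.E μ ω)) (d1_J S x μ)
        have t2 := congrArg (fun f : Module.End k F => f ω) (d1_E S x hμ hμx)
        simp only [Module.End.mul_apply, LinearMap.neg_apply] at t1 t2
        rw [t1, t2, h1, map_zero, neg_zero, map_zero, neg_zero]
      · intro ν hν hνx hνD
        by_cases h : ν = μ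
        · subst h; exact JJ_self _ _
        · have t1 := congrArg (fun f : Module.End k F => f (S.E μ ω)) (S.JJ ν μ)
          have t2 := congrArg (fun f : Module.End k F => f ω) (S.JE ν hν μ hμ h)
          simp only [Module.End.mul_apply, LinearMap.neg_apply] at t1 t2
          rw [t1, t2, hJ ν hν hνx (by simp [h, hνD]), map_zero, neg_zero, map_zero, neg_zero]
    -- second part
    have part2 : d2 S x (S.Pc (X x) L (S.E μ (S.J μ ω))) ∈ LinearMap.range S.del := by
      rcases a with _ | a
      · rw [A.GJ0 hω, map_zero, map_zero, map_zero]; exact zero_mem _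
      · have hmon : (monomial (μ - Finsupp.single x 1) (1 : k)).IsHomogeneous e := by
          refine isHomogeneous_monomial _ ?_
          have t3 : μ - Finsupp.single x 1 + Finsupp.single x 1 = μ := by
            ext y
            by_cases hy : y = x
            · subst hy
              simp only [Finsupp.coe_add, Finsupp.coe_tsub, Pi.add_apply, Pi.sub_apply,
                Finsupp.single_eq_same]
              omega
            · simp [Finsupp.single_eq_of_ne hy]
          have t4 : (μ - Finsupp.single x 1 + Finsupp.single x 1).degree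
              = (μ - Finsupp.single x 1).degree + 1 := by
            rw [map_add, Finsupp.degree_single]
          rw [t3, mem_Mo.mp hμ] at t4
          omega
        have t5 : S.Pc (X x) L (S.E μ (S.J μ ω)) = Fk.sg k L.length •
            S.Pc (X x) (monomial (μ - Finsupp.single x 1) 1 :: L) (S.J μ ω) := by
          have t6 : S.Pc (X x) L * S.E μ
              = Fk.sg k L.length • S.Pc (X x) (monomial (μ - Finsupp.single x 1) 1 :: L) := by
            rw [← S.Ee_monomial hμ, S.Pc_Ee, Fk.Pc, X_mon x μ hμx]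
          have := congrArg (fun f : Module.End k F => f (S.J μ ω)) t6
          simpa only [Module.End.mul_apply, LinearMap.smul_apply] using this
        rw [t5, map_smul]
        refine Submodule.smul_mem _ _ (ih a _ _ (hL.cons hmon) ?_ (A.GJ hω) hd1 hD' hJ1)
        rw [List.length_cons]
        omega
    rw [e0, map_add, map_add]
    exact add_mem part1 part2

include A in
/-- multiplication by a variable is injective on the cohomology -/
lemma Hinj [CharZero k] {e : ℕ} (hd : d = e + 1) {p : ℕ} (hml : ∀ a q, a + q = p + 1 → a ≤ p →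
    ML S A e a q) {m : ℕ} (hm : 2 * d ≤ m) (x : σ) {κ : F} (hκ : κ ∈ A.G p m)
    (h : S.m (X x) κ ∈ LinearMap.range S.del) : κ ∈ LinearMap.range S.del := by
  classical
  have hX : (X x : MvPolynomial σ k).IsHomogeneous 1 := isHomogeneous_X _ _
  obtain ⟨ω0, h0⟩ := h
  have h1 : S.del ω0 ∈ A.G p (m + 1 - d + d) := by
    rw [h0, Nat.sub_add_cancel (by omega)]
    exact A.Gm hX hκ
  obtain ⟨ω, hω, hωd⟩ := A.lift h1
  rw [h0] at hωd
  set ρ := A.rho x ω with hρ
  have e1 : ω = ρ + S.m (X x) (A.dv x ω) := A.rho_dv x ω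
  have e2 : A.rho x ρ = ρ := by
    have := congrArg (A.rho x) e1
    rw [map_add, A.rho_X, add_zero] at this
    exact this.symm
  have e3 : ∀ ξ, A.rho x (S.del ξ) = d1 S x (A.rho x ξ) := by
    intro ξ
    rw [del_split S x, LinearMap.add_apply, Module.End.mul_apply, map_add, A.rho_X, add_zero]
    unfold d1
    rw [LinearMap.sum_apply, LinearMap.sum_apply, map_sum]
    refine Finset.sum_congr rfl fun μ hμ => ?_
    rw [Module.End.mul_apply, Module.End.mul_apply, A.rho_mon _ _ _ (Finset.mem_filter.mp hμ).2,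
      A.rho_J]
  have e4 : d1 S x ρ = 0 := by
    rw [hρ, ← e3, hωd, A.rho_X]
  have e5 : κ = d2 S x ρ + S.del (A.dv x ω) := by
    have h3 : S.m (X x) (κ - (d2 S x ρ + S.del (A.dv x ω))) = 0 := by
      have h4 : S.m (X x) κ = S.del ρ + S.m (X x) (S.del (A.dv x ω)) := by
        rw [← hωd]
        conv_lhs => rw [e1]
        rw [map_add]
        congr 1
        exact congrArg (fun f : Module.End k F => f (A.dv x ω)) (S.del_m (X x))
      rw [map_sub, map_add, h4, del_split S x, LinearMap.add_apply, LinearMap.add_apply,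
        Module.End.mul_apply, e4]
      simp
    have := A.inj x _ h3
    exact sub_eq_zero.mp this
  rw [e5]
  refine add_mem ?_ ⟨_, rfl⟩
  have := Hdown A hd hml (m := m + 1 - d) (by omega) x
    ((Mo σ d).filter (fun μ => ¬ μ x = 0)) (p + 1) [] ρ (by intro f hf; simp at hf) (by simp)
    (A.Grho hω) e4 (fun μ hμ => by simpa using hμ) (by
      intro ν hν hνx hν'
      exact absurd (Finset.mem_filter.mpr ⟨hν, hνx⟩) hν')
  simpa [Fk.Pc] using this

include A in
/-- vanishing of the Koszul cohomology from `ML` -/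
theorem vanish_of_ML [CharZero k] [Nonempty σ] {e : ℕ} (hd : d = e + 1) {p : ℕ}
    (hml : ∀ a q, a + q = p + 1 → a ≤ p → ML S A e a q) {m : ℕ} (hm : 2 * d ≤ m) {κ : F}
    (hκ : κ ∈ A.G p m) (hz : S.del κ = 0) : κ ∈ LinearMap.range S.del := by
  classical
  obtain ⟨x⟩ := (inferInstance : Nonempty σ)
  have hX : (X x : MvPolynomial σ k).IsHomogeneous 1 := isHomogeneous_X _ _
  have h1 : ∀ (i m : ℕ) (κ : F), 2 * d ≤ m → κ ∈ A.G p m → (S.m (X x ^ i)) κ ∈
      LinearMap.range S.del → κ ∈ LinearMap.range S.del := by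
    intro i
    induction i with
    | zero => intro m κ _ _ h; simpa using h
    | succ i ih =>
      intro m κ hm hκ h
      refine Hinj A hd hml hm x hκ (ih (m + 1) _ (by omega) (A.Gm hX hκ) ?_)
      rw [pow_succ, map_mul, Module.End.mul_apply] at h
      exact h
  refine h1 d m κ hm hκ ?_
  have hμ : Finsupp.single x d ∈ Mo σ d := by rw [mem_Mo, Finsupp.degree_single]
  have h2 : (monomial (Finsupp.single x d) (1 : k)).IsHomogeneous d :=
    isHomogeneous_monomial _ (mem_Mo.mp hμ)
  have h3 := congrArg (fun f : Module.End k F => f κ) (S.del_Ee h2)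
  simp only [Module.End.mul_apply, LinearMap.sub_apply, hz, map_zero, sub_zero] at h3
  refine ⟨_, h3.trans ?_⟩
  rw [X_pow_eq_monomial]

end

end Pool.Agent.H27.OP
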