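import Pool.Agent.H27.OP.Cap
import Pool.Agent.H27.OP.Wt
import Pool.Agent.H27.OP.Hp

set_option autoImplicit false
set_option linter.unusedSectionVars false

/-!
# Ottaviani-Paoletti: the measure induction and the abstract main theorem
-/

open MvPolynomial

namespace Pool.Agent.H27.OP

variable {σ k : Type*} [Fintype σ] [Field k]

section

variable {F : Type*} [AddCommGroup F] [Module k F] {d : ℕ}
variable {S : Fk σ k (Module.End k F) d} (A : Gr S)
variable {XF : Type*} [AddCommGroup XF] [Module k XF] (Y : Xt S XF)

lemma wt_shift [DecidableEq σ] {κ : F} {w : σ → ℕ} (hw : ∀ x, S.D (X x) x κ = (w x : k) • κ) {x y : σ}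
    (hxy : x ≠ y) (hy : w y ≠ 0) (z : σ) :
    S.D (X z) z (S.D (X x) y κ)
      = (((fun z => if z = x then w z + 1 else if z = y then w z - 1 else w z) z : ℕ) : k)
        • S.D (X x) y κ := by
  have hX : ∀ x : σ, (X x : MvPolynomial σ k).IsHomogeneous 1 := fun x => isHomogeneous_X _ _
  have h0 : ∀ z : σ, S.D (0 : MvPolynomial σ k) z = 0 := by
    intro z
    have := S.D_smul 0 (0 : MvPolynomial σ k) z
    simpa using this
  have e1 := congrArg (fun f : Module.End k F => f κ) (S.D_D (hX z) (hX x) z y)
  simp only [Module.End.mul_apply, LinearMap.add_apply, LinearMap.sub_apply] at e1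
  rw [e1, hw z, map_smul]
  by_cases h1 : z = x
  · subst h1
    rw [pderiv_X_self, mul_one, pderiv_X_of_ne hxy, mul_zero, h0, LinearMap.zero_apply,
      sub_zero]
    simp only [if_true]
    rw [Nat.cast_add, Nat.cast_one, add_smul, one_smul]
  · rw [pderiv_X_of_ne (Ne.symm h1), mul_zero, h0, LinearMap.zero_apply, add_zero]
    by_cases h2 : z = y
    · subst h2
      rw [pderiv_X_self, mul_one]
      simp only [if_neg h1, if_true]
      rw [Nat.cast_sub (by omega), Nat.cast_one, sub_smul, one_smul]
    · rw [pderiv_X_of_ne h2, mul_zero, h0, LinearMap.zero_apply, sub_zero]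
      simp only [if_neg h1, if_neg h2]

include A Y in
lemma meas [CharZero k] [LinearOrder σ] (v : σ → ℕ) (hv : StrictMono v) {e : ℕ} (hd : d = e + 1)
    {a m q : ℕ} (hml : ML S A e a (q + 1)) (hm : d + 1 ≤ m) (hq : (a + 1) * (q - 1) < m + d * (a + 1)) :
    ∀ (N : ℕ) (κ : F) (w : σ → ℕ), κ ∈ A.G (a + 1) m → S.del κ = 0 →
      (∀ x, S.D (X x) x κ = (w x : k) • κ) → ∑ x, v x * w x = N → κ ∈ W0 S A e (a + 1) m q := by
  classical
  have hX : ∀ x : σ, (X x : MvPolynomial σ k).IsHomogeneous 1 := fun x => isHomogeneous_X _ _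
  intro N
  induction N using Nat.strong_induction_on with
  | _ N ih =>
    intro κ w hκ hz hw hN
    by_cases hκ0 : κ = 0
    · rw [hκ0]; exact zero_mem _
    by_cases hbig : ∃ x, q ≤ w x
    · obtain ⟨x, hx⟩ := hbig
      exact chain A hd hml hm hκ hz (hw x) hx
    · push Not at hbig
      have hsum := wt_sum A hκ hκ0 hw
      -- the support is large
      set s : Finset σ := Finset.univ.filter fun x => w x ≠ 0 with hs
      have hcard : a + 2 ≤ s.card := by
        by_contra hlt
        have h1 : ∑ x, w x = ∑ x ∈ s, w x := by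
          rw [hs, Finset.sum_filter]
          refine Finset.sum_congr rfl fun x _ => ?_
          split_ifs with h
          · rfl
          · simpa using h
        have h2 : ∑ x ∈ s, w x ≤ s.card * (q - 1) := by
          refine Finset.sum_le_card_nsmul s w (q - 1) fun x _ => ?_
          have := hbig x
          omega
        have h3 : s.card * (q - 1) ≤ (a + 1) * (q - 1) := Nat.mul_le_mul_right _ (by omega)
        omega
      obtain ⟨t, hts, htc⟩ := Finset.exists_subset_card_eq hcard
      set Z : List σ := t.sort (· ≤ ·) with hZ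
      have hZn : Z.Nodup := Finset.sort_nodup _ _
      have hZl : Z.length = (a + 1) + 1 := by rw [hZ, Finset.length_sort, htc]
      have hZs : Z.Pairwise (· < ·) := by
        have := Finset.sortedLT_sort t
        exact this.pairwise
      have hZm : ∀ z ∈ Z, w z ≠ 0 := by
        intro z hz
        have h1 : z ∈ t := (Finset.mem_sort _).mp hz
        exact (Finset.mem_filter.mp (hts h1)).2
      have hW : ∀ x y : σ, ∀ w ∈ W0 S A e (a + 1) m q, S.D (X x) y w ∈ W0 S A e (a + 1) m q :=
        fun x y w hw => W0_D A hd hw (hX x) y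
      have hp : Z.Pairwise fun x y => S.D (X x) y κ ∈ W0 S A e (a + 1) m q := by
        refine List.Pairwise.imp_of_mem ?_ hZs
        intro x y hx hy hlt
        have hxy : x ≠ y := ne_of_lt hlt
        have hwy := hZm y hy
        refine ih (∑ z, v z * (if z = x then w z + 1 else if z = y then w z - 1 else w z)) ?_
          _ (fun z => if z = x then w z + 1 else if z = y then w z - 1 else w z)
          (D_mem A hκ (hX x) y) (D_cycle (hX x) y hz) (wt_shift hw hxy hwy) rfl
        rw [← hN]
        have h1 : ∑ z, v z * (if z = x then w z + 1 else if z = y then w z - 1 else w z) + v y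
            = ∑ z, v z * w z + v x := by
          have h2 : ∀ z ∈ (Finset.univ : Finset σ),
              v z * (if z = x then w z + 1 else if z = y then w z - 1 else w z)
                + (if z = y then v z else 0) = v z * w z + (if z = x then v z else 0) := by
            intro z _
            by_cases h1 : z = x
            · subst h1
              rw [if_pos rfl, if_pos rfl, if_neg hxy]
              ring
            · rw [if_neg h1, if_neg h1]
              by_cases h2 : z = y
              · subst h2
                rw [if_pos rfl, if_pos rfl]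
                obtain ⟨u, hu⟩ : ∃ u, w z = u + 1 := ⟨w z - 1, by omega⟩
                rw [hu, Nat.add_sub_cancel]
                ring
              · rw [if_neg h2, if_neg h2]
          have h3 := Finset.sum_congr rfl h2
          rw [Finset.sum_add_distrib, Finset.sum_add_distrib, Finset.sum_ite_eq',
            Finset.sum_ite_eq'] at h3
          simpa using h3
        have h2 := hv hlt
        omega
      obtain ⟨n, rfl⟩ : ∃ n, m = n + d + 1 := ⟨m - d - 1, by omega⟩
      obtain ⟨u, hu, hr⟩ := capelli A Y hd hW hκ hw Z hZn hZl hp hZm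
      have h1 : κ - u ∈ W0 S A e (a + 1) (n + d + 1) q :=
        range_mem_W0 A hd (sub_mem hκ hu.1) hr
      have h2 := add_mem h1 hu
      rwa [sub_add_cancel] at h2

include A in
lemma ML_zero [CharZero k] {e : ℕ} (hd : d = e + 1) (q : ℕ) : ML S A e 0 q := by
  intro m hm κ hκ hz
  obtain ⟨n, rfl⟩ : ∃ n, m = n + d := ⟨m - d, by omega⟩
  refine range_mem_W0 A hd hκ ?_
  have h1 := poly_span A d hκ
  refine (Submodule.span_le.mpr ?_) h1
  rintro ξ ⟨μ, hμ, g, hg, rfl⟩
  have h2 := congrArg (fun f : Module.End k F => f g)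
    (S.del_Ee (isHomogeneous_monomial (1 : k) (mem_Mo.mp hμ)))
  simp only [Module.End.mul_apply, LinearMap.sub_apply] at h2
  have h3 : S.del g = 0 := by
    rw [Fk.del_eq, LinearMap.sum_apply]
    refine Finset.sum_eq_zero fun ν _ => ?_
    rw [Module.End.mul_apply, A.GJ0 hg, map_zero]
  rw [h3, map_zero, sub_zero] at h2
  exact ⟨_, h2⟩

include A Y in
lemma ML_all [CharZero k] [LinearOrder σ] (v : σ → ℕ) (hv : StrictMono v) {e : ℕ} (hd : d = e + 1)
    {p : ℕ} (hp : ∀ a, 1 ≤ a → a ≤ p → a * (p - a) ≤ (a + 1) * d) :
    ∀ a q, a + q = p + 1 → a ≤ p → ML S A e a q := by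
  intro a
  induction a with
  | zero => intro q _ _; exact ML_zero A hd q
  | succ a ih =>
    intro q hq ha m hm κ hκ hz
    have hml := ih (q + 1) (by omega) (by omega)
    have hin : (a + 1) * (q - 1) < m + d * (a + 1) := by
      have h1 := hp (a + 1) (by omega) ha
      have h2 : p - (a + 1) = q - 1 := by omega
      rw [h2] at h1
      have h3 : (a + 1 + 1) * d = d * (a + 1) + d := by ring
      omega
    have h1 := wt_span A hκ hz
    refine (Submodule.span_le.mpr ?_) h1
    rintro u ⟨⟨hu, huz⟩, w, hw⟩
    exact meas A Y v hv hd hml hm hin _ u w hu huz hw rfl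

include A Y in
/-- the abstract main theorem -/
theorem abstract_main [CharZero k] [LinearOrder σ] [Nonempty σ] (v : σ → ℕ) (hv : StrictMono v)
    {e : ℕ} (hd : d = e + 1) {p : ℕ} (hp : ∀ a, 1 ≤ a → a ≤ p → a * (p - a) ≤ (a + 1) * d)
    {m : ℕ} (hm : 2 * d ≤ m) {κ : F} (hκ : κ ∈ A.G p m) (hz : S.del κ = 0) :
    κ ∈ LinearMap.range S.del :=
  vanish_of_ML A hd (ML_all A Y v hv hd hp) hm hκ hz

end

end Pool.Agent.H27.OP
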