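import Pool.Agent.H27.OP.Ext

set_option autoImplicit false
set_option linter.unusedSectionVars false

/-!
# Ottaviani-Paoletti: commutators in the extended algebra
-/

open MvPolynomial

namespace Pool.Agent.H27.OP

variable {σ k : Type*} [Fintype σ] [Field k]

namespace Fx

variable {O : Type*} [Ring O] [Algebra k O] {d : ℕ} (S : Fx σ k O d)

/-- `Γ_z = ∑_μ [∂_z x^μ τ] J_μ` -/
noncomputable def Gz (S : Fx σ k O d) (e : ℕ) (z : σ) : O :=
  ∑ μ ∈ Mo σ d, S.Bb e (pderiv z (monomial μ 1)) * S.J μ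

lemma Tz_eq (e : ℕ) (z : σ) : S.Tz e z = S.th * S.T z + S.Gz e z := rfl

open Classical in
/-- `H_{xy} = R_x T_y + T_y R_x` -/
noncomputable def Hx (S : Fx σ k O d) (e : ℕ) (x y : σ) : O :=
  S.Dx e x y + (if x = y then S.th * S.dth else 0)

lemma Rx_Tz' {e : ℕ} (hd : d = e + 1) (x y : σ) :
    S.Rx e x * S.Tz e y + S.Tz e y * S.Rx e x = S.Hx e x y := S.Rx_Tz hd x y

/-- `∂^ext` -/
noncomputable def dx (S : Fx σ k O d) (e : ℕ) : O :=
  S.del - S.th * ∑ ν ∈ Mo σ e, S.m (monomial ν 1) * S.db ν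

lemma th_del : S.th * S.del = -(S.del * S.th) := by
  rw [Fk.del_eq, Finset.mul_sum, Finset.sum_mul, ← Finset.sum_neg_distrib]
  refine Finset.sum_congr rfl fun μ _ => ?_
  rw [← mul_assoc, S.thm, mul_assoc, S.thJ, mul_neg, mul_assoc]

lemma dth_del : S.dth * S.del = -(S.del * S.dth) := by
  rw [Fk.del_eq, Finset.mul_sum, Finset.sum_mul, ← Finset.sum_neg_distrib]
  refine Finset.sum_congr rfl fun μ _ => ?_
  rw [← mul_assoc, S.dthm, mul_assoc, S.dthJ, mul_neg, mul_assoc]

lemma db_del (ν : σ →₀ ℕ) : S.db ν * S.del = S.del * S.db ν := by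
  rw [Fk.del_eq, Finset.mul_sum, Finset.sum_mul]
  refine Finset.sum_congr rfl fun μ _ => ?_
  rw [← mul_assoc, S.dbm, mul_assoc, S.dbJ, mul_assoc]

lemma dx_Rx {e : ℕ} (hd : d = e + 1) (x : σ) : S.dx e * S.Rx e x = -(S.Rx e x * S.dx e) := by
  have h1 : S.del * (S.m (X x) * S.dth) = -(S.m (X x) * S.dth * S.del) := by
    rw [← mul_assoc, S.del_m, mul_assoc, mul_assoc, S.dth_del, mul_neg, neg_neg]
  have h2 : S.del * (∑ ν ∈ Mo σ e, S.Ee (X x * monomial ν 1) * S.db ν)
      = -((∑ ν ∈ Mo σ e, S.Ee (X x * monomial ν 1) * S.db ν) * S.del)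
        + ∑ ν ∈ Mo σ e, S.m (X x * monomial ν 1) * S.db ν := by
    rw [Finset.mul_sum, Finset.sum_mul, ← Finset.sum_neg_distrib, ← Finset.sum_add_distrib]
    refine Finset.sum_congr rfl fun ν hν => ?_
    have hh : (X x * monomial ν (1 : k)).IsHomogeneous d := by
      rw [hd, add_comm]
      exact (hom_X x).mul (isHomogeneous_monomial _ (mem_Mo.mp hν))
    rw [← mul_assoc, S.del_Ee hh, sub_mul, mul_assoc, mul_assoc, S.db_del]
    abel
  have h3 : S.th * (∑ ν ∈ Mo σ e, S.m (monomial ν 1) * S.db ν) * (S.m (X x) * S.dth)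
      = -(S.m (X x) * S.dth * (S.th * ∑ ν ∈ Mo σ e, S.m (monomial ν 1) * S.db ν))
        + ∑ ν ∈ Mo σ e, S.m (X x * monomial ν 1) * S.db ν := by
    rw [Finset.mul_sum, Finset.sum_mul, Finset.mul_sum, ← Finset.sum_neg_distrib,
      ← Finset.sum_add_distrib]
    refine Finset.sum_congr rfl fun ν hν => ?_
    have e1 : S.m (X x) * S.dth * (S.th * (S.m (monomial ν 1) * S.db ν))
        = S.m (X x * monomial ν 1) * S.db ν - S.m (X x * monomial ν 1) * S.db ν * (S.th * S.dth) := by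
      rw [mul_assoc, ← mul_assoc S.dth, S.dd, sub_mul, one_mul, mul_sub, ← mul_assoc (S.m (X x)),
        ← map_mul, mul_assoc S.th S.dth, ← mul_assoc S.dth, S.dthm, mul_assoc (S.m (monomial ν 1)),
        ← S.dbdth, ← mul_assoc S.th, S.thm, mul_assoc (S.m (monomial ν 1)), ← mul_assoc S.th,
        ← S.dbth, ← mul_assoc (S.m (X x)), ← map_mul]
      simp only [mul_assoc]
    have e2 : S.th * (S.m (monomial ν 1) * S.db ν) * (S.m (X x) * S.dth)
        = S.m (X x * monomial ν 1) * S.db ν * (S.th * S.dth) := by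
      rw [← mul_assoc, mul_assoc S.th, mul_assoc (S.m (monomial ν 1)), S.dbm, ← mul_assoc (S.m _),
        ← map_mul, ← mul_assoc, S.thm, mul_comm (monomial ν (1 : k))]
      rw [mul_assoc (S.m _), ← S.dbth]
      simp only [mul_assoc]
    rw [e1, e2]
    abel
  have h4 : S.th * (∑ ν ∈ Mo σ e, S.m (monomial ν 1) * S.db ν)
        * (∑ ν ∈ Mo σ e, S.Ee (X x * monomial ν 1) * S.db ν)
      = -((∑ ν ∈ Mo σ e, S.Ee (X x * monomial ν 1) * S.db ν)
        * (S.th * (∑ ν ∈ Mo σ e, S.m (monomial ν 1) * S.db ν))) := by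
    have e1 : ∀ a ν ν' u, S.m a * S.db ν * (S.Ee u * S.db ν')
        = S.Ee u * S.db ν' * (S.m a * S.db ν) := by
      intro a ν ν' u
      rw [mul_assoc, ← mul_assoc (S.db ν), S.db_Ee, mul_assoc (S.Ee u), S.dbdb, ← mul_assoc,
        S.mEe, mul_assoc, ← mul_assoc (S.m a), ← S.dbm, mul_assoc, mul_assoc]
    have e2 : ∀ ν u, S.th * (S.Ee u * S.db ν) = -(S.Ee u * S.db ν * S.th) := by
      intro ν u
      rw [← mul_assoc, S.Ee_comm_th, neg_mul, mul_assoc, mul_assoc, S.dbth]
    have e3 : (∑ ν ∈ Mo σ e, S.m (monomial ν 1) * S.db ν)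
        * (∑ ν ∈ Mo σ e, S.Ee (X x * monomial ν 1) * S.db ν)
      = (∑ ν ∈ Mo σ e, S.Ee (X x * monomial ν 1) * S.db ν)
        * (∑ ν ∈ Mo σ e, S.m (monomial ν 1) * S.db ν) := by
      rw [Finset.sum_mul_sum, Finset.sum_mul_sum, Finset.sum_comm]
      refine Finset.sum_congr rfl fun ν' _ => Finset.sum_congr rfl fun ν _ => ?_
      exact e1 _ _ _ _
    have e4 : S.th * (∑ ν ∈ Mo σ e, S.Ee (X x * monomial ν 1) * S.db ν)
        = -((∑ ν ∈ Mo σ e, S.Ee (X x * monomial ν 1) * S.db ν) * S.th) := by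
      rw [Finset.mul_sum, Finset.sum_mul, ← Finset.sum_neg_distrib]
      exact Finset.sum_congr rfl fun ν _ => e2 _ _
    rw [mul_assoc, e3, ← mul_assoc, e4, neg_mul, mul_assoc]
  unfold dx Rx
  rw [sub_mul, mul_add, mul_add, h1, h2, h3, h4]
  simp only [mul_sub, add_mul, mul_add, sub_mul]
  abel

lemma Bb_th (e : ℕ) (u : MvPolynomial σ k) : S.Bb e u * S.th = S.th * S.Bb e u :=
  S.Bb_comm u _ fun ν => S.bth ν

lemma Bb_dth (e : ℕ) (u : MvPolynomial σ k) : S.Bb e u * S.dth = S.dth * S.Bb e u :=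
  S.Bb_comm u _ fun ν => S.bdth ν

lemma Bb_m (e : ℕ) (u a : MvPolynomial σ k) : S.Bb e u * S.m a = S.m a * S.Bb e u :=
  S.Bb_comm u _ fun ν => S.bm ν a

lemma Bb_T (e : ℕ) (u : MvPolynomial σ k) (x : σ) : S.Bb e u * S.T x = S.T x * S.Bb e u :=
  S.Bb_comm u _ fun ν => S.bT ν x

lemma Bb_J (e : ℕ) (u : MvPolynomial σ k) (ν : σ →₀ ℕ) : S.Bb e u * S.J ν = S.J ν * S.Bb e u :=
  S.Bb_comm u _ fun μ => S.bJ μ ν

lemma D_th (c : MvPolynomial σ k) (y : σ) : S.D c y * S.th = S.th * S.D c y := by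
  unfold Fk.D
  rw [add_mul, mul_add, Finset.sum_mul, Finset.mul_sum]
  congr 1
  · rw [mul_assoc, ← S.thT, ← mul_assoc, ← S.thm, mul_assoc]
  · refine Finset.sum_congr rfl fun μ _ => ?_
    rw [mul_assoc, show S.J μ * S.th = -(S.th * S.J μ) by rw [S.thJ, neg_neg], mul_neg,
      ← mul_assoc, show S.Ee (c * pderiv y (monomial μ 1)) * S.th
        = -(S.th * S.Ee (c * pderiv y (monomial μ 1))) by rw [S.Ee_comm_th, neg_neg], neg_mul,
      neg_neg, mul_assoc]

lemma D_Bb (c : MvPolynomial σ k) (y : σ) (e : ℕ) (u : MvPolynomial σ k) :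
    S.D c y * S.Bb e u = S.Bb e u * S.D c y := by
  unfold Fk.D
  rw [add_mul, mul_add, Finset.sum_mul, Finset.mul_sum]
  congr 1
  · rw [mul_assoc, ← S.Bb_T, ← mul_assoc, ← S.Bb_m, mul_assoc]
  · refine Finset.sum_congr rfl fun μ _ => ?_
    rw [mul_assoc, ← S.Bb_J, ← mul_assoc, ← S.Bb_Ee, mul_assoc]

open Classical in
lemma Hx_Tz {e : ℕ} (hd : d = e + 1) (x y z : σ) :
    S.Hx e x y * S.Tz e z = S.Tz e z * S.Hx e x y
      + (if x = y then S.Tz e z else 0) - (if x = z then S.Tz e y else 0) := by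
  have hX : (X x : MvPolynomial σ k).IsHomogeneous 1 := isHomogeneous_X _ _
  -- D and th T
  have a1 : S.D (X x) y * (S.th * S.T z) = S.th * S.T z * S.D (X x) y
      - (if x = z then S.th * S.T y else 0) := by
    rw [← mul_assoc, S.D_th, mul_assoc, S.D_T, mul_sub, ← mul_assoc, pderiv_X]
    congr 1
    by_cases h : x = z
    · subst h; simp
    · rw [if_neg h, Pi.single_eq_of_ne h]; simp
  -- D and Gz
  have a2 : S.D (X x) y * S.Gz e z = S.Gz e z * S.D (X x) y
      - ∑ μ ∈ Mo σ d, S.Bb e (pderiv z (X x * pderiv y (monomial μ 1))) * S.J μ := by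
    have h1 := S.sum_D_J hX y ((S.Bb e).comp (pderiv z).toLinearMap)
    simp only [LinearMap.comp_apply, Derivation.coeFn_coe] at h1
    unfold Gz
    rw [Finset.mul_sum, Finset.sum_mul]
    have h2 : ∀ μ ∈ Mo σ d, S.D (X x) y * (S.Bb e (pderiv z (monomial μ 1)) * S.J μ)
        = S.Bb e (pderiv z (monomial μ 1)) * (S.D (X x) y * S.J μ) := by
      intro μ _
      rw [← mul_assoc, S.D_Bb, mul_assoc]
    rw [Finset.sum_congr rfl h2, h1]
    simp only [mul_assoc]
  -- the b-part and th T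
  have a3 : (∑ ν ∈ Mo σ e, S.Bb e (pderiv y (X x * monomial ν 1)) * S.db ν) * (S.th * S.T z)
      = S.th * S.T z * (∑ ν ∈ Mo σ e, S.Bb e (pderiv y (X x * monomial ν 1)) * S.db ν) := by
    rw [Finset.sum_mul, Finset.mul_sum]
    refine Finset.sum_congr rfl fun ν _ => ?_
    rw [mul_assoc, ← mul_assoc (S.db ν), S.dbth, mul_assoc S.th, S.dbT, ← mul_assoc,
      S.Bb_th, mul_assoc S.th, ← mul_assoc (S.Bb e _), S.Bb_T, mul_assoc, mul_assoc]
  -- the b-part and Gz
  have a4 : (∑ ν ∈ Mo σ e, S.Bb e (pderiv y (X x * monomial ν 1)) * S.db ν) * S.Gz e z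
      = S.Gz e z * (∑ ν ∈ Mo σ e, S.Bb e (pderiv y (X x * monomial ν 1)) * S.db ν)
        + ∑ μ ∈ Mo σ d, S.Bb e (pderiv y (X x * pderiv z (monomial μ 1))) * S.J μ := by
    have h1 : ∀ ν ∈ Mo σ e, ∀ μ ∈ Mo σ d, S.Bb e (pderiv y (X x * monomial ν 1)) * S.db ν
          * (S.Bb e (pderiv z (monomial μ 1)) * S.J μ)
        = S.Bb e (pderiv z (monomial μ 1)) * S.J μ
          * (S.Bb e (pderiv y (X x * monomial ν 1)) * S.db ν)
          + coeff ν (pderiv z (monomial μ (1 : k))) •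
            (((S.Bb e).comp ((pderiv y).toLinearMap.comp (LinearMap.mulLeft k (X x))))
              (monomial ν 1) * S.J μ) := by
      intro ν hν μ hμ
      simp only [LinearMap.comp_apply, Derivation.coeFn_coe, LinearMap.mulLeft_apply]
      rw [mul_assoc, ← mul_assoc (S.db ν), S.db_Bb hν, add_mul, mul_add, smul_mul_assoc, one_mul,
        mul_smul_comm, mul_assoc _ (S.db ν), S.dbJ, ← mul_assoc, S.Bb_Bb, mul_assoc, mul_assoc,
        ← mul_assoc (S.Bb e (pderiv y _)), S.Bb_J, mul_assoc]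
    unfold Gz
    rw [Finset.sum_mul_sum, Finset.sum_congr rfl fun ν hν => Finset.sum_congr rfl (h1 ν hν)]
    simp only [Finset.sum_add_distrib]
    congr 1
    · rw [Finset.sum_comm, Finset.sum_mul_sum]
    · rw [Finset.sum_comm]
      refine Finset.sum_congr rfl fun μ hμ => ?_
      have hh : (pderiv z (monomial μ (1 : k))).IsHomogeneous e := by
        have := (isHomogeneous_monomial (1 : k) (mem_Mo.mp hμ)).pderiv (i := z)
        rwa [hd, Nat.add_sub_cancel] at this
      have := sum_coeff ((S.Bb e).comp ((pderiv y).toLinearMap.comp (LinearMap.mulLeft k (X x)))) hh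
      simp only [← smul_mul_assoc]
      rw [← Finset.sum_mul, this]
      simp only [LinearMap.comp_apply, Derivation.coeFn_coe, LinearMap.mulLeft_apply]
  -- th dth and th T
  have a5 : S.th * S.dth * (S.th * S.T z) = S.th * S.T z * (S.th * S.dth) + S.th * S.T z := by
    have e1 : S.th * S.dth * (S.th * S.T z) = S.th * S.T z := by
      rw [mul_assoc, ← mul_assoc S.dth, S.dd, sub_mul, one_mul, mul_sub, ← mul_assoc S.th (_ * _),
        ← mul_assoc S.th S.th, S.thth]
      simp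
    have e2 : S.th * S.T z * (S.th * S.dth) = 0 := by
      rw [mul_assoc, ← mul_assoc (S.T z), ← S.thT, mul_assoc, ← mul_assoc S.th S.th, S.thth,
        zero_mul]
    rw [e1, e2, zero_add]
  have a6 : S.th * S.dth * S.Gz e z = S.Gz e z * (S.th * S.dth) := by
    unfold Gz
    rw [Finset.mul_sum, Finset.sum_mul]
    refine Finset.sum_congr rfl fun μ _ => ?_
    rw [mul_assoc, ← mul_assoc S.dth, ← S.Bb_dth, mul_assoc, S.dthJ, ← mul_assoc, ← S.Bb_th,
      mul_assoc, mul_neg, ← mul_assoc S.th, S.thJ, neg_mul, neg_neg]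
    simp only [mul_assoc]
  -- the sum of the Gz-type terms
  have a7 : ∀ μ : σ →₀ ℕ, S.Bb e (pderiv y (X x * pderiv z (monomial μ 1))) * S.J μ
      - S.Bb e (pderiv z (X x * pderiv y (monomial μ 1))) * S.J μ
      = (if x = y then S.Bb e (pderiv z (monomial μ 1)) * S.J μ else 0)
        - (if x = z then S.Bb e (pderiv y (monomial μ 1)) * S.J μ else 0) := by
    intro μ
    rw [← sub_mul, ← map_sub]
    have h1 : pderiv y (X x * pderiv z (monomial μ (1 : k)))
        - pderiv z (X x * pderiv y (monomial μ 1))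
        = (if x = y then pderiv z (monomial μ 1) else 0)
          - (if x = z then pderiv y (monomial μ 1) else 0) := by
      rw [Derivation.leibniz, Derivation.leibniz, pderiv_pderiv_comm' y z, pderiv_X, pderiv_X]
      simp only [smul_eq_mul]
      by_cases h : x = y
      · subst h
        by_cases h' : x = z
        · subst h'; simp
        · rw [if_neg h', Pi.single_eq_of_ne h']; simp
      · by_cases h' : x = z
        · subst h'
          rw [if_neg h, Pi.single_eq_of_ne h]; simp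
        · rw [if_neg h', if_neg h, Pi.single_eq_of_ne h, Pi.single_eq_of_ne h']; simp
    rw [h1, map_sub, sub_mul]
    congr 1
    · split_ifs <;> simp
    · split_ifs <;> simp
  have a8 : ∑ μ ∈ Mo σ d, S.Bb e (pderiv y (X x * pderiv z (monomial μ 1))) * S.J μ
      = ∑ μ ∈ Mo σ d, S.Bb e (pderiv z (X x * pderiv y (monomial μ 1))) * S.J μ
      + (if x = y then S.Gz e z else 0) - (if x = z then S.Gz e y else 0) := by
    have h1 := Finset.sum_congr rfl (s₁ := Mo σ d) fun μ _ => a7 μ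
    rw [Finset.sum_sub_distrib, Finset.sum_sub_distrib] at h1
    have h2 : ∑ μ ∈ Mo σ d, (if x = y then S.Bb e (pderiv z (monomial μ 1)) * S.J μ else 0)
        = (if x = y then S.Gz e z else 0) := by
      split_ifs
      · rfl
      · simp
    have h3 : ∑ μ ∈ Mo σ d, (if x = z then S.Bb e (pderiv y (monomial μ 1)) * S.J μ else 0)
        = (if x = z then S.Gz e y else 0) := by
      split_ifs
      · rfl
      · simp
    rw [h2, h3] at h1
    rw [add_sub_assoc, ← h1]
    abel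
  have a9 : (if x = y then S.th * S.dth else 0) * (S.th * S.T z)
      = S.th * S.T z * (if x = y then S.th * S.dth else 0)
        + (if x = y then S.th * S.T z else 0) := by
    split_ifs
    · exact a5
    · simp
  have a10 : (if x = y then S.th * S.dth else 0) * S.Gz e z
      = S.Gz e z * (if x = y then S.th * S.dth else 0) := by
    split_ifs
    · exact a6
    · simp
  have a11 : (if x = y then S.Tz e z else 0) = (if x = y then S.th * S.T z else 0)
      + (if x = y then S.Gz e z else 0) := by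
    split_ifs
    · exact S.Tz_eq e z
    · simp
  have a12 : (if x = z then S.Tz e y else 0) = (if x = z then S.th * S.T y else 0)
      + (if x = z then S.Gz e y else 0) := by
    split_ifs
    · exact S.Tz_eq e y
    · simp
  unfold Hx Dx
  rw [a11, a12, S.Tz_eq]
  simp only [add_mul, mul_add]
  rw [a1, a2, a3, a4, a8, a9, a10]
  abel

end Fx

end Pool.Agent.H27.OP
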