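import Pool.Agent.H27.OP.Lists
import Pool.Agent.H27.OP.Ext2

set_option autoImplicit false
set_option linter.unusedSectionVars false

/-!
# Ottaviani-Paoletti: the abstract graded setting
-/

open MvPolynomial

namespace Pool.Agent.H27.OP

variable {σ k : Type*} [Fintype σ] [Field k]

section

variable {F : Type*} [AddCommGroup F] [Module k F] {d : ℕ}

/-- gradings, Euler formulas and the specialisation `x = 0` on the module `F`. -/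
structure Gr (S : Fk σ k (Module.End k F) d) where
  G : ℕ → ℕ → Submodule k F
  GJ : ∀ {p m : ℕ} {μ : σ →₀ ℕ} {ω : F}, ω ∈ G (p + 1) m → S.J μ ω ∈ G p m
  GJ0 : ∀ {m : ℕ} {μ : σ →₀ ℕ} {ω : F}, ω ∈ G 0 m → S.J μ ω = 0
  GE : ∀ {p m : ℕ} {μ : σ →₀ ℕ} {ω : F}, ω ∈ G p m → S.E μ ω ∈ G (p + 1) m
  GT : ∀ {p m : ℕ} {x : σ} {ω : F}, ω ∈ G p (m + 1) → S.T x ω ∈ G p m
  GT0 : ∀ {p : ℕ} {x : σ} {ω : F}, ω ∈ G p 0 → S.T x ω = 0
  Gm : ∀ {p m j : ℕ} {a : MvPolynomial σ k} {ω : F}, a.IsHomogeneous j → ω ∈ G p m →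
    S.m a ω ∈ G p (m + j)
  num : ∀ {p m : ℕ} {ω : F}, ω ∈ G p m → ∑ μ ∈ Mo σ d, S.E μ (S.J μ ω) = (p : k) • ω
  eul : ∀ {p m : ℕ} {ω : F}, ω ∈ G p m → ∑ x, S.m (X x) (S.T x ω) = (m : k) • ω
  rho : σ → Module.End k F
  dv : σ → Module.End k F
  rho_dv : ∀ (x : σ) (ω : F), ω = rho x ω + S.m (X x) (dv x ω)
  rho_X : ∀ (x : σ) (ω : F), rho x (S.m (X x) ω) = 0
  rho_mon : ∀ (x : σ) (μ : σ →₀ ℕ) (ω : F), μ x = 0 →
    rho x (S.m (monomial μ 1) ω) = S.m (monomial μ 1) (rho x ω)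
  rho_J : ∀ (x : σ) (μ : σ →₀ ℕ) (ω : F), rho x (S.J μ ω) = S.J μ (rho x ω)
  Grho : ∀ {p m : ℕ} {x : σ} {ω : F}, ω ∈ G p m → rho x ω ∈ G p m
  inj : ∀ (x : σ) (ω : F), S.m (X x) ω = 0 → ω = 0
  lift : ∀ {p m : ℕ} {ω : F}, S.del ω ∈ G p (m + d) →
    ∃ ω' ∈ G (p + 1) m, S.del ω' = S.del ω

/-- the extension by one odd letter -/
structure Xt (S : Fk σ k (Module.End k F) d) (XF : Type*) [AddCommGroup XF] [Module k XF] where
  S' : Fx σ k (Module.End k XF) d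
  j : F →ₗ[k] XF
  pr : XF →ₗ[k] F
  pr_j : ∀ ω, pr (j ω) = ω
  j_m : ∀ a ω, S'.m a (j ω) = j (S.m a ω)
  j_E : ∀ μ ω, S'.E μ (j ω) = j (S.E μ ω)
  j_J : ∀ μ ω, S'.J μ (j ω) = j (S.J μ ω)
  j_T : ∀ x ω, S'.T x (j ω) = j (S.T x ω)
  j_dth : ∀ ω, S'.dth (j ω) = 0
  j_db : ∀ ν ω, S'.db ν (j ω) = 0
  pr_m : ∀ a ξ, pr (S'.m a ξ) = S.m a (pr ξ)
  pr_J : ∀ μ ξ, pr (S'.J μ ξ) = S.J μ (pr ξ)
  pr_th : ∀ ξ, pr (S'.th ξ) = 0

/-- cycles `κ` of bidegree `(a, m)` such that `C_c(F) κ` is a boundary for all `c` and all `F` of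
length `q` -/
def W0 (S : Fk σ k (Module.End k F) d) (A : Gr S) (e a m q : ℕ) : Submodule k F where
  carrier := {κ | κ ∈ A.G a m ∧ S.del κ = 0 ∧
    ∀ (c : MvPolynomial σ k) (L : List (MvPolynomial σ k)), c.IsHomogeneous 1 → Fk.HomL e L →
      L.length = q → S.Cc c L κ ∈ LinearMap.range S.del}
  add_mem' := by
    rintro x y ⟨h1, h2, h3⟩ ⟨g1, g2, g3⟩
    refine ⟨add_mem h1 g1, by rw [map_add, h2, g2, add_zero], fun c L hc hL hq => ?_⟩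
    rw [map_add]
    exact add_mem (h3 c L hc hL hq) (g3 c L hc hL hq)
  zero_mem' := by
    refine ⟨zero_mem _, map_zero _, fun c L hc hL hq => ?_⟩
    rw [map_zero]
    exact zero_mem _
  smul_mem' := by
    rintro t x ⟨h1, h2, h3⟩
    refine ⟨Submodule.smul_mem _ _ h1, by rw [map_smul, h2, smul_zero], fun c L hc hL hq => ?_⟩
    rw [map_smul]
    exact Submodule.smul_mem _ _ (h3 c L hc hL hq)

/-- `ML` at level `a`: for all cycles `κ` of bidegree `(a, m)`, `m ≥ d + 1`, and all `F` of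
length `q`, `C_c(F) κ` is a boundary. -/
def ML (S : Fk σ k (Module.End k F) d) (A : Gr S) (e a q : ℕ) : Prop :=
  ∀ m : ℕ, d + 1 ≤ m → ∀ κ ∈ A.G a m, S.del κ = 0 → κ ∈ W0 S A e a m q

/-! ## weights -/

/-- weight vectors -/
def IsWt (S : Fk σ k (Module.End k F) d) (w : σ → ℕ) (κ : F) : Prop :=
  ∀ x, S.D (X x) x κ = (w x : k) • κ

end

end Pool.Agent.H27.OP
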