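import Pool.Agent.H27.OP.Level

set_option autoImplicit false
set_option linter.unusedSectionVars false

/-!
# Ottaviani-Paoletti: the Capelli type lemma
-/

open MvPolynomial

namespace Pool.Agent.H27.OP

variable {σ k : Type*} [Fintype σ] [Field k]

namespace Fx

section ring

variable {O : Type*} [Ring O] [Algebra k O] {d : ℕ} (S : Fx σ k O d)

noncomputable def Tl (S : Fx σ k O d) (e : ℕ) : List σ → O
  | [] => 1
  | y :: Y => S.Tz e y * Tl S e Y

noncomputable def Rl (S : Fx σ k O d) (e : ℕ) : List σ → O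
  | [] => 1
  | y :: Y => Rl S e Y * S.Rx e y

noncomputable def Gl (S : Fx σ k O d) (e : ℕ) : List σ → O
  | [] => 1
  | y :: Y => S.Gz e y * Gl S e Y

lemma J_Gz (e : ℕ) (z : σ) (μ : σ →₀ ℕ) : S.J μ * S.Gz e z = -(S.Gz e z * S.J μ) := by
  unfold Gz
  rw [Finset.mul_sum, Finset.sum_mul, ← Finset.sum_neg_distrib]
  refine Finset.sum_congr rfl fun ν _ => ?_
  rw [← mul_assoc, ← S.Bb_J, mul_assoc, S.JJ, mul_neg, mul_assoc]

lemma J_GG (e : ℕ) (Y : List σ) (μ : σ →₀ ℕ) :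
    S.J μ * S.Gl e Y = Fk.sg k Y.length • (S.Gl e Y * S.J μ) := by
  induction Y with
  | nil => simp [Gl, Fk.sg]
  | cons y Y ih =>
    rw [Gl, ← mul_assoc, S.J_Gz, neg_mul, mul_assoc, ih, List.length_cons, Fk.sg_succ, neg_smul,
      mul_smul_comm, mul_assoc]

lemma T_GG (e : ℕ) (Y : List σ) (x : σ) : S.T x * S.Gl e Y = S.Gl e Y * S.T x := by
  induction Y with
  | nil => simp [Gl]
  | cons y Y ih =>
    have h : S.T x * S.Gz e y = S.Gz e y * S.T x := by
      unfold Gz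
      rw [Finset.mul_sum, Finset.sum_mul]
      refine Finset.sum_congr rfl fun ν _ => ?_
      rw [← mul_assoc, ← S.Bb_T, mul_assoc, S.TJ, mul_assoc]
    rw [Gl, ← mul_assoc, h, mul_assoc, ih, mul_assoc]

lemma m_GG (e : ℕ) (Y : List σ) (a : MvPolynomial σ k) : S.m a * S.Gl e Y = S.Gl e Y * S.m a := by
  induction Y with
  | nil => simp [Gl]
  | cons y Y ih =>
    have h : S.m a * S.Gz e y = S.Gz e y * S.m a := by
      unfold Gz
      rw [Finset.mul_sum, Finset.sum_mul]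
      refine Finset.sum_congr rfl fun ν _ => ?_
      rw [← mul_assoc, ← S.Bb_m, mul_assoc, S.mJ, mul_assoc]
    rw [Gl, ← mul_assoc, h, mul_assoc, ih, mul_assoc]

lemma th_Gz (e : ℕ) (z : σ) : S.th * S.Gz e z = -(S.Gz e z * S.th) := by
  unfold Gz
  rw [Finset.mul_sum, Finset.sum_mul, ← Finset.sum_neg_distrib]
  refine Finset.sum_congr rfl fun ν _ => ?_
  rw [← mul_assoc, ← S.Bb_th, mul_assoc, S.thJ, mul_neg, mul_assoc]

lemma RR_dx {e : ℕ} (hd : d = e + 1) (Y : List σ) :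
    S.Rl e Y * S.dx e = Fk.sg k Y.length • (S.dx e * S.Rl e Y) := by
  induction Y with
  | nil => simp [Rl, Fk.sg]
  | cons y Y ih =>
    rw [Rl, mul_assoc, show S.Rx e y * S.dx e = -(S.dx e * S.Rx e y) by
      rw [S.dx_Rx hd, neg_neg], mul_neg, ← mul_assoc, ih, List.length_cons, Fk.sg_succ, neg_smul,
      smul_mul_assoc, mul_assoc]

lemma Hx_TT_ne {e : ℕ} (hd : d = e + 1) (x y : σ) (hxy : x ≠ y) (Z : List σ) (hZ : x ∉ Z) :
    S.Hx e x y * S.Tl e Z = S.Tl e Z * S.Hx e x y := by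
  induction Z with
  | nil => simp [Tl]
  | cons z Z ih =>
    rw [List.mem_cons, not_or] at hZ
    rw [Tl, ← mul_assoc, S.Hx_Tz hd, if_neg hxy, if_neg hZ.1, add_zero, sub_zero, mul_assoc,
      ih hZ.2, mul_assoc]

lemma Hx_TT_self {e : ℕ} (hd : d = e + 1) (x : σ) (Z : List σ) (hZ : x ∉ Z) :
    S.Hx e x x * S.Tl e Z = S.Tl e Z * S.Hx e x x + (Z.length : k) • S.Tl e Z := by
  induction Z with
  | nil => simp [Tl]
  | cons z Z ih =>
    rw [List.mem_cons, not_or] at hZ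
    rw [Tl, ← mul_assoc, S.Hx_Tz hd, if_pos rfl, if_neg hZ.1, sub_zero, add_mul, mul_assoc,
      ih hZ.2, mul_add, mul_assoc, List.length_cons, Nat.cast_succ, add_smul, one_smul,
      mul_smul_comm]
    abel

end ring

end Fx

section

variable {F : Type*} [AddCommGroup F] [Module k F] {d : ℕ}
variable {S : Fk σ k (Module.End k F) d} (A : Gr S)
variable {XF : Type*} [AddCommGroup XF] [Module k XF] (Y : Xt S XF)

include A in
/-- every element of degree `n + j` is a combination of monomials of degree `j` times elements of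
degree `n`. -/
lemma poly_span [CharZero k] {p n : ℕ} (j : ℕ) {η : F} (h : η ∈ A.G p (n + j)) :
    η ∈ Submodule.span k {ξ | ∃ μ ∈ Mo σ j, ∃ g ∈ A.G p n, ξ = S.m (monomial μ 1) g} := by
  classical
  induction j generalizing η with
  | zero =>
    refine Submodule.subset_span ⟨0, by rw [mem_Mo]; simp, η, h, ?_⟩
    rw [show (monomial (0 : σ →₀ ℕ)) (1 : k) = 1 from rfl, map_one, Module.End.one_apply]
  | succ j ih =>
    have h1 := A.eul h
    have h2 : ((n + (j + 1) : ℕ) : k) ≠ 0 := Nat.cast_ne_zero.mpr (by omega)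
    have h3 : η = ((n + (j + 1) : ℕ) : k)⁻¹ • ∑ x, S.m (X x) (S.T x η) := by
      rw [h1, smul_smul, inv_mul_cancel₀ h2, one_smul]
    rw [h3]
    refine Submodule.smul_mem _ _ (Submodule.sum_mem _ fun x _ => ?_)
    have h4 := ih (A.GT (x := x) (show η ∈ A.G p (n + j + 1) from h))
    have h5 : Submodule.span k {ξ | ∃ μ ∈ Mo σ j, ∃ g ∈ A.G p n, ξ = S.m (monomial μ 1) g}
        ≤ (Submodule.span k {ξ | ∃ μ ∈ Mo σ (j + 1), ∃ g ∈ A.G p n,
          ξ = S.m (monomial μ 1) g}).comap (S.m (X x)) := by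
      rw [Submodule.span_le]
      rintro ξ ⟨μ, hμ, g, hg, rfl⟩
      refine Submodule.subset_span ⟨μ + Finsupp.single x 1, ?_, g, hg, ?_⟩
      · rw [mem_Mo] at hμ ⊢
        rw [map_add, Finsupp.degree_single, hμ]
      · rw [← Module.End.mul_apply, ← map_mul, X, monomial_mul, one_mul, add_comm]
    exact h5 h4

include A in
lemma GG_zero (e : ℕ) (Z : List σ) : ∀ (p m : ℕ) (η : F), η ∈ A.G p m → p < Z.length →
    Y.S'.Gl e Z (Y.j η) = 0 := by
  induction Z with
  | nil => intro p m η _ h; simp at h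
  | cons z Z ih =>
    intro p m η hη hp
    rw [Fx.Gl, Module.End.mul_apply]
    unfold Fx.Gz
    rw [LinearMap.sum_apply]
    refine Finset.sum_eq_zero fun μ _ => ?_
    rw [Module.End.mul_apply]
    have h1 := congrArg (fun f : Module.End k XF => f (Y.j η)) (Y.S'.J_GG e Z μ)
    simp only [Module.End.mul_apply, LinearMap.smul_apply] at h1
    rw [h1, Y.j_J]
    rcases p with _ | p
    · rw [A.GJ0 hη]; simp
    · rw [ih p m _ (A.GJ hη) (by rw [List.length_cons] at hp; omega)]; simp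

include A in
/-- the top component is a boundary of the extended differential -/
lemma full_range [CharZero k] {e : ℕ} {a n : ℕ} (Z : List σ) (hZ : Z.length = a) {η : F}
    (h : η ∈ A.G a (n + d)) :
    Y.S'.th (Y.S'.Gl e Z (Y.j η)) ∈ LinearMap.range (Y.S'.dx e) := by
  have h1 := poly_span A d h
  have h2 : Submodule.span k {ξ | ∃ μ ∈ Mo σ d, ∃ g ∈ A.G a n, ξ = S.m (monomial μ 1) g}
      ≤ (LinearMap.range (Y.S'.dx e)).comap ((Y.S'.th * Y.S'.Gl e Z) ∘ₗ Y.j) := by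
    rw [Submodule.span_le]
    rintro ξ ⟨μ, hμ, g, hg, rfl⟩
    show (Y.S'.th * Y.S'.Gl e Z) (Y.j (S.m (monomial μ 1) g)) ∈ LinearMap.range (Y.S'.dx e)
    rw [Module.End.mul_apply, ← Y.j_m]
    have e1 : ∀ ν, Y.S'.J ν (Y.S'.Gl e Z (Y.j g)) = 0 := by
      intro ν
      have h1 := congrArg (fun f : Module.End k XF => f (Y.j g)) (Y.S'.J_GG e Z ν)
      simp only [Module.End.mul_apply, LinearMap.smul_apply] at h1
      rw [h1, Y.j_J]
      rcases a with _ | a
      · rw [A.GJ0 hg]; simp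
      · rw [GG_zero A Y e Z a n _ (A.GJ hg) (by omega)]; simp
    have e2 : Y.S'.del (Y.S'.th (Y.S'.Gl e Z (Y.j g))) = 0 := by
      have h1 := congrArg (fun f : Module.End k XF => f (Y.S'.Gl e Z (Y.j g))) Y.S'.th_del
      simp only [Module.End.mul_apply, LinearMap.neg_apply] at h1
      have h2 : Y.S'.del (Y.S'.Gl e Z (Y.j g)) = 0 := by
        rw [Fk.del_eq, LinearMap.sum_apply]
        refine Finset.sum_eq_zero fun ν _ => ?_
        rw [Module.End.mul_apply, e1, map_zero]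
      rw [h2, map_zero] at h1
      exact neg_eq_zero.mp h1.symm
    refine ⟨Y.S'.E μ (Y.S'.th (Y.S'.Gl e Z (Y.j g))), ?_⟩
    have e3 : Y.S'.del (Y.S'.E μ (Y.S'.th (Y.S'.Gl e Z (Y.j g))))
        = Y.S'.m (monomial μ 1) (Y.S'.th (Y.S'.Gl e Z (Y.j g))) := by
      have h3 := congrArg (fun f : Module.End k XF => f (Y.S'.th (Y.S'.Gl e Z (Y.j g))))
        (Y.S'.del_Ee (isHomogeneous_monomial (1 : k) (mem_Mo.mp hμ)))
      simp only [Module.End.mul_apply, LinearMap.sub_apply, e2, map_zero, sub_zero,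
        Y.S'.Ee_monomial hμ] at h3
      exact h3
    have e4 : Y.S'.th * (∑ ν ∈ Mo σ e, Y.S'.m (monomial ν 1) * Y.S'.db ν) * Y.S'.E μ * Y.S'.th
        = 0 := by
      have h4 : (∑ ν ∈ Mo σ e, Y.S'.m (monomial ν 1) * Y.S'.db ν) * Y.S'.E μ * Y.S'.th
          = -(Y.S'.th * ((∑ ν ∈ Mo σ e, Y.S'.m (monomial ν 1) * Y.S'.db ν) * Y.S'.E μ)) := by
        rw [Finset.sum_mul, Finset.sum_mul, Finset.mul_sum, ← Finset.sum_neg_distrib]
        refine Finset.sum_congr rfl fun ν _ => ?_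
        rw [mul_assoc (Y.S'.m (monomial ν 1) * Y.S'.db ν),
          show Y.S'.E μ * Y.S'.th = -(Y.S'.th * Y.S'.E μ) by rw [Y.S'.thE, neg_neg], mul_neg,
          ← mul_assoc, mul_assoc (Y.S'.m (monomial ν 1)), Y.S'.dbth,
          ← mul_assoc (Y.S'.m (monomial ν 1)), ← Y.S'.thm]
        simp only [mul_assoc]
      rw [mul_assoc, mul_assoc, ← mul_assoc (∑ ν ∈ Mo σ e, _), h4, mul_neg, ← mul_assoc,
        Y.S'.thth, zero_mul, neg_zero]
    have e5 := congrArg (fun f : Module.End k XF => f (Y.S'.Gl e Z (Y.j g))) e4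
    simp only [Module.End.mul_apply, LinearMap.zero_apply] at e5
    unfold Fx.dx
    rw [LinearMap.sub_apply, Module.End.mul_apply, e5, sub_zero, e3]
    have e6 := congrArg (fun f : Module.End k XF => f (Y.S'.Gl e Z (Y.j g)))
      (Y.S'.thm (monomial μ 1))
    have e7 := congrArg (fun f : Module.End k XF => f (Y.j g)) (Y.S'.m_GG e Z (monomial μ 1))
    simp only [Module.End.mul_apply] at e6 e7
    rw [← e6, e7]
  have h3 := h2 h1
  rw [Submodule.mem_comap] at h3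
  simpa using h3

include A in
/-- claim: `T_1 ⋯ T_{a+1} j κ` is a boundary of the extended differential -/
lemma TT_range [CharZero k] {e : ℕ} {a n : ℕ} {κ : F} (h : κ ∈ A.G a (n + d + 1)) (Z : List σ)
    (hZ : Z.length = a + 1) :
    Y.S'.Tl e Z (Y.j κ) ∈ LinearMap.range (Y.S'.dx e) := by
  have key : ∀ Z : List σ, Y.S'.Tl e Z (Y.j κ) ∈
      Submodule.span k {ξ | ∃ Z' : List σ, Z'.length = Z.length ∧ ∃ η ∈ A.G a (n + d + 1),
        ξ = Y.S'.Gl e Z' (Y.j η)} ⊔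
      Submodule.span k {ξ | ∃ Z' : List σ, Z'.length + 1 = Z.length ∧ ∃ η ∈ A.G a (n + d),
        ξ = Y.S'.th (Y.S'.Gl e Z' (Y.j η))} := by
    intro Z
    induction Z with
    | nil =>
      refine Submodule.mem_sup_left (Submodule.subset_span ⟨[], rfl, κ, h, ?_⟩)
      simp [Fx.Tl, Fx.Gl]
    | cons z Z ih =>
      rw [Fx.Tl, Module.End.mul_apply]
      have h1 : (Submodule.span k {ξ | ∃ Z' : List σ, Z'.length = Z.length ∧
            ∃ η ∈ A.G a (n + d + 1), ξ = Y.S'.Gl e Z' (Y.j η)} ⊔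
          Submodule.span k {ξ | ∃ Z' : List σ, Z'.length + 1 = Z.length ∧ ∃ η ∈ A.G a (n + d),
            ξ = Y.S'.th (Y.S'.Gl e Z' (Y.j η))}) ≤
          (Submodule.span k {ξ | ∃ Z' : List σ, Z'.length = (z :: Z).length ∧
            ∃ η ∈ A.G a (n + d + 1), ξ = Y.S'.Gl e Z' (Y.j η)} ⊔
          Submodule.span k {ξ | ∃ Z' : List σ, Z'.length + 1 = (z :: Z).length ∧
            ∃ η ∈ A.G a (n + d), ξ = Y.S'.th (Y.S'.Gl e Z' (Y.j η))}).comap (Y.S'.Tz e z) := by
        rw [sup_le_iff, Submodule.span_le, Submodule.span_le]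
        constructor
        · rintro ξ ⟨Z', hZ', η, hη, rfl⟩
          rw [SetLike.mem_coe, Submodule.mem_comap, Y.S'.Tz_eq, LinearMap.add_apply]
          refine add_mem (Submodule.mem_sup_right (Submodule.subset_span
            ⟨Z', by simp [hZ'], S.T z η, A.GT hη, ?_⟩)) (Submodule.mem_sup_left
              (Submodule.subset_span ⟨z :: Z', by simp [hZ'], η, hη, ?_⟩))
          · rw [Module.End.mul_apply, ← Y.j_T]
            have := congrArg (fun f : Module.End k XF => f (Y.j η)) (Y.S'.T_GG e Z' z)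
            simp only [Module.End.mul_apply] at this
            rw [this]
          · rw [Fx.Gl, Module.End.mul_apply]
        · rintro ξ ⟨Z', hZ', η, hη, rfl⟩
          rw [SetLike.mem_coe, Submodule.mem_comap, Y.S'.Tz_eq, LinearMap.add_apply]
          have e1 : (Y.S'.th * Y.S'.T z) (Y.S'.th (Y.S'.Gl e Z' (Y.j η))) = 0 := by
            have := congrArg (fun f : Module.End k XF => f (Y.S'.Gl e Z' (Y.j η)))
              (show Y.S'.th * Y.S'.T z * Y.S'.th = 0 by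
                rw [mul_assoc, ← Y.S'.thT, ← mul_assoc, Y.S'.thth, zero_mul])
            simpa only [Module.End.mul_apply, LinearMap.zero_apply] using this
          have e2 : Y.S'.Gz e z (Y.S'.th (Y.S'.Gl e Z' (Y.j η)))
              = -(Y.S'.th (Y.S'.Gl e (z :: Z') (Y.j η))) := by
            have := congrArg (fun f : Module.End k XF => f (Y.S'.Gl e Z' (Y.j η)))
              (Y.S'.th_Gz e z)
            simp only [Module.End.mul_apply, LinearMap.neg_apply] at this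
            rw [Fx.Gl, Module.End.mul_apply, this, neg_neg]
          rw [e1, zero_add, e2]
          refine neg_mem (Submodule.mem_sup_right (Submodule.subset_span
            ⟨z :: Z', by simp [← hZ'], η, hη, rfl⟩))
      exact h1 ih
  have h1 := key Z
  have h2 : (Submodule.span k {ξ | ∃ Z' : List σ, Z'.length = Z.length ∧
            ∃ η ∈ A.G a (n + d + 1), ξ = Y.S'.Gl e Z' (Y.j η)} ⊔
          Submodule.span k {ξ | ∃ Z' : List σ, Z'.length + 1 = Z.length ∧ ∃ η ∈ A.G a (n + d),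
            ξ = Y.S'.th (Y.S'.Gl e Z' (Y.j η))}) ≤ LinearMap.range (Y.S'.dx e) := by
    rw [sup_le_iff, Submodule.span_le, Submodule.span_le]
    constructor
    · rintro ξ ⟨Z', hZ', η, hη, rfl⟩
      show Y.S'.Gl e Z' (Y.j η) ∈ LinearMap.range (Y.S'.dx e)
      rw [GG_zero A Y e Z' a _ η hη (by omega)]
      exact zero_mem _
    · rintro ξ ⟨Z', hZ', η, hη, rfl⟩
      exact full_range A Y Z' (by omega) hη
  exact h2 h1

/-! ### the spaces `Wr` -/

/-- span of `T_{z_1} ⋯ T_{z_r} j w`, `w ∈ W` -/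
def Wr (Y : Xt S XF) (e : ℕ) (W : Submodule k F) (r : ℕ) : Submodule k XF :=
  Submodule.span k {ξ | ∃ Z : List σ, Z.length = r ∧ ∃ w ∈ W, ξ = Y.S'.Tl e Z (Y.j w)}

lemma Wr_T {e : ℕ} {W : Submodule k F} {r : ℕ} (z : σ) {ξ : XF} (h : ξ ∈ Wr Y e W r) :
    Y.S'.Tz e z ξ ∈ Wr Y e W (r + 1) := by
  have h1 : Wr Y e W r ≤ (Wr Y e W (r + 1)).comap (Y.S'.Tz e z) := by
    unfold Wr
    rw [Submodule.span_le]
    rintro ξ ⟨Z, hZ, w, hw, rfl⟩
    exact Submodule.subset_span ⟨z :: Z, by simp [hZ], w, hw, by rw [Fx.Tl, Module.End.mul_apply]⟩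
  exact h1 h

lemma Hx_j (e : ℕ) (x y : σ) (w : F) : Y.S'.Hx e x y (Y.j w) = Y.j (S.D (X x) y w) := by
  classical
  unfold Fx.Hx Fx.Dx
  rw [LinearMap.add_apply, LinearMap.add_apply]
  have h1 : (∑ ν ∈ Mo σ e, Y.S'.Bb e (pderiv y (X x * monomial ν 1)) * Y.S'.db ν) (Y.j w) = 0 := by
    rw [LinearMap.sum_apply]
    refine Finset.sum_eq_zero fun ν _ => ?_
    rw [Module.End.mul_apply, Y.j_db, map_zero]
  have h2 : (if x = y then Y.S'.th * Y.S'.dth else 0) (Y.j w) = 0 := by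
    split_ifs
    · rw [Module.End.mul_apply, Y.j_dth, map_zero]
    · rfl
  rw [h1, h2, add_zero, add_zero, D_apply, D_apply, map_add, map_sum]
  congr 1
  · rw [← Y.j_m, ← Y.j_T]
  · refine Finset.sum_congr rfl fun μ _ => ?_
    rw [Fk.Ee_apply, Fk.Ee_apply, LinearMap.sum_apply, LinearMap.sum_apply, map_sum]
    refine Finset.sum_congr rfl fun ν _ => ?_
    rw [LinearMap.smul_apply, LinearMap.smul_apply, map_smul, ← Y.j_E, ← Y.j_J]

lemma Rx_j (e : ℕ) (x : σ) (w : F) : Y.S'.Rx e x (Y.j w) = 0 := by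
  unfold Fx.Rx
  rw [LinearMap.add_apply, Module.End.mul_apply, Y.j_dth, map_zero, zero_add, LinearMap.sum_apply]
  refine Finset.sum_eq_zero fun ν _ => ?_
  rw [Module.End.mul_apply, Y.j_db, map_zero]

lemma Wr_H {e : ℕ} (hd : d = e + 1) {W : Submodule k F}
    (hW : ∀ x y : σ, ∀ w ∈ W, S.D (X x) y w ∈ W) {r : ℕ} (x y : σ) {ξ : XF}
    (h : ξ ∈ Wr Y e W r) : Y.S'.Hx e x y ξ ∈ Wr Y e W r := by
  classical
  have h1 : ∀ (Z : List σ) (w : F), w ∈ W →
      Y.S'.Hx e x y (Y.S'.Tl e Z (Y.j w)) ∈ Wr Y e W Z.length := by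
    intro Z w hw
    induction Z with
    | nil =>
      rw [Fx.Tl, Module.End.one_apply, Hx_j]
      exact Submodule.subset_span ⟨[], rfl, _, hW x y w hw, by simp [Fx.Tl]⟩
    | cons z Z ih =>
      have e1 := congrArg (fun f : Module.End k XF => f (Y.S'.Tl e Z (Y.j w)))
        (Y.S'.Hx_Tz hd x y z)
      simp only [Module.End.mul_apply, LinearMap.add_apply, LinearMap.sub_apply] at e1
      rw [Fx.Tl, Module.End.mul_apply, e1]
      have hm : Y.S'.Tl e Z (Y.j w) ∈ Wr Y e W Z.length :=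
        Submodule.subset_span ⟨Z, rfl, w, hw, rfl⟩
      refine sub_mem (add_mem (Wr_T Y z ih) ?_) ?_
      · split_ifs
        · exact Wr_T Y z hm
        · exact zero_mem _
      · split_ifs
        · exact Wr_T Y y hm
        · exact zero_mem _
  have h2 : Wr Y e W r ≤ (Wr Y e W r).comap (Y.S'.Hx e x y) := by
    nth_rewrite 1 [Wr]
    rw [Submodule.span_le]
    rintro ξ ⟨Z, rfl, w, hw, rfl⟩
    exact h1 Z w hw
  exact h2 h

lemma Wr_R {e : ℕ} (hd : d = e + 1) {W : Submodule k F}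
    (hW : ∀ x y : σ, ∀ w ∈ W, S.D (X x) y w ∈ W) {r : ℕ} (x : σ) {ξ : XF}
    (h : ξ ∈ Wr Y e W r) : Y.S'.Rx e x ξ ∈ Wr Y e W (r - 1) := by
  have h1 : ∀ (Z : List σ) (w : F), w ∈ W →
      Y.S'.Rx e x (Y.S'.Tl e Z (Y.j w)) ∈ Wr Y e W (Z.length - 1) := by
    intro Z w hw
    induction Z with
    | nil =>
      rw [Fx.Tl, Module.End.one_apply, Rx_j]
      exact zero_mem _
    | cons z Z ih =>
      have e1 := congrArg (fun f : Module.End k XF => f (Y.S'.Tl e Z (Y.j w)))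
        (Y.S'.Rx_Tz' hd x z)
      simp only [Module.End.mul_apply, LinearMap.add_apply] at e1
      rw [Fx.Tl, Module.End.mul_apply, eq_sub_of_add_eq e1, List.length_cons, Nat.add_sub_cancel]
      have hm : Y.S'.Tl e Z (Y.j w) ∈ Wr Y e W Z.length :=
        Submodule.subset_span ⟨Z, rfl, w, hw, rfl⟩
      refine sub_mem (Wr_H Y hd hW x z hm) ?_
      rcases Z with _ | ⟨z', Z⟩
      · rw [Fx.Tl, Module.End.one_apply, Rx_j, map_zero]
        exact zero_mem _
      · have := Wr_T Y z ih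
        rwa [List.length_cons, Nat.add_sub_cancel] at this
  have h2 : Wr Y e W r ≤ (Wr Y e W (r - 1)).comap (Y.S'.Rx e x) := by
    nth_rewrite 1 [Wr]
    rw [Submodule.span_le]
    rintro ξ ⟨Z, rfl, w, hw, rfl⟩
    exact h1 Z w hw
  exact h2 h

lemma Wr_RR {e : ℕ} (hd : d = e + 1) {W : Submodule k F}
    (hW : ∀ x y : σ, ∀ w ∈ W, S.D (X x) y w ∈ W) (Z : List σ) : ∀ {ξ : XF},
    ξ ∈ Wr Y e W Z.length → Y.S'.Rl e Z ξ ∈ Wr Y e W 0 := by
  induction Z with
  | nil => intro ξ h; simpa [Fx.Rl] using h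
  | cons z Z ih =>
    intro ξ h
    rw [Fx.Rl, Module.End.mul_apply]
    refine ih ?_
    have := Wr_R Y hd hW z h
    rwa [List.length_cons, Nat.add_sub_cancel] at this

lemma R_TT {e : ℕ} (hd : d = e + 1) {W : Submodule k F} {κ : F} (x : σ) (Z : List σ) (hx : x ∉ Z)
    (hZ : ∀ z ∈ Z, S.D (X x) z κ ∈ W) :
    Y.S'.Rx e x (Y.S'.Tl e Z (Y.j κ)) ∈ Wr Y e W (Z.length - 1) := by
  induction Z with
  | nil =>
    rw [Fx.Tl, Module.End.one_apply, Rx_j]
    exact zero_mem _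
  | cons z Z ih =>
    rw [List.mem_cons, not_or] at hx
    have e1 := congrArg (fun f : Module.End k XF => f (Y.S'.Tl e Z (Y.j κ)))
      (Y.S'.Rx_Tz' hd x z)
    simp only [Module.End.mul_apply, LinearMap.add_apply] at e1
    rw [Fx.Tl, Module.End.mul_apply, eq_sub_of_add_eq e1, List.length_cons, Nat.add_sub_cancel]
    have ih' := ih hx.2 fun z' hz' => hZ z' (List.mem_cons_of_mem _ hz')
    refine sub_mem ?_ ?_
    · have e2 := congrArg (fun f : Module.End k XF => f (Y.j κ)) (Y.S'.Hx_TT_ne hd x z hx.1 Z hx.2)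
      simp only [Module.End.mul_apply] at e2
      rw [e2, Hx_j]
      exact Submodule.subset_span ⟨Z, rfl, _, hZ z List.mem_cons_self, rfl⟩
    · rcases Z with _ | ⟨z', Z⟩
      · rw [Fx.Tl, Module.End.one_apply, Rx_j, map_zero]
        exact zero_mem _
      · have := Wr_T Y z ih'
        rwa [List.length_cons, Nat.add_sub_cancel] at this

/-- the product `∏ (w_i + s - i)` -/
def cpr (w : σ → ℕ) : List σ → ℕ
  | [] => 1
  | y :: Z => (w y + Z.length) * cpr w Z

lemma cpr_ne (w : σ → ℕ) (Z : List σ) (h : ∀ z ∈ Z, w z ≠ 0) : cpr w Z ≠ 0 := by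
  induction Z with
  | nil => simp [cpr]
  | cons z Z ih =>
    have := h z List.mem_cons_self
    rw [cpr]
    refine Nat.mul_ne_zero (by omega) (ih fun z' hz' => h z' (List.mem_cons_of_mem _ hz'))

lemma RR_TT {e : ℕ} (hd : d = e + 1) {W : Submodule k F}
    (hW : ∀ x y : σ, ∀ w ∈ W, S.D (X x) y w ∈ W) {κ : F} {w : σ → ℕ}
    (hw : ∀ x, S.D (X x) x κ = (w x : k) • κ) (Z : List σ) (hZ : Z.Nodup)
    (hp : Z.Pairwise fun x y => S.D (X x) y κ ∈ W) :
    Y.S'.Rl e Z (Y.S'.Tl e Z (Y.j κ)) - (cpr w Z : k) • Y.j κ ∈ Wr Y e W 0 := by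
  induction Z with
  | nil =>
    simp only [Fx.Rl, Fx.Tl, Module.End.one_apply, cpr, Nat.cast_one, one_smul, sub_self]
    exact zero_mem _
  | cons z Z ih =>
    rw [List.nodup_cons] at hZ
    rw [List.pairwise_cons] at hp
    have ih' := ih hZ.2 hp.2
    have e1 := congrArg (fun f : Module.End k XF => f (Y.S'.Tl e Z (Y.j κ)))
      (Y.S'.Rx_Tz' hd z z)
    simp only [Module.End.mul_apply, LinearMap.add_apply] at e1
    have e2 := congrArg (fun f : Module.End k XF => f (Y.j κ)) (Y.S'.Hx_TT_self hd z Z hZ.1)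
    simp only [Module.End.mul_apply, LinearMap.add_apply, LinearMap.smul_apply] at e2
    have e3 : Y.S'.Tz e z (Y.S'.Rx e z (Y.S'.Tl e Z (Y.j κ))) ∈ Wr Y e W Z.length := by
      rcases Z with _ | ⟨z', Z⟩
      · rw [Fx.Tl, Module.End.one_apply, Rx_j, map_zero]
        exact zero_mem _
      · have := Wr_T Y z (R_TT Y hd z (z' :: Z) hZ.1 hp.1)
        rwa [List.length_cons, Nat.add_sub_cancel] at this
    have e4 := Wr_RR Y hd hW Z e3
    rw [Fx.Rl, Fx.Tl, Module.End.mul_apply, Module.End.mul_apply, eq_sub_of_add_eq e1, map_sub, e2,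
      Hx_j, hw z, map_smul, map_smul, ← add_smul, map_smul, cpr, Nat.cast_mul, Nat.cast_add,
      mul_smul]
    have e5 := Submodule.smul_mem (Wr Y e W 0) ((w z : k) + (Z.length : k)) ih'
    rw [smul_sub] at e5
    have e6 := sub_mem e5 e4
    convert e6 using 1
    abel

lemma pr_dx (e : ℕ) (ξ : XF) : Y.pr (Y.S'.dx e ξ) = S.del (Y.pr ξ) := by
  unfold Fx.dx
  rw [LinearMap.sub_apply, Module.End.mul_apply, map_sub, Y.pr_th, sub_zero, Fk.del_eq, Fk.del_eq,
    LinearMap.sum_apply, LinearMap.sum_apply, map_sum]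
  refine Finset.sum_congr rfl fun μ _ => ?_
  rw [Module.End.mul_apply, Module.End.mul_apply, Y.pr_m, Y.pr_J]

include A Y in
/-- the Capelli type lemma -/
lemma capelli [CharZero k] {e : ℕ} (hd : d = e + 1) {W : Submodule k F}
    (hW : ∀ x y : σ, ∀ w ∈ W, S.D (X x) y w ∈ W) {a n : ℕ} {κ : F}
    (h : κ ∈ A.G a (n + d + 1)) {w : σ → ℕ} (hw : ∀ x, S.D (X x) x κ = (w x : k) • κ)
    (Z : List σ) (hZ : Z.Nodup) (hlen : Z.length = a + 1)
    (hp : Z.Pairwise fun x y => S.D (X x) y κ ∈ W) (hne : ∀ z ∈ Z, w z ≠ 0) :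
    ∃ v ∈ W, κ - v ∈ LinearMap.range S.del := by
  have h1 := RR_TT Y hd hW hw Z hZ hp
  obtain ⟨ζ, hζ⟩ := TT_range A Y (e := e) h Z hlen
  have h2 : Y.S'.Rl e Z (Y.S'.Tl e Z (Y.j κ)) = Fk.sg k Z.length • Y.S'.dx e (Y.S'.Rl e Z ζ) := by
    rw [← hζ]
    have := congrArg (fun f : Module.End k XF => f ζ) (Y.S'.RR_dx hd Z)
    simpa only [Module.End.mul_apply, LinearMap.smul_apply] using this
  have h3 : Wr Y e W 0 ≤ W.comap Y.pr := by
    unfold Wr
    rw [Submodule.span_le]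
    rintro ξ ⟨Z, hZ, w, hw, rfl⟩
    have : Z = [] := List.length_eq_zero_iff.mp hZ
    subst this
    show Y.pr (Y.S'.Tl e [] (Y.j w)) ∈ W
    rw [Fx.Tl, Module.End.one_apply, Y.pr_j]
    exact hw
  have h4 : Y.pr (Y.S'.Rl e Z (Y.S'.Tl e Z (Y.j κ)) - (cpr w Z : k) • Y.j κ) ∈ W := h3 h1
  rw [h2, map_sub, map_smul, map_smul, pr_dx, Y.pr_j] at h4
  have hc : (cpr w Z : k) ≠ 0 := Nat.cast_ne_zero.mpr (cpr_ne w Z hne)
  refine ⟨-((cpr w Z : k)⁻¹ • (Fk.sg k Z.length • S.del (Y.pr (Y.S'.Rl e Z ζ))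
    - (cpr w Z : k) • κ)), neg_mem (W.smul_mem _ h4), ?_⟩
  rw [smul_sub, smul_smul (cpr w Z : k)⁻¹ (cpr w Z : k) κ, inv_mul_cancel₀ hc, one_smul]
  refine ⟨(cpr w Z : k)⁻¹ • Fk.sg k Z.length • Y.pr (Y.S'.Rl e Z ζ), ?_⟩
  rw [map_smul, map_smul]
  abel

end

end Pool.Agent.H27.OP
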