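import Pool.Agent.H27.OP.Ring

set_option autoImplicit false
set_option linter.unusedSectionVars false

/-!
# Ottaviani-Paoletti: canonical anticommutation relations on `Finset (Fin N) → M`
-/

open MvPolynomial

namespace Pool.Agent.H27.OP

variable {k : Type*} [Field k] {N : ℕ} {M : Type*} [AddCommGroup M] [Module k M]

/-- `(-1)^{# {c ∈ I, c < i}}` -/
def sgn (k : Type*) [Field k] {N : ℕ} (I : Finset (Fin N)) (i : Fin N) : k :=
  (-1) ^ (I.filter (fun c => c < i)).card

lemma sgn_sq (I : Finset (Fin N)) (i : Fin N) : sgn k I i * sgn k I i = 1 := by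
  simp [sgn, ← mul_pow]

lemma sgn_erase_self (I : Finset (Fin N)) (i : Fin N) : sgn k (I.erase i) i = sgn k I i := by
  unfold sgn
  congr 2
  ext c
  simp only [Finset.mem_filter, Finset.mem_erase]
  constructor
  · rintro ⟨⟨_, h⟩, h'⟩; exact ⟨h, h'⟩
  · rintro ⟨h, h'⟩; exact ⟨⟨ne_of_lt h', h⟩, h'⟩

lemma sgn_insert_self (I : Finset (Fin N)) (i : Fin N) : sgn k (insert i I) i = sgn k I i := by
  unfold sgn
  congr 2
  ext c
  simp only [Finset.mem_filter, Finset.mem_insert]
  constructor
  · rintro ⟨h | h, h'⟩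
    · exact absurd h' (by rw [h]; exact lt_irrefl _)
    · exact ⟨h, h'⟩
  · rintro ⟨h, h'⟩; exact ⟨Or.inr h, h'⟩

/-- relative sign -/
def rs (k : Type*) [Field k] {N : ℕ} (i j : Fin N) : k := if i < j then -1 else 1

lemma rs_swap {i j : Fin N} (h : i ≠ j) : rs k i j = -rs k j i := by
  unfold rs
  rcases lt_or_gt_of_ne h with h1 | h1
  · rw [if_pos h1, if_neg (not_lt.mpr h1.le)]
  · rw [if_neg (not_lt.mpr h1.le), if_pos h1, neg_neg]

lemma rs_sq (i j : Fin N) : rs k i j * rs k i j = 1 := by
  unfold rs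
  split_ifs <;> simp

lemma sgn_insert {I : Finset (Fin N)} {i j : Fin N} (hi : i ∉ I) :
    sgn k (insert i I) j = rs k i j * sgn k I j := by
  unfold sgn rs
  rw [Finset.filter_insert]
  split_ifs with h
  · rw [Finset.card_insert_of_notMem (by simp [hi]), pow_succ]
    ring
  · simp

lemma sgn_erase {I : Finset (Fin N)} {i j : Fin N} (hi : i ∈ I) :
    sgn k (I.erase i) j = rs k i j * sgn k I j := by
  have h1 : i ∉ I.erase i := Finset.notMem_erase _ _
  have h2 := sgn_insert (k := k) (j := j) h1
  rw [Finset.insert_erase hi] at h2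
  rw [h2, ← mul_assoc, rs_sq, one_mul]

/-- creation -/
def aE (k : Type*) [Field k] {N : ℕ} {M : Type*} [AddCommGroup M] [Module k M] (i : Fin N) :
    Module.End k (Finset (Fin N) → M) where
  toFun f := fun I => if i ∈ I then sgn k I i • f (I.erase i) else 0
  map_add' f g := by
    ext I
    simp only [Pi.add_apply]
    split_ifs
    · rw [smul_add]
    · rw [add_zero]
  map_smul' t f := by
    ext I
    simp only [Pi.smul_apply, RingHom.id_apply]
    split_ifs
    · rw [smul_comm]
    · rw [smul_zero]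

/-- annihilation -/
def aJ (k : Type*) [Field k] {N : ℕ} {M : Type*} [AddCommGroup M] [Module k M] (i : Fin N) :
    Module.End k (Finset (Fin N) → M) where
  toFun f := fun I => if i ∈ I then 0 else sgn k I i • f (insert i I)
  map_add' f g := by
    ext I
    simp only [Pi.add_apply]
    split_ifs
    · rw [add_zero]
    · rw [smul_add]
  map_smul' t f := by
    ext I
    simp only [Pi.smul_apply, RingHom.id_apply]
    split_ifs
    · rw [smul_zero]
    · rw [smul_comm]

lemma aE_apply (i : Fin N) (f : Finset (Fin N) → M) (I : Finset (Fin N)) :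
    aE k i f I = if i ∈ I then sgn k I i • f (I.erase i) else 0 := rfl

lemma aJ_apply (i : Fin N) (f : Finset (Fin N) → M) (I : Finset (Fin N)) :
    aJ k i f I = if i ∈ I then 0 else sgn k I i • f (insert i I) := rfl

lemma aEE (i j : Fin N) : (aE k i : Module.End k (Finset (Fin N) → M)) * aE k j
    = -(aE k j * aE k i) := by
  refine LinearMap.ext fun f => funext fun I => ?_
  rw [LinearMap.neg_apply, Pi.neg_apply, Module.End.mul_apply, Module.End.mul_apply, aE_apply,
    aE_apply, aE_apply, aE_apply]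
  by_cases hij : i = j
  · subst hij
    simp
  · by_cases hi : i ∈ I
    · by_cases hj : j ∈ I
      · rw [if_pos hi, if_pos hj, if_pos (Finset.mem_erase.mpr ⟨Ne.symm hij, hj⟩),
          if_pos (Finset.mem_erase.mpr ⟨hij, hi⟩), sgn_erase hi, sgn_erase hj, smul_smul,
          smul_smul, Finset.erase_right_comm, ← neg_smul]
        congr 1
        rw [rs_swap hij]
        ring
      · rw [if_pos hi, if_neg hj, if_neg (fun h => hj (Finset.mem_of_mem_erase h)), smul_zero,
          neg_zero]
    · by_cases hj : j ∈ I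
      · rw [if_neg hi, if_pos hj, if_neg (fun h => hi (Finset.mem_of_mem_erase h)), smul_zero,
          neg_zero]
      · rw [if_neg hi, if_neg hj, neg_zero]

lemma aJJ (i j : Fin N) : (aJ k i : Module.End k (Finset (Fin N) → M)) * aJ k j
    = -(aJ k j * aJ k i) := by
  refine LinearMap.ext fun f => funext fun I => ?_
  rw [LinearMap.neg_apply, Pi.neg_apply, Module.End.mul_apply, Module.End.mul_apply, aJ_apply,
    aJ_apply, aJ_apply, aJ_apply]
  by_cases hij : i = j
  · subst hij
    simp
  · by_cases hi : i ∈ I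
    · by_cases hj : j ∈ I
      · rw [if_pos hi, if_pos hj, neg_zero]
      · rw [if_pos hi, if_neg hj, if_pos (Finset.mem_insert_of_mem hi), smul_zero, neg_zero]
    · by_cases hj : j ∈ I
      · rw [if_neg hi, if_pos hj, if_pos (Finset.mem_insert_of_mem hj), smul_zero, neg_zero]
      · have h1 : j ∉ insert i I := by
          rw [Finset.mem_insert, not_or]; exact ⟨Ne.symm hij, hj⟩
        have h2 : i ∉ insert j I := by
          rw [Finset.mem_insert, not_or]; exact ⟨hij, hi⟩
        rw [if_neg hi, if_neg hj, if_neg h1, if_neg h2, sgn_insert hi, sgn_insert hj, smul_smul,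
          smul_smul, Finset.insert_comm, ← neg_smul]
        congr 1
        rw [rs_swap hij]
        ring

lemma aJE {i j : Fin N} (hij : i ≠ j) : (aJ k i : Module.End k (Finset (Fin N) → M)) * aE k j
    = -(aE k j * aJ k i) := by
  refine LinearMap.ext fun f => funext fun I => ?_
  rw [LinearMap.neg_apply, Pi.neg_apply, Module.End.mul_apply, Module.End.mul_apply, aJ_apply,
    aE_apply, aE_apply, aJ_apply]
  by_cases hi : i ∈ I
  · by_cases hj : j ∈ I
    · rw [if_pos hi, if_pos hj, if_pos (Finset.mem_erase.mpr ⟨hij, hi⟩), smul_zero, neg_zero]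
    · rw [if_pos hi, if_neg hj, neg_zero]
  · by_cases hj : j ∈ I
    · rw [if_neg hi, if_pos hj, if_pos (Finset.mem_insert_of_mem hj),
        if_neg (fun h => hi (Finset.mem_of_mem_erase h)), sgn_insert hi, sgn_erase hj, smul_smul,
        smul_smul, Finset.erase_insert_of_ne hij, ← neg_smul]
      congr 1
      rw [rs_swap hij]
      ring
    · rw [if_neg hi, if_neg hj, if_neg (by
        rw [Finset.mem_insert, not_or]; exact ⟨Ne.symm hij, hj⟩), smul_zero, neg_zero]

lemma aJEs (i : Fin N) : (aJ k i : Module.End k (Finset (Fin N) → M)) * aE k i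
    = 1 - aE k i * aJ k i := by
  refine LinearMap.ext fun f => funext fun I => ?_
  rw [LinearMap.sub_apply, Pi.sub_apply, Module.End.mul_apply, Module.End.mul_apply, aJ_apply,
    aE_apply, aE_apply, aJ_apply, Module.End.one_apply]
  by_cases hi : i ∈ I
  · rw [if_pos hi, if_pos hi, if_neg (Finset.notMem_erase _ _), sgn_erase_self, smul_smul, sgn_sq,
      one_smul, Finset.insert_erase hi, sub_self]
  · rw [if_neg hi, if_neg hi, if_pos (Finset.mem_insert_self _ _), sgn_insert_self, smul_smul,
      sgn_sq, one_smul, Finset.erase_insert hi, sub_zero]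

lemma aEJs_apply (i : Fin N) (f : Finset (Fin N) → M) (I : Finset (Fin N)) :
    aE k i (aJ k i f) I = if i ∈ I then f I else 0 := by
  rw [aE_apply, aJ_apply]
  split_ifs with h1 h2
  · exact absurd h2 (Finset.notMem_erase _ _)
  · rw [sgn_erase_self, smul_smul, sgn_sq, one_smul, Finset.insert_erase h1]
  · rfl

/-- pointwise operators -/
def lm (k : Type*) [Field k] (N : ℕ) {M : Type*} [AddCommGroup M] [Module k M] :
    Module.End k M →ₐ[k] Module.End k (Finset (Fin N) → M) where
  toFun A := { toFun := fun f I => A (f I)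
               map_add' := fun f g => by ext I; simp
               map_smul' := fun t f => by ext I; simp }
  map_one' := rfl
  map_mul' _ _ := rfl
  map_zero' := rfl
  map_add' _ _ := rfl
  commutes' _ := rfl

lemma lm_apply (A : Module.End k M) (f : Finset (Fin N) → M) (I : Finset (Fin N)) :
    lm k N A f I = A (f I) := rfl

lemma lm_aE (A : Module.End k M) (i : Fin N) : lm k N A * aE k i = aE k i * lm k N A := by
  refine LinearMap.ext fun f => funext fun I => ?_
  rw [Module.End.mul_apply, Module.End.mul_apply, lm_apply, aE_apply, aE_apply]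
  split_ifs
  · rw [map_smul, lm_apply]
  · rw [map_zero]

lemma lm_aJ (A : Module.End k M) (i : Fin N) : lm k N A * aJ k i = aJ k i * lm k N A := by
  refine LinearMap.ext fun f => funext fun I => ?_
  rw [Module.End.mul_apply, Module.End.mul_apply, lm_apply, aJ_apply, aJ_apply]
  split_ifs
  · rw [map_zero]
  · rw [map_smul, lm_apply]

/-! ### the operators attached to a basis -/

variable {σ : Type*} [Fintype σ]

/-- data on the coefficient module -/
structure Cf (σ k M : Type*) [Fintype σ] [Field k] [AddCommGroup M] [Module k M] where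
  m : MvPolynomial σ k →ₐ[k] Module.End k M
  T : σ → Module.End k M
  par : Module.End k M
  Tm : ∀ x a, T x * m a = m a * T x + m (pderiv x a)
  TT : ∀ x y, T x * T y = T y * T x
  pp : par * par = 1
  pm : ∀ a, par * m a = m a * par
  pT : ∀ x, par * T x = T x * par

/-- matrices `α`, `γ` inverse to each other -/
structure Mx (σ k : Type*) [Fintype σ] [Field k] (N d : ℕ) where
  α : (σ →₀ ℕ) → Fin N → k
  γ : (σ →₀ ℕ) → Fin N → k
  ga : ∀ μ ∈ Mo σ d, ∀ ν ∈ Mo σ d, μ ≠ ν → ∑ i, γ μ i * α ν i = 0
  gas : ∀ μ ∈ Mo σ d, ∑ i, γ μ i * α μ i = 1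

section

variable {d : ℕ} (C : Cf σ k M) (X : Mx σ k N d)

noncomputable def bE (μ : σ →₀ ℕ) : Module.End k (Finset (Fin N) → M) :=
  (∑ i, X.α μ i • aE k i) * lm k N C.par

noncomputable def bJ (μ : σ →₀ ℕ) : Module.End k (Finset (Fin N) → M) :=
  (∑ i, X.γ μ i • aJ k i) * lm k N C.par

lemma sumE_lm (μ : σ →₀ ℕ) (A : Module.End k M) :
    (lm k N A) * (∑ i, X.α μ i • aE k i) = (∑ i, X.α μ i • aE k i) * lm k N A := by
  rw [Finset.mul_sum, Finset.sum_mul]
  refine Finset.sum_congr rfl fun i _ => ?_
  rw [mul_smul_comm, lm_aE, smul_mul_assoc]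

lemma sumJ_lm (μ : σ →₀ ℕ) (A : Module.End k M) :
    (lm k N A) * (∑ i, X.γ μ i • aJ k i) = (∑ i, X.γ μ i • aJ k i) * lm k N A := by
  rw [Finset.mul_sum, Finset.sum_mul]
  refine Finset.sum_congr rfl fun i _ => ?_
  rw [mul_smul_comm, lm_aJ, smul_mul_assoc]

lemma sum_anti (u v : Fin N → k) (P Q : Fin N → Module.End k (Finset (Fin N) → M))
    (h : ∀ i j, P i * Q j = -(Q j * P i)) :
    (∑ i, u i • P i) * (∑ i, v i • Q i) = -((∑ i, v i • Q i) * (∑ i, u i • P i)) := by
  rw [Finset.sum_mul_sum, Finset.sum_mul_sum, Finset.sum_comm, ← Finset.sum_neg_distrib]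
  refine Finset.sum_congr rfl fun j _ => ?_
  rw [← Finset.sum_neg_distrib]
  refine Finset.sum_congr rfl fun i _ => ?_
  rw [smul_mul_smul_comm, smul_mul_smul_comm, h, smul_neg, mul_comm]

lemma sum_car (u v : Fin N → k) :
    (∑ i, u i • (aJ k i : Module.End k (Finset (Fin N) → M))) * (∑ i, v i • aE k i)
      = (∑ i, u i * v i) • (1 : Module.End k (Finset (Fin N) → M))
        - (∑ i, v i • aE k i) * (∑ i, u i • aJ k i) := by
  have h : ∀ i j : Fin N, (u i • (aJ k i : Module.End k (Finset (Fin N) → M))) * (v j • aE k j)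
      = (if i = j then (u i * v i) • (1 : Module.End k (Finset (Fin N) → M)) else 0)
        - (v j • aE k j) * (u i • aJ k i) := by
    intro i j
    rw [smul_mul_smul_comm, smul_mul_smul_comm]
    by_cases hij : i = j
    · subst hij
      rw [if_pos rfl, aJEs, smul_sub, mul_comm (v i)]
    · rw [if_neg hij, aJE hij, smul_neg, mul_comm (v j), zero_sub]
  rw [Finset.sum_mul_sum, Finset.sum_mul_sum, Finset.sum_comm (s := Finset.univ) (t := Finset.univ)
    (f := fun i j => v i • aE k i * u j • aJ k j)]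
  rw [Finset.sum_congr rfl fun i _ => Finset.sum_congr rfl fun j _ => h i j]
  simp only [Finset.sum_sub_distrib, Finset.sum_ite_eq, Finset.mem_univ, if_true, Finset.sum_smul]

lemma par2 : lm k N C.par * lm k N C.par = (1 : Module.End k (Finset (Fin N) → M)) := by
  rw [← map_mul, C.pp, map_one]

/-- the operator algebra data on `Finset (Fin N) → M` -/
noncomputable def mkFk : Fk σ k (Module.End k (Finset (Fin N) → M)) d where
  m := (lm k N).comp C.m
  E := bE C X
  J := bJ C X
  T x := lm k N (C.T x)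
  EE μ ν := by
    unfold bE
    have h : ∀ μ ν : σ →₀ ℕ, (∑ i, X.α μ i • aE k i) * lm k N C.par
        * ((∑ i, X.α ν i • aE k i) * lm k N C.par)
        = ((∑ i, X.α μ i • aE k i) * (∑ i, X.α ν i • aE k i)
          : Module.End k (Finset (Fin N) → M)) := by
      intro μ ν
      rw [mul_assoc, ← mul_assoc (lm k N C.par), sumE_lm, mul_assoc, par2, mul_one]
    rw [h, h, sum_anti _ _ _ _ aEE]
  JJ μ ν := by
    unfold bJ
    have h : ∀ μ ν : σ →₀ ℕ, (∑ i, X.γ μ i • aJ k i) * lm k N C.par
        * ((∑ i, X.γ ν i • aJ k i) * lm k N C.par)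
        = ((∑ i, X.γ μ i • aJ k i) * (∑ i, X.γ ν i • aJ k i)
          : Module.End k (Finset (Fin N) → M)) := by
      intro μ ν
      rw [mul_assoc, ← mul_assoc (lm k N C.par), sumJ_lm, mul_assoc, par2, mul_one]
    rw [h, h, sum_anti _ _ _ _ aJJ]
  JE μ hμ ν hν hne := by
    unfold bJ bE
    rw [mul_assoc, ← mul_assoc (lm k N C.par), sumE_lm, mul_assoc, par2, mul_one,
      mul_assoc, ← mul_assoc (lm k N C.par), sumJ_lm, mul_assoc, par2, mul_one, sum_car,
      X.ga μ hμ ν hν hne, zero_smul, zero_sub]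
  JEs μ hμ := by
    unfold bJ bE
    rw [mul_assoc, ← mul_assoc (lm k N C.par), sumE_lm, mul_assoc, par2, mul_one,
      mul_assoc, ← mul_assoc (lm k N C.par), sumJ_lm, mul_assoc, par2, mul_one, sum_car,
      X.gas μ hμ, one_smul]
  mE a μ := by
    unfold bE
    rw [AlgHom.comp_apply, ← mul_assoc, sumE_lm, mul_assoc, mul_assoc, ← map_mul, ← map_mul, C.pm]
  mJ a μ := by
    unfold bJ
    rw [AlgHom.comp_apply, ← mul_assoc, sumJ_lm, mul_assoc, mul_assoc, ← map_mul, ← map_mul, C.pm]
  Tm x a := by
    rw [AlgHom.comp_apply, AlgHom.comp_apply, ← map_mul, ← map_mul, ← map_add, C.Tm]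
  TE x μ := by
    unfold bE
    rw [← mul_assoc, sumE_lm, mul_assoc, mul_assoc, ← map_mul, ← map_mul, C.pT]
  TJ x μ := by
    unfold bJ
    rw [← mul_assoc, sumJ_lm, mul_assoc, mul_assoc, ← map_mul, ← map_mul, C.pT]
  TT x y := by
    rw [← map_mul, ← map_mul, C.TT]

end

end Pool.Agent.H27.OP
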