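import Pool.Agent.H27.OP.Meas

set_option autoImplicit false
set_option linter.unusedSectionVars false

/-!
# Ottaviani-Paoletti: the version which takes the number of variables into account
-/

open MvPolynomial

namespace Pool.Agent.H27.OP

variable {σ k : Type*} [Fintype σ] [Field k]

namespace Fk

variable {O : Type*} [Ring O] [Algebra k O] {d : ℕ} (S : Fk σ k O d)

lemma sum_cons_Pg (c c' f : MvPolynomial σ k) (i : ℕ) (L : List (List (MvPolynomial σ k))) :
    ((L.map (fun F' => f :: F')).map (fun F' => S.Pg c c' F' (i + 1))).sum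
      = S.Ee (c * f) * (L.map (fun F' => S.Pg c c' F' (i + 1))).sum
        + S.Ee (c' * f) * (L.map (fun F' => S.Pg c c' F' i)).sum := by
  induction L with
  | nil => simp
  | cons a L ihL =>
    simp only [List.map_cons, List.sum_cons] at ihL ⊢
    rw [ihL, Pg]
    simp only [mul_add]
    abel

lemma sum_cons_Pg0 (c c' f : MvPolynomial σ k) (L : List (List (MvPolynomial σ k))) :
    ((L.map (fun F' => f :: F')).map (fun F' => S.Pg c c' F' 0)).sum
      = S.Ee (c * f) * (L.map (fun F' => S.Pg c c' F' 0)).sum := by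
  induction L with
  | nil => simp
  | cons a L ihL =>
    simp only [List.map_cons, List.sum_cons] at ihL ⊢
    rw [ihL, Pg]
    simp only [mul_add]

lemma sum_cons_Cg (c c' f : MvPolynomial σ k) (i : ℕ) (L : List (List (MvPolynomial σ k))) :
    ((L.map (fun F' => f :: F')).map (fun F' => S.Cg c c' F' (i + 1))).sum
      = S.m f * (L.map (fun F' => S.Pg c c' F' (i + 1))).sum
        - S.Ee (c * f) * (L.map (fun F' => S.Cg c c' F' (i + 1))).sum
        - S.Ee (c' * f) * (L.map (fun F' => S.Cg c c' F' i)).sum := by
  induction L with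
  | nil => simp
  | cons a L ihL =>
    simp only [List.map_cons, List.sum_cons] at ihL ⊢
    rw [ihL, Cg]
    simp only [mul_add]
    abel

lemma sum_cons_Cg0 (c c' f : MvPolynomial σ k) (L : List (List (MvPolynomial σ k))) :
    ((L.map (fun F' => f :: F')).map (fun F' => S.Cg c c' F' 0)).sum
      = S.m f * (L.map (fun F' => S.Pg c c' F' 0)).sum
        - S.Ee (c * f) * (L.map (fun F' => S.Cg c c' F' 0)).sum := by
  induction L with
  | nil => simp
  | cons a L ihL =>
    simp only [List.map_cons, List.sum_cons] at ihL ⊢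
    rw [ihL, Cg]
    simp only [mul_add]
    abel

lemma D_Pg {e : ℕ} (hd : d = e + 1) {c c' : MvPolynomial σ k} (hc : c.IsHomogeneous 1)
    (hc' : c'.IsHomogeneous 1) (y : σ) (γ : k) (hγ : pderiv y c = C γ) (hy : pderiv y c' = 0)
    (F : List (MvPolynomial σ k)) (hF : HomL e F) : ∀ i : ℕ,
    S.D c' y * S.Pg c c' F i = S.Pg c c' F i * S.D c' y
      + ((Lv (fun f => c' * pderiv y f) F).map (fun F' => S.Pg c c' F' i)).sum
      + ((i + 1 : ℕ) : k) • γ • S.Pg c c' F (i + 1) := by
  induction F with
  | nil =>
    intro i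
    rcases i with _ | i <;> simp [Pg, Lv]
  | cons f F ih =>
    intro i
    have h := hF.of_cons
    have ih' := ih h.2
    have hcf : (c * f).IsHomogeneous d := hd ▸ hom_mul hc h.1
    have hcf' : (c' * f).IsHomogeneous d := hd ▸ hom_mul hc' h.1
    have h1 : c' * pderiv y (c * f) = γ • (c' * f) + c * (c' * pderiv y f) := by
      rw [Derivation.leibniz, hγ, smul_eq_mul, smul_eq_mul, smul_eq_C_mul]
      ring
    have h2 : c' * pderiv y (c' * f) = c' * (c' * pderiv y f) := by
      rw [Derivation.leibniz, hy, smul_eq_mul, smul_zero, add_zero]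
    rcases i with _ | i
    · rw [Lv, List.map_cons, List.sum_cons, sum_cons_Pg0, Pg, Pg, Pg, ← mul_assoc, S.D_Ee y hcf,
        add_mul, mul_assoc, ih' 0, h1, map_add, map_smul]
      simp only [mul_add, add_mul, mul_smul_comm, smul_mul_assoc, mul_assoc, smul_add]
      push_cast
      simp only [zero_add, one_smul]
      abel
    · rw [Lv, List.map_cons, List.sum_cons, sum_cons_Pg, Pg, Pg, Pg, mul_add, ← mul_assoc,
        ← mul_assoc, S.D_Ee y hcf, S.D_Ee y hcf', add_mul, add_mul, mul_assoc, mul_assoc,
        ih' (i + 1), ih' i, h1, h2, map_add, map_smul]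
      simp only [mul_add, add_mul, mul_smul_comm, smul_mul_assoc, mul_assoc, smul_add]
      push_cast
      simp only [add_smul, one_smul]
      abel

lemma D_Cg {e : ℕ} (hd : d = e + 1) {c c' : MvPolynomial σ k} (hc : c.IsHomogeneous 1)
    (hc' : c'.IsHomogeneous 1) (y : σ) (γ : k) (hγ : pderiv y c = C γ) (hy : pderiv y c' = 0)
    (F : List (MvPolynomial σ k)) (hF : HomL e F) : ∀ i : ℕ,
    S.D c' y * S.Cg c c' F i = S.Cg c c' F i * S.D c' y
      + ((Lv (fun f => c' * pderiv y f) F).map (fun F' => S.Cg c c' F' i)).sum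
      + ((i + 1 : ℕ) : k) • γ • S.Cg c c' F (i + 1) := by
  induction F with
  | nil =>
    intro i
    simp [Cg, Lv]
  | cons f F ih =>
    intro i
    have h := hF.of_cons
    have ih' := ih h.2
    have ihP := S.D_Pg hd hc hc' y γ hγ hy F h.2
    have hcf : (c * f).IsHomogeneous d := hd ▸ hom_mul hc h.1
    have hcf' : (c' * f).IsHomogeneous d := hd ▸ hom_mul hc' h.1
    have h1 : c' * pderiv y (c * f) = γ • (c' * f) + c * (c' * pderiv y f) := by
      rw [Derivation.leibniz, hγ, smul_eq_mul, smul_eq_mul, smul_eq_C_mul]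
      ring
    have h2 : c' * pderiv y (c' * f) = c' * (c' * pderiv y f) := by
      rw [Derivation.leibniz, hy, smul_eq_mul, smul_zero, add_zero]
    rcases i with _ | i
    · rw [Lv, List.map_cons, List.sum_cons, sum_cons_Cg0, Cg, Cg, Cg, mul_sub, ← mul_assoc,
        ← mul_assoc, S.D_m, S.D_Ee y hcf, add_mul, add_mul, mul_assoc, mul_assoc, ihP 0, ih' 0,
        h1, map_add, map_smul]
      simp only [mul_add, add_mul, mul_smul_comm, smul_mul_assoc, mul_assoc, smul_add, smul_sub,
        sub_mul]
      push_cast
      simp only [zero_add, one_smul]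
      abel
    · rw [Lv, List.map_cons, List.sum_cons, sum_cons_Cg, Cg, Cg, Cg, mul_sub, mul_sub,
        ← mul_assoc, ← mul_assoc, ← mul_assoc, S.D_m, S.D_Ee y hcf, S.D_Ee y hcf', add_mul,
        add_mul, add_mul, mul_assoc, mul_assoc, mul_assoc, ihP (i + 1), ih' (i + 1), ih' i, h1, h2,
        map_add, map_smul]
      simp only [mul_add, add_mul, mul_smul_comm, smul_mul_assoc, mul_assoc, smul_add, smul_sub,
        sub_mul]
      push_cast
      simp only [add_smul, one_smul]
      abel

lemma Cc_zero (L : List (MvPolynomial σ k)) (h : 2 ≤ L.length) : S.Cc 0 L = 0 := by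
  rcases L with _ | ⟨f, _ | ⟨g, L⟩⟩
  · simp at h
  · simp at h
  · rw [Cc, Pc, zero_mul, map_zero, zero_mul, mul_zero, zero_mul, map_zero, zero_mul, sub_zero]

lemma Cc_one (c f : MvPolynomial σ k) : S.Cc c [f] = S.m f := by
  rw [Cc, Pc, Cc, mul_one, mul_zero, sub_zero]

end Fk

section

variable {F : Type*} [AddCommGroup F] [Module k F] {d : ℕ}
variable {S : Fk σ k (Module.End k F) d} (A : Gr S)
variable {XF : Type*} [AddCommGroup XF] [Module k XF] (Y : Xt S XF)

include A in
/-- from multiples of variables to all linear forms -/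
lemma all_c [CharZero k] [Nonempty σ] {e : ℕ} (hd : d = e + 1) {a m q : ℕ} (hq : 1 ≤ q)
    (h : ∀ (x : σ) (γ : k), γ ≠ 0 → ∀ (L : List (MvPolynomial σ k)), Fk.HomL e L → L.length = q →
      ∀ κ ∈ A.G a m, S.del κ = 0 → S.Cc (γ • X x) L κ ∈ LinearMap.range S.del) :
    ∀ κ ∈ A.G a m, S.del κ = 0 → κ ∈ W0 S A e a m q := by
  classical
  intro κ hκ hz
  refine ⟨hκ, hz, fun c L hc hL hlen => ?_⟩
  have hX : ∀ x : σ, (X x : MvPolynomial σ k).IsHomogeneous 1 := fun x => isHomogeneous_X _ _
  by_cases hc0 : ∃ x, ∃ γ : k, γ ≠ 0 ∧ pderiv x c = C γ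
  · obtain ⟨x, γ, hγ, hxc⟩ := hc0
    set c' := c - γ • X x with hc'
    have hcc' : c = γ • X x + (1 : k) • c' := by rw [one_smul, hc']; abel
    have hγX : (γ • X x : MvPolynomial σ k).IsHomogeneous 1 := by
      rw [smul_eq_C_mul]; exact (hX x).C_mul γ
    have hc'h : c'.IsHomogeneous 1 := hc.sub hγX
    have hγp : pderiv x (γ • X x : MvPolynomial σ k) = C γ := by
      rw [Derivation.map_smul, pderiv_X_self, smul_eq_C_mul, mul_one]
    have hc'x : pderiv x c' = 0 := by
      rw [hc', map_sub, hxc, hγp, sub_self]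
    have key : ∀ (i : ℕ) (L : List (MvPolynomial σ k)), Fk.HomL e L → L.length = q →
        ∀ κ ∈ A.G a m, S.del κ = 0 → S.Cg (γ • X x) c' L i κ ∈ LinearMap.range S.del := by
      intro i
      induction i with
      | zero =>
        intro L hL hlen κ hκ hz
        rw [S.Cg_zero]
        exact h x γ hγ L hL hlen κ hκ hz
      | succ i ih =>
        intro L hL hlen κ hκ hz
        have e1 := congrArg (fun f : Module.End k F => f κ)
          (S.D_Cg hd hγX hc'h x γ hγp hc'x L hL i)
        simp only [Module.End.mul_apply, LinearMap.add_apply, LinearMap.smul_apply] at e1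
        have hne : ((i + 1 : ℕ) : k) * γ ≠ 0 :=
          mul_ne_zero (Nat.cast_ne_zero.mpr (Nat.succ_ne_zero i)) hγ
        have e2 : (((i + 1 : ℕ) : k) * γ) • S.Cg (γ • X x) c' L (i + 1) κ
            = S.D c' x (S.Cg (γ • X x) c' L i κ) - S.Cg (γ • X x) c' L i (S.D c' x κ)
              - ((Fk.Lv (fun f => c' * pderiv x f) L).map
                (fun F' => S.Cg (γ • X x) c' F' i)).sum κ := by
          rw [e1, mul_smul]; abel
        have e3 : (((i + 1 : ℕ) : k) * γ) • S.Cg (γ • X x) c' L (i + 1) κ
            ∈ LinearMap.range S.del := by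
          rw [e2]
          refine sub_mem (sub_mem (D_range hc'h x (ih L hL hlen κ hκ hz))
            (ih L hL hlen _ (D_mem A hκ hc'h x) (D_cycle hc'h x hz))) ?_
          have hδ : ∀ f : MvPolynomial σ k, f.IsHomogeneous e → (c' * pderiv x f).IsHomogeneous e :=
            fun f hf => Fk.hom_cpd hc'h x hf
          have h4 := Fk.Lv_mem hδ L hL
          generalize Fk.Lv (fun f => c' * pderiv x f) L = LL at h4 ⊢
          induction LL with
          | nil => simp
          | cons L' LL ihL =>
            rw [List.map_cons, List.sum_cons, LinearMap.add_apply]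
            refine add_mem (ih L' (h4 L' List.mem_cons_self).1
              (by rw [(h4 L' List.mem_cons_self).2, hlen]) κ hκ hz)
              (ihL fun F' hF' => h4 F' (List.mem_cons_of_mem _ hF'))
        have e4 := Submodule.smul_mem _ (((i + 1 : ℕ) : k) * γ)⁻¹ e3
        rwa [smul_smul, inv_mul_cancel₀ hne, one_smul] at e4
    rw [hcc', S.Cc_expand _ c' 1 L q (by omega), LinearMap.sum_apply]
    refine Submodule.sum_mem _ fun i _ => ?_
    rw [LinearMap.smul_apply]
    exact Submodule.smul_mem _ _ (key i L hL hlen κ hκ hz)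
  · -- `c = 0`
    have hc1 : c = 0 := by
      have h1 : ∀ x : σ, pderiv x c = 0 := by
        intro x
        obtain ⟨γ, hγ⟩ := pderiv_lin hc x
        by_cases h2 : γ = 0
        · rw [hγ, h2, C_0]
        · exact absurd ⟨x, γ, h2, hγ⟩ hc0
      have h2 := hc.sum_X_mul_pderiv
      rw [one_smul] at h2
      rw [← h2]
      exact Finset.sum_eq_zero fun x _ => by rw [h1 x, mul_zero]
    rcases Nat.lt_or_ge L.length 2 with h2 | h2
    · obtain ⟨f, hf⟩ := List.length_eq_one_iff.mp (show L.length = 1 by omega)
      subst hf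
      obtain ⟨x⟩ := (inferInstance : Nonempty σ)
      have := h x 1 one_ne_zero [f] hL hlen κ hκ hz
      rw [S.Cc_one] at this ⊢
      exact this
    · rw [hc1, S.Cc_zero L h2]
      exact zero_mem _

include A Y in
/-- the measure induction for weight vectors which do not involve `x0` -/
lemma meas0 [CharZero k] [LinearOrder σ] (v : σ → ℕ) (hv : StrictMono v) {e : ℕ} (hd : d = e + 1)
    {a m q : ℕ} (hml : ML S A e a (q + 1)) (hm : d + 1 ≤ m) (x0 : σ)
    (hq : min (a + 1) (Fintype.card σ - 1) * (q - 1) < m + d * (a + 1)) :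
    ∀ (N : ℕ) (κ : F) (w : σ → ℕ), κ ∈ A.G (a + 1) m → S.del κ = 0 →
      (∀ x, S.D (X x) x κ = (w x : k) • κ) → w x0 = 0 → ∑ x, v x * w x = N →
      κ ∈ W0 S A e (a + 1) m q := by
  classical
  have hX : ∀ x : σ, (X x : MvPolynomial σ k).IsHomogeneous 1 := fun x => isHomogeneous_X _ _
  intro N
  induction N using Nat.strong_induction_on with
  | _ N ih =>
    intro κ w hκ hz hw hx0 hN
    by_cases hκ0 : κ = 0
    · rw [hκ0]; exact zero_mem _
    by_cases hbig : ∃ x, q ≤ w x
    · obtain ⟨x, hx⟩ := hbig
      exact chain A hd hml hm hκ hz (hw x) hx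
    · push Not at hbig
      have hsum := wt_sum A hκ hκ0 hw
      -- the support is large
      set s : Finset σ := Finset.univ.filter fun x => w x ≠ 0 with hs
      have hs0 : s.card ≤ Fintype.card σ - 1 := by
        have h1 : s ⊆ Finset.univ.erase x0 := by
          intro x hx
          rw [Finset.mem_erase]
          refine ⟨?_, Finset.mem_univ _⟩
          rintro rfl
          exact (Finset.mem_filter.mp hx).2 hx0
        have h2 := Finset.card_le_card h1
        rwa [Finset.card_erase_of_mem (Finset.mem_univ _), Finset.card_univ] at h2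
      have hcard : a + 2 ≤ s.card := by
        by_contra hlt
        have h1 : ∑ x, w x = ∑ x ∈ s, w x := by
          rw [hs, Finset.sum_filter]
          refine Finset.sum_congr rfl fun x _ => ?_
          split_ifs with h
          · rfl
          · simpa using h
        have h2 : ∑ x ∈ s, w x ≤ s.card * (q - 1) := by
          refine Finset.sum_le_card_nsmul s w (q - 1) fun x _ => ?_
          have := hbig x
          omega
        have h3 : s.card * (q - 1) ≤ min (a + 1) (Fintype.card σ - 1) * (q - 1) :=
          Nat.mul_le_mul_right _ (le_min (by omega) hs0)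
        omega
      obtain ⟨t, hts, htc⟩ := Finset.exists_subset_card_eq hcard
      set Z : List σ := t.sort (· ≤ ·) with hZ
      have hZn : Z.Nodup := Finset.sort_nodup _ _
      have hZl : Z.length = (a + 1) + 1 := by rw [hZ, Finset.length_sort, htc]
      have hZs : Z.Pairwise (· < ·) := by
        have := Finset.sortedLT_sort t
        exact this.pairwise
      have hZm : ∀ z ∈ Z, w z ≠ 0 := by
        intro z hz
        have h1 : z ∈ t := (Finset.mem_sort _).mp hz
        exact (Finset.mem_filter.mp (hts h1)).2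
      have hW : ∀ x y : σ, ∀ w ∈ W0 S A e (a + 1) m q, S.D (X x) y w ∈ W0 S A e (a + 1) m q :=
        fun x y w hw => W0_D A hd hw (hX x) y
      have hp : Z.Pairwise fun x y => S.D (X x) y κ ∈ W0 S A e (a + 1) m q := by
        refine List.Pairwise.imp_of_mem ?_ hZs
        intro x y hx hy hlt
        have hxy : x ≠ y := ne_of_lt hlt
        have hwy := hZm y hy
        have hwx := hZm x hx
        refine ih (∑ z, v z * (if z = x then w z + 1 else if z = y then w z - 1 else w z)) ?_
          _ (fun z => if z = x then w z + 1 else if z = y then w z - 1 else w z)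
          (D_mem A hκ (hX x) y) (D_cycle (hX x) y hz) (wt_shift hw hxy hwy) ?_ rfl
        · rw [← hN]
          have h1 : ∑ z, v z * (if z = x then w z + 1 else if z = y then w z - 1 else w z) + v y
              = ∑ z, v z * w z + v x := by
            have h2 : ∀ z ∈ (Finset.univ : Finset σ),
                v z * (if z = x then w z + 1 else if z = y then w z - 1 else w z)
                  + (if z = y then v z else 0) = v z * w z + (if z = x then v z else 0) := by
              intro z _
              by_cases h1 : z = x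
              · subst h1
                rw [if_pos rfl, if_pos rfl, if_neg hxy]
                ring
              · rw [if_neg h1, if_neg h1]
                by_cases h2 : z = y
                · subst h2
                  rw [if_pos rfl, if_pos rfl]
                  obtain ⟨u, hu⟩ : ∃ u, w z = u + 1 := ⟨w z - 1, by omega⟩
                  rw [hu, Nat.add_sub_cancel]
                  ring
                · rw [if_neg h2, if_neg h2]
            have h3 := Finset.sum_congr rfl h2
            rw [Finset.sum_add_distrib, Finset.sum_add_distrib, Finset.sum_ite_eq',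
              Finset.sum_ite_eq'] at h3
            simpa using h3
          have h2 := hv hlt
          omega
        · show (if x0 = x then w x0 + 1 else if x0 = y then w x0 - 1 else w x0) = 0
          rw [if_neg (by rintro rfl; exact hwx hx0), if_neg (by rintro rfl; exact hwy hx0), hx0]
      obtain ⟨n, rfl⟩ : ∃ n, m = n + d + 1 := ⟨m - d - 1, by omega⟩
      obtain ⟨u, hu, hr⟩ := capelli A Y hd hW hκ hw Z hZn hZl hp hZm
      have h1 : κ - u ∈ W0 S A e (a + 1) (n + d + 1) q :=
        range_mem_W0 A hd (sub_mem hκ hu.1) hr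
      have h2 := add_mem h1 hu
      rwa [sub_add_cancel] at h2

include A Y in
lemma ML_dim [CharZero k] [LinearOrder σ] [Nonempty σ] (v : σ → ℕ) (hv : StrictMono v) {e : ℕ}
    (hd : d = e + 1) {p : ℕ}
    (hp : ∀ a, 1 ≤ a → a ≤ p → min a (Fintype.card σ - 1) * (p - a) ≤ (a + 1) * d) :
    ∀ a q, a + q = p + 1 → a ≤ p → ML S A e a q := by
  have hX : ∀ x : σ, (X x : MvPolynomial σ k).IsHomogeneous 1 := fun x => isHomogeneous_X _ _
  intro a
  induction a with
  | zero => intro q _ _; exact ML_zero A hd q
  | succ a ih =>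
    intro q hq ha m hm
    have hml := ih (q + 1) (by omega) (by omega)
    have hin : min (a + 1) (Fintype.card σ - 1) * (q - 1) < m + d * (a + 1) := by
      have h1 := hp (a + 1) (by omega) ha
      have h2 : p - (a + 1) = q - 1 := by omega
      rw [h2] at h1
      have h3 : (a + 1 + 1) * d = d * (a + 1) + d := by ring
      omega
    refine all_c A hd (by omega) ?_
    intro x γ hγ L hL hlen κ hκ hz
    have h1 := wt_span A hκ hz
    have h2 : Submodule.span k {v | (v ∈ A.G (a + 1) m ∧ S.del v = 0) ∧
        ∃ w : σ → ℕ, ∀ x, S.D (X x) x v = (w x : k) • v}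
        ≤ (LinearMap.range S.del).comap (S.Cc (γ • X x) L) := by
      rw [Submodule.span_le]
      rintro u ⟨⟨hu, huz⟩, w, hw⟩
      show S.Cc (γ • X x) L u ∈ LinearMap.range S.del
      have hγX : (γ • X x : MvPolynomial σ k).IsHomogeneous 1 := by
        rw [smul_eq_C_mul]; exact (hX x).C_mul γ
      by_cases hwx : w x = 0
      · exact (meas0 A Y v hv hd hml hm x hin _ u w hu huz hw hwx rfl).2.2 _ L hγX hL hlen
      · have h3 := star A hd hml hm hu huz hγX x hL hlen
        rw [S.D_smul, LinearMap.smul_apply, hw x, smul_smul, map_smul] at h3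
        have hne : γ * (w x : k) ≠ 0 := mul_ne_zero hγ (Nat.cast_ne_zero.mpr hwx)
        have h4 := Submodule.smul_mem _ (γ * (w x : k))⁻¹ h3
        rwa [smul_smul, inv_mul_cancel₀ hne, one_smul] at h4
    exact h2 h1

include A Y in
/-- the abstract main theorem with the number of variables -/
theorem abstract_dim [CharZero k] [LinearOrder σ] [Nonempty σ] (v : σ → ℕ) (hv : StrictMono v)
    {e : ℕ} (hd : d = e + 1) {p : ℕ}
    (hp : ∀ a, 1 ≤ a → a ≤ p → min a (Fintype.card σ - 1) * (p - a) ≤ (a + 1) * d)
    {m : ℕ} (hm : 2 * d ≤ m) {κ : F} (hκ : κ ∈ A.G p m) (hz : S.del κ = 0) :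
    κ ∈ LinearMap.range S.del :=
  vanish_of_ML A hd (ML_dim A Y v hv hd hp) hm hκ hz

end

end Pool.Agent.H27.OP
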