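import Pool.Agent.H27.OP.Ring

set_option autoImplicit false
set_option linter.unusedSectionVars false

/-!
# Ottaviani-Paoletti: one additional odd letter `τ`
-/

open MvPolynomial

namespace Pool.Agent.H27.OP

variable {σ k : Type*} [Fintype σ] [Field k]

/-- operator algebra with one odd letter `τ` (`th` = multiplication by `τ`, `dth` its derivative)
and even slots `[u τ]`, `u` a monomial of degree `e = d - 1` (`b`, `db`). -/
structure Fx (σ k O : Type*) [Fintype σ] [Field k] [Ring O] [Algebra k O] (d : ℕ)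
    extends Fk σ k O d where
  th : O
  dth : O
  b : (σ →₀ ℕ) → O
  db : (σ →₀ ℕ) → O
  thth : th * th = 0
  dd : dth * th = 1 - th * dth
  thE : ∀ μ, th * E μ = -(E μ * th)
  thJ : ∀ μ, th * J μ = -(J μ * th)
  thm : ∀ a, th * m a = m a * th
  thT : ∀ x, th * T x = T x * th
  dthE : ∀ μ, dth * E μ = -(E μ * dth)
  dthJ : ∀ μ, dth * J μ = -(J μ * dth)
  dthm : ∀ a, dth * m a = m a * dth
  dthT : ∀ x, dth * T x = T x * dth
  dbb : ∀ μ ν, μ ≠ ν → db μ * b ν = b ν * db μ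
  dbbs : ∀ μ, db μ * b μ = b μ * db μ + 1
  bb : ∀ μ ν, b μ * b ν = b ν * b μ
  dbdb : ∀ μ ν, db μ * db ν = db ν * db μ
  bE : ∀ μ ν, b μ * E ν = E ν * b μ
  bJ : ∀ μ ν, b μ * J ν = J ν * b μ
  bm : ∀ μ a, b μ * m a = m a * b μ
  bT : ∀ μ x, b μ * T x = T x * b μ
  bth : ∀ μ, b μ * th = th * b μ
  bdth : ∀ μ, b μ * dth = dth * b μ
  dbE : ∀ μ ν, db μ * E ν = E ν * db μ
  dbJ : ∀ μ ν, db μ * J ν = J ν * db μ
  dbm : ∀ μ a, db μ * m a = m a * db μ
  dbT : ∀ μ x, db μ * T x = T x * db μ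
  dbth : ∀ μ, db μ * th = th * db μ
  dbdth : ∀ μ, db μ * dth = dth * db μ

namespace Fx

variable {O : Type*} [Ring O] [Algebra k O] {d : ℕ} (S : Fx σ k O d)

/-- slot `[u τ]` -/
noncomputable def Bb (S : Fx σ k O d) (e : ℕ) : MvPolynomial σ k →ₗ[k] O :=
  ∑ ν ∈ Mo σ e, (MvPolynomial.lcoeff k ν).smulRight (S.b ν)

lemma Bb_apply (e : ℕ) (u : MvPolynomial σ k) : S.Bb e u = ∑ ν ∈ Mo σ e, coeff ν u • S.b ν := by
  unfold Bb
  simp [LinearMap.sum_apply]

lemma Bb_comm {e : ℕ} (u : MvPolynomial σ k) (X : O) (h : ∀ ν, S.b ν * X = X * S.b ν) :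
    S.Bb e u * X = X * S.Bb e u := by
  rw [Bb_apply, Finset.mul_sum, Finset.sum_mul]
  refine Finset.sum_congr rfl fun μ _ => ?_
  rw [mul_smul_comm, smul_mul_assoc, h]

lemma Bb_Bb {e : ℕ} (u v : MvPolynomial σ k) : S.Bb e u * S.Bb e v = S.Bb e v * S.Bb e u := by
  refine S.Bb_comm u _ fun ν => ?_
  exact (S.Bb_comm v (S.b ν) (fun μ => S.bb μ ν)).symm

lemma db_Bb {e : ℕ} {ν : σ →₀ ℕ} (hν : ν ∈ Mo σ e) (u : MvPolynomial σ k) :
    S.db ν * S.Bb e u = S.Bb e u * S.db ν + coeff ν u • (1 : O) := by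
  classical
  rw [Bb_apply, Finset.mul_sum, Finset.sum_mul]
  have h : ∀ μ ∈ Mo σ e, S.db ν * coeff μ u • S.b μ
      = coeff μ u • S.b μ * S.db ν + (if μ = ν then coeff ν u • (1 : O) else 0) := by
    intro μ _
    by_cases h : μ = ν
    · subst h
      rw [if_pos rfl, mul_smul_comm, S.dbbs, smul_add, smul_mul_assoc]
    · rw [if_neg h, mul_smul_comm, S.dbb ν μ (Ne.symm h), add_zero, smul_mul_assoc]
  rw [Finset.sum_congr rfl h, Finset.sum_add_distrib, Finset.sum_ite_eq' (Mo σ e) ν, if_pos hν]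

lemma Ee_comm_th (u : MvPolynomial σ k) : S.th * S.Ee u = -(S.Ee u * S.th) := by
  rw [Fk.Ee_apply, Finset.mul_sum, Finset.sum_mul, ← Finset.sum_neg_distrib]
  refine Finset.sum_congr rfl fun μ _ => ?_
  rw [mul_smul_comm, smul_mul_assoc, S.thE, smul_neg]

lemma Ee_comm_dth (u : MvPolynomial σ k) : S.dth * S.Ee u = -(S.Ee u * S.dth) := by
  rw [Fk.Ee_apply, Finset.mul_sum, Finset.sum_mul, ← Finset.sum_neg_distrib]
  refine Finset.sum_congr rfl fun μ _ => ?_
  rw [mul_smul_comm, smul_mul_assoc, S.dthE, smul_neg]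

lemma db_Ee (ν : σ →₀ ℕ) (u : MvPolynomial σ k) : S.db ν * S.Ee u = S.Ee u * S.db ν := by
  rw [Fk.Ee_apply, Finset.mul_sum, Finset.sum_mul]
  refine Finset.sum_congr rfl fun μ _ => ?_
  rw [mul_smul_comm, smul_mul_assoc, S.dbE]

lemma Bb_Ee {e : ℕ} (v u : MvPolynomial σ k) : S.Bb e v * S.Ee u = S.Ee u * S.Bb e v := by
  refine S.Bb_comm v _ fun ν => ?_
  rw [Fk.Ee_apply, Finset.mul_sum, Finset.sum_mul]
  refine Finset.sum_congr rfl fun μ _ => ?_
  rw [mul_smul_comm, smul_mul_assoc, S.bE]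

/-- `D_{τ,z}` -/
noncomputable def Tz (S : Fx σ k O d) (e : ℕ) (z : σ) : O :=
  S.th * S.T z + ∑ μ ∈ Mo σ d, S.Bb e (pderiv z (monomial μ 1)) * S.J μ

/-- `D_{x,τ}` -/
noncomputable def Rx (S : Fx σ k O d) (e : ℕ) (x : σ) : O :=
  S.m (X x) * S.dth + ∑ ν ∈ Mo σ e, S.Ee (X x * monomial ν 1) * S.db ν

/-- the even part -/
noncomputable def Dx (S : Fx σ k O d) (e : ℕ) (x y : σ) : O :=
  S.D (X x) y + ∑ ν ∈ Mo σ e, S.Bb e (pderiv y (X x * monomial ν 1)) * S.db ν

lemma hom_X (x : σ) : (X x : MvPolynomial σ k).IsHomogeneous 1 := isHomogeneous_X _ _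

open Classical in
lemma Rx_Tz {e : ℕ} (hd : d = e + 1) (x y : σ) :
    S.Rx e x * S.Tz e y + S.Tz e y * S.Rx e x
      = S.Dx e x y + (if x = y then S.th * S.dth else 0) := by
  have h1 : S.m (X x) * S.dth * (S.th * S.T y) + S.th * S.T y * (S.m (X x) * S.dth)
      = S.m (X x) * S.T y + (if x = y then S.th * S.dth else 0) := by
    have e1 : S.m (X x) * S.dth * (S.th * S.T y) = S.m (X x) * S.T y
        - S.m (X x) * S.T y * (S.th * S.dth) := by
      rw [mul_assoc, ← mul_assoc S.dth, S.dd, sub_mul, one_mul, mul_sub, mul_assoc S.th, S.dthT,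
        ← mul_assoc S.th, S.thT, mul_assoc, mul_assoc]
    have e2 : S.th * S.T y * (S.m (X x) * S.dth) = S.m (X x) * S.T y * (S.th * S.dth)
        + (if x = y then S.th * S.dth else 0) := by
      rw [S.thT, mul_assoc, ← mul_assoc S.th, S.thm, mul_assoc (S.m (X x)), ← mul_assoc (S.T y),
        S.Tm, add_mul, pderiv_X]
      congr 1
      by_cases h : x = y
      · subst h; simp
      · rw [if_neg h, Pi.single_eq_of_ne h]; simp
    rw [e1, e2]
    abel
  have h2 : S.m (X x) * S.dth * (∑ μ ∈ Mo σ d, S.Bb e (pderiv y (monomial μ 1)) * S.J μ)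
      = - ((∑ μ ∈ Mo σ d, S.Bb e (pderiv y (monomial μ 1)) * S.J μ) * (S.m (X x) * S.dth)) := by
    rw [Finset.mul_sum, Finset.sum_mul, ← Finset.sum_neg_distrib]
    refine Finset.sum_congr rfl fun μ _ => ?_
    rw [mul_assoc, mul_assoc, ← mul_assoc S.dth, ← S.Bb_comm _ S.dth (fun ν => S.bdth ν),
      mul_assoc _ S.dth, S.dthJ, ← mul_assoc (S.m (X x)),
      ← S.Bb_comm _ (S.m (X x)) (fun ν => S.bm ν _), mul_neg, mul_assoc, ← mul_assoc (S.m (X x)),
      S.mJ, mul_assoc]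
  have h3 : (∑ ν ∈ Mo σ e, S.Ee (X x * monomial ν 1) * S.db ν) * (S.th * S.T y)
      = - (S.th * S.T y * (∑ ν ∈ Mo σ e, S.Ee (X x * monomial ν 1) * S.db ν)) := by
    rw [Finset.mul_sum, Finset.sum_mul, ← Finset.sum_neg_distrib]
    refine Finset.sum_congr rfl fun μ _ => ?_
    rw [mul_assoc, ← mul_assoc (S.db μ), S.dbth, mul_assoc, S.dbT, ← mul_assoc, ← mul_assoc,
      mul_assoc S.th, ← mul_assoc (S.T y), S.TEe, ← mul_assoc S.th, ← mul_assoc S.th, S.Ee_comm_th]
    rw [neg_mul, neg_mul, neg_neg]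
  have h4 : (∑ ν ∈ Mo σ e, S.Ee (X x * monomial ν 1) * S.db ν)
        * (∑ μ ∈ Mo σ d, S.Bb e (pderiv y (monomial μ 1)) * S.J μ)
      = - ((∑ μ ∈ Mo σ d, S.Bb e (pderiv y (monomial μ 1)) * S.J μ)
          * (∑ ν ∈ Mo σ e, S.Ee (X x * monomial ν 1) * S.db ν))
        + ∑ ν ∈ Mo σ e, S.Bb e (pderiv y (X x * monomial ν 1)) * S.db ν
        + ∑ μ ∈ Mo σ d, S.Ee (X x * pderiv y (monomial μ 1)) * S.J μ := by
    have e1 : ∀ ν ∈ Mo σ e, ∀ μ ∈ Mo σ d,
        S.Ee (X x * monomial ν 1) * S.db ν * (S.Bb e (pderiv y (monomial μ 1)) * S.J μ)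
        = - (S.Bb e (pderiv y (monomial μ 1)) * S.J μ * (S.Ee (X x * monomial ν 1) * S.db ν))
          + coeff μ (X x * monomial ν (1 : k)) •
            ((S.Bb e).comp (pderiv y).toLinearMap (monomial μ 1) * S.db ν)
          + coeff ν (pderiv y (monomial μ (1 : k))) •
            (S.Ee.comp (LinearMap.mulLeft k (X x)) (monomial ν 1) * S.J μ) := by
      intro ν hν μ hμ
      have a1 : S.Ee (X x * monomial ν 1) * S.db ν * (S.Bb e (pderiv y (monomial μ 1)) * S.J μ)
          = S.Bb e (pderiv y (monomial μ 1)) * (S.Ee (X x * monomial ν 1) * S.J μ) * S.db ν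
            + coeff ν (pderiv y (monomial μ (1 : k))) • (S.Ee (X x * monomial ν 1) * S.J μ) := by
        rw [mul_assoc, ← mul_assoc (S.db ν), S.db_Bb hν, add_mul, mul_add, smul_mul_assoc, one_mul,
          mul_smul_comm, mul_assoc _ (S.db ν), S.dbJ, ← mul_assoc, ← S.Bb_Ee, mul_assoc, mul_assoc,
          mul_assoc]
      have a2 : S.Bb e (pderiv y (monomial μ 1)) * S.J μ * (S.Ee (X x * monomial ν 1) * S.db ν)
          = coeff μ (X x * monomial ν (1 : k)) • (S.Bb e (pderiv y (monomial μ 1)) * S.db ν)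
            - S.Bb e (pderiv y (monomial μ 1)) * (S.Ee (X x * monomial ν 1) * S.J μ) * S.db ν := by
        rw [mul_assoc, ← mul_assoc (S.J μ), S.JEe hμ, sub_mul, mul_sub, smul_mul_assoc, one_mul,
          mul_smul_comm]
        simp only [mul_assoc]
      rw [a1, a2, LinearMap.comp_apply, LinearMap.comp_apply, LinearMap.mulLeft_apply]
      simp only [Derivation.coeFn_coe]
      abel
    rw [Finset.sum_mul_sum, Finset.sum_congr rfl fun ν hν => Finset.sum_congr rfl (e1 ν hν)]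
    simp only [Finset.sum_add_distrib]
    congr 1
    · congr 1
      · rw [Finset.sum_comm, Finset.sum_mul_sum, ← Finset.sum_neg_distrib]
        refine Finset.sum_congr rfl fun μ _ => ?_
        rw [← Finset.sum_neg_distrib]
      · refine Finset.sum_congr rfl fun ν hν => ?_
        have hh : (X x * monomial ν (1 : k)).IsHomogeneous d := by
          rw [hd, add_comm]
          exact (hom_X x).mul (isHomogeneous_monomial _ (mem_Mo.mp hν))
        have := sum_coeff ((S.Bb e).comp (pderiv y).toLinearMap) hh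
        rw [LinearMap.comp_apply] at this
        simp only [Derivation.coeFn_coe] at this ⊢
        rw [← this, Finset.sum_mul]
        simp only [smul_mul_assoc]
    · rw [Finset.sum_comm]
      refine Finset.sum_congr rfl fun μ hμ => ?_
      have hh : (pderiv y (monomial μ (1 : k))).IsHomogeneous e := by
        have := (isHomogeneous_monomial (1 : k) (mem_Mo.mp hμ)).pderiv (i := y)
        rwa [hd, Nat.add_sub_cancel] at this
      have := sum_coeff (S.Ee.comp (LinearMap.mulLeft k (X x))) hh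
      rw [LinearMap.comp_apply, LinearMap.mulLeft_apply] at this
      rw [← this, Finset.sum_mul]
      simp only [smul_mul_assoc]
  have h5 : S.D (X x) y = S.m (X x) * S.T y
      + ∑ μ ∈ Mo σ d, S.Ee (X x * pderiv y (monomial μ 1)) * S.J μ := rfl
  unfold Rx Tz Dx
  rw [add_mul, mul_add, mul_add, add_mul, mul_add, mul_add, h5, h2, h3, h4,
    show S.m (X x) * S.T y = S.m (X x) * S.dth * (S.th * S.T y) + S.th * S.T y * (S.m (X x) * S.dth)
      - (if x = y then S.th * S.dth else 0) by rw [h1]; abel]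
  abel

end Fx

end Pool.Agent.H27.OP
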