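import Pool.Agent.H27.OP.Dim
import Pool.Agent.H27.OP.Final

set_option autoImplicit false
set_option linter.unusedSectionVars false

/-!
# Ottaviani-Paoletti: the main theorem for the Koszul complex, with the number of variables
-/

open MvPolynomial

namespace Pool.Agent.H27.OP

variable {σ k : Type*} [Fintype σ] [Field k]

/-- the arithmetic of the hypothesis -/
lemma cond_min {n d p i : ℕ} (hp : ∀ a, 1 ≤ a → a ≤ n → a * (p - a) ≤ (a + 1) * d)
    (hn : 1 ≤ n) (hi : i ≤ p) : ∀ a, 1 ≤ a → a ≤ i → min a n * (i - a) ≤ (a + 1) * d := by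
  intro a ha _
  rcases le_or_gt a n with h | h
  · rw [min_eq_left h]
    exact le_trans (Nat.mul_le_mul_left _ (by omega)) (hp a ha h)
  · rw [min_eq_right h.le]
    calc n * (i - a) ≤ n * (p - n) := Nat.mul_le_mul_left _ (by omega)
      _ ≤ (n + 1) * d := hp n hn le_rfl
      _ ≤ (a + 1) * d := Nat.mul_le_mul_right _ (by omega)

/-- **Main theorem**, in the form which depends on the dimension. -/
theorem koszul_exact_dim (n d p : ℕ) (hn : 1 ≤ n) (hd : 1 ≤ d)
    (hp : ∀ a, 1 ≤ a → a ≤ n → a * (p - a) ≤ (a + 1) * d)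
    {K : Type*} [Field K] [CharZero K]
    (N : ℕ) (φ : Fin N → MvPolynomial (Fin (n + 1)) K)
    (hφ : ∀ i, φ i ∈ homogeneousSubmodule (Fin (n + 1)) K d)
    (hli : LinearIndependent K φ)
    (hsp : Submodule.span K (Set.range φ) = homogeneousSubmodule (Fin (n + 1)) K d)
    (i : ℕ) (hi : i ≤ p) (m : ℕ) (hm : 2 * d ≤ m)
    (f : Finset (Fin N) → MvPolynomial (Fin (n + 1)) K)
    (hf : ∀ I, f I ∈ homogeneousSubmodule (Fin (n + 1)) K m)
    (hf0 : ∀ I : Finset (Fin N), I.card ≠ i → f I = 0)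
    (hz : ∀ J : Finset (Fin N), J.card + 1 = i →
      ∑ b ∈ Jᶜ, (-1 : MvPolynomial (Fin (n + 1)) K) ^ (J.filter (fun c => c < b)).card
        * φ b * f (insert b J) = 0) :
    ∃ g : Finset (Fin N) → MvPolynomial (Fin (n + 1)) K,
      (∀ I, g I ∈ homogeneousSubmodule (Fin (n + 1)) K (m - d)) ∧
      (∀ I : Finset (Fin N), I.card ≠ i + 1 → g I = 0) ∧
      ∀ I : Finset (Fin N), I.card = i →
        f I = ∑ b ∈ Iᶜ, (-1 : MvPolynomial (Fin (n + 1)) K) ^ (I.filter (fun c => c < b)).card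
          * φ b * g (insert b I) := by
  obtain ⟨B, rfl⟩ := exists_Bs φ hφ hli hsp
  have hdel : ∀ (h : Finset (Fin N) → MvPolynomial (Fin (n + 1)) K) (I : Finset (Fin N)),
      (SK B).del h I
        = ∑ b ∈ Iᶜ, (-1 : MvPolynomial (Fin (n + 1)) K) ^ (I.filter (fun c => c < b)).card
          * B.φ b * h (insert b I) := by
    intro h I
    have h1 : Iᶜ = Finset.univ.filter (fun b => ¬ b ∈ I) := by
      ext b; simp
    rw [SK_del, h1, Finset.sum_filter]
    refine Finset.sum_congr rfl fun b _ => ?_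
    rw [aJ_apply]
    by_cases hb : b ∈ I
    · rw [if_pos hb, if_neg (not_not.mpr hb), mul_zero]
    · rw [if_neg hb, if_pos hb, sgn, smul_eq_C_mul, map_pow, map_neg, C_1]
      ring
  have hfG : f ∈ (AK B).G i m := fun I =>
    ⟨(mem_homogeneousSubmodule _ _).mp (hf I), fun hI => hf0 I hI⟩
  have hfz : (SK B).del f = 0 := by
    funext J
    rw [hdel]
    by_cases hJ : J.card + 1 = i
    · exact hz J hJ
    · refine Finset.sum_eq_zero fun b hb => ?_
      rw [hf0 (insert b J) (by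
        rw [Finset.card_insert_of_notMem (Finset.mem_compl.mp hb)]; exact hJ), mul_zero]
  obtain ⟨e, he⟩ : ∃ e, d = e + 1 := ⟨d - 1, by omega⟩
  have hpi : ∀ a, 1 ≤ a → a ≤ i →
      min a (Fintype.card (Fin (n + 1)) - 1) * (i - a) ≤ (a + 1) * d := by
    intro a h1 h2
    rw [Fintype.card_fin, Nat.add_sub_cancel]
    exact cond_min hp hn hi a h1 h2
  obtain ⟨ω0, hω0⟩ := abstract_dim (AK B) (XK B) (fun x : Fin (n + 1) => (x : ℕ))
    (fun _ _ h => h) he hpi hm hfG hfz
  have h1 : (SK B).del ω0 ∈ (AK B).G i (m - d + d) := by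
    rw [hω0, Nat.sub_add_cancel (by omega)]
    exact hfG
  obtain ⟨ω, hω, hωd⟩ := (AK B).lift h1
  refine ⟨ω, fun I => (mem_homogeneousSubmodule _ _).mpr (hω I).1, fun I hI => (hω I).2 hI, ?_⟩
  intro I _
  rw [← hdel, hωd, hω0]

end Pool.Agent.H27.OP
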