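import Pool.Agent.H27.OP.Abs
import Pool.Agent.H27.OP.Car

set_option autoImplicit false
set_option linter.unusedSectionVars false

/-!
# Ottaviani-Paoletti: the concrete Koszul complex
-/

open MvPolynomial

namespace Pool.Agent.H27.OP

variable {σ k : Type*} [Fintype σ] [Field k]

/-- coefficients: the polynomial ring itself -/
noncomputable def CfP (σ k : Type*) [Fintype σ] [Field k] : Cf σ k (MvPolynomial σ k) where
  m := Algebra.lmul k (MvPolynomial σ k)
  T x := (pderiv x).toLinearMap
  par := 1
  Tm x a := by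
    refine LinearMap.ext fun f => ?_
    simp only [Module.End.mul_apply, LinearMap.add_apply, Algebra.coe_lmul_eq_mul,
      LinearMap.mul_apply', Derivation.coeFn_coe, Derivation.leibniz, smul_eq_mul]
    ring
  TT x y := by
    refine LinearMap.ext fun f => ?_
    simp only [Module.End.mul_apply, Derivation.coeFn_coe]
    exact pderiv_pderiv_comm' x y f
  pp := one_mul _
  pm _ := by rw [one_mul, mul_one]
  pT _ := by rw [one_mul, mul_one]

/-! ### division by a variable -/

/-- division by `x` -/
noncomputable def dvx (x : σ) : Module.End k (MvPolynomial σ k) where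
  toFun f := MvPolynomial.divMonomial f (Finsupp.single x 1)
  map_add' f g := add_divMonomial _ _ _
  map_smul' t f := by
    refine MvPolynomial.ext _ _ fun ν => ?_
    rw [coeff_divMonomial, coeff_smul, RingHom.id_apply, coeff_smul, coeff_divMonomial]

lemma coeff_dvx (x : σ) (f : MvPolynomial σ k) (ν : σ →₀ ℕ) :
    coeff ν (dvx x f) = coeff (Finsupp.single x 1 + ν) f := coeff_divMonomial _ _ _

lemma dvx_X (x : σ) (f : MvPolynomial σ k) : dvx x (X x * f) = f := by
  refine MvPolynomial.ext _ _ fun ν => ?_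
  rw [coeff_dvx, coeff_X_mul]

lemma dvx_mon (x : σ) (μ : σ →₀ ℕ) (h : μ x = 0) (f : MvPolynomial σ k) :
    dvx x (monomial μ 1 * f) = monomial μ 1 * dvx x f := by
  classical
  refine MvPolynomial.ext _ _ fun ν => ?_
  rw [coeff_dvx, coeff_monomial_mul', coeff_monomial_mul']
  have h1 : μ ≤ Finsupp.single x 1 + ν ↔ μ ≤ ν := by
    constructor
    · intro h2 y
      have := h2 y
      by_cases hy : y = x
      · subst hy; omega
      · simpa [Finsupp.single_eq_of_ne hy] using this
    · intro h2 y
      have := h2 y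
      simp only [Finsupp.coe_add, Pi.add_apply]
      omega
  by_cases h2 : μ ≤ ν
  · rw [if_pos h2, if_pos (h1.mpr h2), coeff_dvx]
    congr 2
    ext y
    have := h2 y
    simp only [Finsupp.coe_add, Finsupp.coe_tsub, Pi.add_apply, Pi.sub_apply]
    omega
  · rw [if_neg h2, if_neg (fun h3 => h2 (h1.mp h3))]

lemma hom_X_dvx (x : σ) {m : ℕ} {f : MvPolynomial σ k} (hf : f.IsHomogeneous m) :
    (X x * dvx x f).IsHomogeneous m := by
  rcases m with _ | m
  · have h1 : dvx x f = 0 := by
      refine MvPolynomial.ext _ _ fun ν => ?_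
      rw [coeff_dvx, coeff_zero]
      by_contra h
      have h2 : (Finsupp.single x 1 + ν).degree = 0 := by
        rw [Finsupp.degree_eq_weight_one]; exact hf h
      rw [map_add, Finsupp.degree_single] at h2
      omega
    rw [h1, mul_zero]
    exact isHomogeneous_zero _ _ _
  · have h1 : (dvx x f).IsHomogeneous m := by
      intro ν hν
      rw [coeff_dvx] at hν
      have h2 : (Finsupp.single x 1 + ν).degree = m + 1 := by
        rw [Finsupp.degree_eq_weight_one]; exact hf hν
      rw [map_add, Finsupp.degree_single] at h2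
      have h3 : ν.degree = m := by omega
      rw [Finsupp.degree_eq_weight_one] at h3
      exact h3
    have := (isHomogeneous_X k x).mul h1
    rwa [add_comm] at this

/-- specialisation `x = 0` -/
noncomputable def rhx (x : σ) : Module.End k (MvPolynomial σ k) :=
  1 - (LinearMap.mulLeft k (X x)) ∘ₗ dvx x

lemma rhx_apply (x : σ) (f : MvPolynomial σ k) : rhx x f = f - X x * dvx x f := rfl

/-! ### homogeneous components -/

lemma homComp_mul {d : ℕ} {φ : MvPolynomial σ k} (hφ : φ.IsHomogeneous d) (m : ℕ)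
    (g : MvPolynomial σ k) :
    homogeneousComponent (m + d) (φ * g) = φ * homogeneousComponent m g := by
  have h1 : ∀ i, homogeneousComponent (m + d) (φ * homogeneousComponent i g)
      = if i = m then φ * homogeneousComponent m g else 0 := by
    intro i
    have h2 : (φ * homogeneousComponent i g).IsHomogeneous (d + i) :=
      hφ.mul (homogeneousComponent_isHomogeneous i g)
    rw [homogeneousComponent_of_mem h2]
    by_cases h : i = m
    · subst h
      rw [if_pos (by omega), if_pos rfl]
    · rw [if_neg (by omega), if_neg h]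
  conv_lhs => rw [← sum_homogeneousComponent g, Finset.mul_sum, map_sum]
  rw [Finset.sum_congr rfl fun i _ => h1 i, Finset.sum_ite_eq']
  split_ifs with h
  · rfl
  · have : homogeneousComponent m g = 0 := by
      apply homogeneousComponent_eq_zero
      rw [Finset.mem_range] at h
      omega
    rw [this, mul_zero]

/-! ### basis data -/

/-- a basis of the forms of degree `d`, with coordinates -/
structure Bs (σ k : Type*) [Fintype σ] [Field k] (N d : ℕ) extends Mx σ k N d where
  φ : Fin N → MvPolynomial σ k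
  hom : ∀ i, (φ i).IsHomogeneous d
  coe : ∀ μ ∈ Mo σ d, ∀ i, γ μ i = coeff μ (φ i)
  ag : ∀ i j, ∑ μ ∈ Mo σ d, α μ i * γ μ j = if i = j then 1 else 0

section

variable {N d : ℕ} (B : Bs σ k N d)

/-- the operator algebra data of the Koszul complex -/
noncomputable def SK : Fk σ k (Module.End k (Finset (Fin N) → MvPolynomial σ k)) d :=
  mkFk (CfP σ k) B.toMx

lemma SK_m (a : MvPolynomial σ k) (f : Finset (Fin N) → MvPolynomial σ k) (I : Finset (Fin N)) :
    (SK B).m a f I = a * f I := rfl

lemma SK_T (x : σ) (f : Finset (Fin N) → MvPolynomial σ k) (I : Finset (Fin N)) :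
    (SK B).T x f I = pderiv x (f I) := rfl

lemma SK_E (μ : σ →₀ ℕ) (f : Finset (Fin N) → MvPolynomial σ k) :
    (SK B).E μ f = ∑ i, B.α μ i • aE k i f := by
  show bE (CfP σ k) B.toMx μ f = _
  unfold bE
  rw [Module.End.mul_apply, LinearMap.sum_apply]
  rfl

lemma SK_J (μ : σ →₀ ℕ) (f : Finset (Fin N) → MvPolynomial σ k) :
    (SK B).J μ f = ∑ i, B.γ μ i • aJ k i f := by
  show bJ (CfP σ k) B.toMx μ f = _
  unfold bJ
  rw [Module.End.mul_apply, LinearMap.sum_apply]
  rfl

lemma SK_del (f : Finset (Fin N) → MvPolynomial σ k) (I : Finset (Fin N)) :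
    (SK B).del f I = ∑ i, B.φ i * aJ k i f I := by
  rw [Fk.del_eq, LinearMap.sum_apply, Finset.sum_apply]
  have h1 : ∀ μ ∈ Mo σ d, ((SK B).m (monomial μ 1) * (SK B).J μ) f I
      = ∑ i, (coeff μ (B.φ i) • monomial μ (1 : k)) * aJ k i f I := by
    intro μ hμ
    rw [Module.End.mul_apply, SK_m, SK_J, Finset.sum_apply, Finset.mul_sum]
    refine Finset.sum_congr rfl fun i _ => ?_
    rw [Pi.smul_apply, B.coe μ hμ, mul_smul_comm, smul_mul_assoc]
  rw [Finset.sum_congr rfl h1, Finset.sum_comm]
  refine Finset.sum_congr rfl fun i _ => ?_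
  rw [← Finset.sum_mul]
  congr 1
  have := sum_coeff (LinearMap.id : MvPolynomial σ k →ₗ[k] MvPolynomial σ k) (B.hom i)
  simpa only [LinearMap.id_apply] using this

/-- the gradings -/
def GK (σ k : Type*) [Fintype σ] [Field k] (N : ℕ) (p m : ℕ) :
    Submodule k (Finset (Fin N) → MvPolynomial σ k) where
  carrier := {f | ∀ I, (f I).IsHomogeneous m ∧ (I.card ≠ p → f I = 0)}
  add_mem' := by
    intro f g hf hg I
    refine ⟨(hf I).1.add (hg I).1, fun h => ?_⟩
    rw [Pi.add_apply, (hf I).2 h, (hg I).2 h, add_zero]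
  zero_mem' := fun I => ⟨isHomogeneous_zero _ _ _, fun _ => rfl⟩
  smul_mem' := by
    intro t f hf I
    refine ⟨?_, fun h => by rw [Pi.smul_apply, (hf I).2 h, smul_zero]⟩
    rw [Pi.smul_apply, smul_eq_C_mul]
    exact (hf I).1.C_mul t

lemma mem_GK {p m : ℕ} {f : Finset (Fin N) → MvPolynomial σ k} :
    f ∈ GK σ k N p m ↔ ∀ I, (f I).IsHomogeneous m ∧ (I.card ≠ p → f I = 0) := Iff.rfl

lemma hom_smul {m : ℕ} {f : MvPolynomial σ k} (h : f.IsHomogeneous m) (t : k) :
    (t • f).IsHomogeneous m := by
  rw [smul_eq_C_mul]; exact h.C_mul t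

lemma aJ_GK {p m : ℕ} {f : Finset (Fin N) → MvPolynomial σ k} (h : f ∈ GK σ k N (p + 1) m)
    (i : Fin N) : aJ k i f ∈ GK σ k N p m := by
  intro I
  rw [aJ_apply]
  split_ifs with hi
  · exact ⟨isHomogeneous_zero _ _ _, fun _ => rfl⟩
  · refine ⟨hom_smul (h _).1 _, fun hI => ?_⟩
    rw [(h (insert i I)).2 (by rw [Finset.card_insert_of_notMem hi]; omega), smul_zero]

lemma aJ_GK0 {m : ℕ} {f : Finset (Fin N) → MvPolynomial σ k} (h : f ∈ GK σ k N 0 m)
    (i : Fin N) : aJ k i f = 0 := by
  funext I
  rw [aJ_apply]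
  split_ifs with hi
  · rfl
  · rw [(h (insert i I)).2 (by rw [Finset.card_insert_of_notMem hi]; omega), smul_zero]
    rfl

lemma aE_GK {p m : ℕ} {f : Finset (Fin N) → MvPolynomial σ k} (h : f ∈ GK σ k N p m)
    (i : Fin N) : aE k i f ∈ GK σ k N (p + 1) m := by
  intro I
  rw [aE_apply]
  split_ifs with hi
  · refine ⟨hom_smul (h _).1 _, fun hI => ?_⟩
    have h1 := Finset.card_erase_add_one hi
    rw [(h (I.erase i)).2 (by omega), smul_zero]
  · exact ⟨isHomogeneous_zero _ _ _, fun _ => rfl⟩

lemma sum_aE_aJ {p m : ℕ} {f : Finset (Fin N) → MvPolynomial σ k} (h : f ∈ GK σ k N p m) :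
    ∑ i, aE k i (aJ k i f) = (p : k) • f := by
  funext I
  rw [Finset.sum_apply, Pi.smul_apply]
  rw [Finset.sum_congr rfl fun i _ => aEJs_apply i f I, Finset.sum_ite_mem,
    Finset.univ_inter, Finset.sum_const]
  by_cases hI : I.card = p
  · rw [hI, Nat.cast_smul_eq_nsmul]
  · rw [(h I).2 hI, smul_zero, smul_zero]

/-- the graded structure of the Koszul complex -/
noncomputable def AK : Gr (SK B) where
  G := GK σ k N
  GJ {p m μ ω} h := by
    rw [SK_J]
    exact Submodule.sum_mem _ fun i _ => Submodule.smul_mem _ _ (aJ_GK h i)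
  GJ0 {m μ ω} h := by
    rw [SK_J]
    exact Finset.sum_eq_zero fun i _ => by rw [aJ_GK0 h, smul_zero]
  GE {p m μ ω} h := by
    rw [SK_E]
    exact Submodule.sum_mem _ fun i _ => Submodule.smul_mem _ _ (aE_GK h i)
  GT {p m x ω} h := by
    intro I
    rw [SK_T]
    refine ⟨?_, fun hI => by rw [(h I).2 hI, map_zero]⟩
    have := (h I).1.pderiv (i := x)
    rwa [Nat.add_sub_cancel] at this
  GT0 {p x ω} h := by
    funext I
    rw [SK_T]
    have h1 : (ω I).totalDegree = 0 := Nat.le_zero.mp (h I).1.totalDegree_le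
    rw [totalDegree_eq_zero_iff_eq_C] at h1
    rw [h1, pderiv_C]
    rfl
  Gm {p m j a ω} ha h := by
    intro I
    rw [SK_m]
    refine ⟨?_, fun hI => by rw [(h I).2 hI, mul_zero]⟩
    have := ha.mul (h I).1
    rwa [add_comm] at this
  num {p m ω} h := by
    have h1 : ∀ μ ∈ Mo σ d, (SK B).E μ ((SK B).J μ ω)
        = ∑ i, ∑ j, (B.α μ i * B.γ μ j) • aE k i (aJ k j ω) := by
      intro μ _
      rw [SK_E]
      refine Finset.sum_congr rfl fun i _ => ?_
      rw [SK_J, map_sum, Finset.smul_sum]
      refine Finset.sum_congr rfl fun j _ => ?_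
      rw [map_smul, smul_smul]
    rw [Finset.sum_congr rfl h1, Finset.sum_comm]
    have h2 : ∀ i ∈ (Finset.univ : Finset (Fin N)), ∑ μ ∈ Mo σ d,
        ∑ j, (B.α μ i * B.γ μ j) • aE k i (aJ k j ω) = aE k i (aJ k i ω) := by
      intro i _
      rw [Finset.sum_comm]
      have h3 : ∀ j ∈ (Finset.univ : Finset (Fin N)),
          ∑ μ ∈ Mo σ d, (B.α μ i * B.γ μ j) • aE k i (aJ k j ω)
          = if i = j then aE k i (aJ k i ω) else 0 := by
        intro j _
        rw [← Finset.sum_smul, B.ag]
        by_cases hij : i = j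
        · subst hij; simp
        · rw [if_neg hij, if_neg hij, zero_smul]
      rw [Finset.sum_congr rfl h3, Finset.sum_ite_eq]
      simp
    rw [Finset.sum_congr rfl h2]
    exact sum_aE_aJ h
  eul {p m ω} h := by
    funext I
    rw [Finset.sum_apply, Pi.smul_apply, Nat.cast_smul_eq_nsmul]
    exact (h I).1.sum_X_mul_pderiv
  rho x := lm k N (rhx x)
  dv x := lm k N (dvx x)
  rho_dv x ω := by
    funext I
    rw [Pi.add_apply, SK_m, lm_apply, lm_apply, rhx_apply, sub_add_cancel]
  rho_X x ω := by
    funext I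
    rw [lm_apply, SK_m, rhx_apply, dvx_X, sub_self]
    rfl
  rho_mon x μ ω h := by
    funext I
    rw [lm_apply, SK_m, SK_m, lm_apply, rhx_apply, rhx_apply, dvx_mon x μ h]
    ring
  rho_J x μ ω := by
    rw [SK_J, SK_J, map_sum]
    refine Finset.sum_congr rfl fun i _ => ?_
    rw [map_smul]
    congr 1
    exact congrArg (fun f : Module.End k (Finset (Fin N) → MvPolynomial σ k) => f ω)
      (lm_aJ (rhx x) i)
  Grho {p m x ω} h := by
    intro I
    rw [lm_apply, rhx_apply]
    refine ⟨(h I).1.sub (hom_X_dvx x (h I).1), fun hI => ?_⟩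
    rw [(h I).2 hI, map_zero, mul_zero, sub_zero]
  inj x ω h := by
    funext I
    have h1 := congrFun h I
    rw [SK_m] at h1
    have h2 : (X x : MvPolynomial σ k) ≠ 0 := X_ne_zero x
    exact (mul_eq_zero.mp h1).resolve_left h2
  lift {p m ω} h := by
    classical
    refine ⟨fun I => if I.card = p + 1 then homogeneousComponent m (ω I) else 0, ?_, ?_⟩
    · intro I
      refine ⟨?_, fun hI => if_neg hI⟩
      dsimp only
      split_ifs
      · exact homogeneousComponent_isHomogeneous _ _
      · exact isHomogeneous_zero _ _ _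
    · funext I
      by_cases hI : I.card = p
      · have h1 : (SK B).del ω I = homogeneousComponent (m + d) ((SK B).del ω I) :=
          (homogeneousComponent_eq_self (h I).1).symm
        rw [h1, SK_del, SK_del, map_sum]
        refine Finset.sum_congr rfl fun i _ => ?_
        rw [homComp_mul (B.hom i), aJ_apply, aJ_apply]
        split_ifs with h2 h3
        · rw [map_zero]
        · rw [map_smul]
        · exact absurd (by rw [Finset.card_insert_of_notMem h2, hI]) h3
      · rw [(h I).2 hI, SK_del]
        refine Finset.sum_eq_zero fun i _ => ?_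
        rw [aJ_apply]
        split_ifs with h2 h3
        · rw [mul_zero]
        · rw [Finset.card_insert_of_notMem h2] at h3
          exact absurd (by omega) hI
        · rw [smul_zero, mul_zero]

end

end Pool.Agent.H27.OP
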