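import Pool.Agent.H27.OP.Abs

set_option autoImplicit false
set_option linter.unusedSectionVars false

/-!
# Ottaviani-Paoletti: the level step, stability of `W0`, the chain lemma
-/

open MvPolynomial

namespace Pool.Agent.H27.OP

variable {σ k : Type*} [Fintype σ] [Field k]

lemma vdm [CharZero k] {F : Type*} [AddCommGroup F] [Module k F] (B : Submodule k F) :
    ∀ (N : ℕ) (v : ℕ → F), (∀ t : k, ∑ i ∈ Finset.range N, t ^ i • v i ∈ B) →
      ∀ i < N, v i ∈ B := by
  intro N
  induction N with
  | zero => intro v _ i hi; omega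
  | succ N ih =>
    intro v h
    have h1 : ∀ i < N, v i ∈ B := by
      have h2 : ∀ t : k, ∑ i ∈ Finset.range N, t ^ i • (((2 : k) ^ i - 2 ^ N) • v i) ∈ B := by
        intro t
        have h3 := sub_mem (h (2 * t)) (B.smul_mem (2 ^ N) (h t))
        have h4 : ∑ i ∈ Finset.range (N + 1), (2 * t) ^ i • v i
            - (2 : k) ^ N • ∑ i ∈ Finset.range (N + 1), t ^ i • v i
            = ∑ i ∈ Finset.range N, t ^ i • (((2 : k) ^ i - 2 ^ N) • v i) := by
          rw [Finset.smul_sum, ← Finset.sum_sub_distrib, Finset.sum_range_succ]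
          have h5 : (2 * t) ^ N • v N - (2 : k) ^ N • t ^ N • v N = 0 := by
            rw [smul_smul, mul_pow, sub_self]
          rw [h5, add_zero]
          refine Finset.sum_congr rfl fun i _ => ?_
          rw [smul_smul, smul_smul, ← sub_smul, mul_pow]
          congr 1
          ring
        rwa [h4] at h3
      intro i hi
      have h3 := ih _ h2 i hi
      have h4 : ((2 : k) ^ i - 2 ^ N) ≠ 0 := by
        intro h5
        have h6 : (2 : k) ^ i = 2 ^ N := sub_eq_zero.mp h5
        have h7 : ((2 ^ i : ℕ) : k) = ((2 ^ N : ℕ) : k) := by push_cast; exact h6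
        have h8 := Nat.cast_injective h7
        have h9 := Nat.pow_right_injective (le_refl 2) h8
        omega
      have h5 := B.smul_mem ((2 : k) ^ i - 2 ^ N)⁻¹ h3
      rwa [smul_smul, inv_mul_cancel₀ h4, one_smul] at h5
    intro i hi
    rcases Nat.lt_succ_iff_lt_or_eq.mp hi with h2 | h2
    · exact h1 i h2
    · subst h2
      have h3 := h 1
      rw [Finset.sum_range_succ] at h3
      have h4 : ∑ j ∈ Finset.range i, (1 : k) ^ j • v j ∈ B := by
        refine B.sum_mem fun j hj => B.smul_mem _ (h1 j (Finset.mem_range.mp hj))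
      have h5 := sub_mem h3 h4
      rwa [add_sub_cancel_left, one_pow, one_smul] at h5

section

variable {F : Type*} [AddCommGroup F] [Module k F] {d : ℕ}
variable {S : Fk σ k (Module.End k F) d} (A : Gr S)

include A in
lemma Ee_mem {p m : ℕ} {ω : F} (h : ω ∈ A.G p m) (u : MvPolynomial σ k) :
    S.Ee u ω ∈ A.G (p + 1) m := by
  rw [Fk.Ee_apply, LinearMap.sum_apply]
  refine Submodule.sum_mem _ fun μ _ => ?_
  rw [LinearMap.smul_apply]
  exact Submodule.smul_mem _ _ (A.GE h)

lemma D_apply (c : MvPolynomial σ k) (y : σ) (ω : F) :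
    S.D c y ω = S.m c (S.T y ω) + ∑ μ ∈ Mo σ d, S.Ee (c * pderiv y (monomial μ 1)) (S.J μ ω) := by
  unfold Fk.D
  rw [LinearMap.add_apply, LinearMap.sum_apply]
  rfl

include A in
lemma D_mem {a m : ℕ} {ω : F} (h : ω ∈ A.G a m) {c : MvPolynomial σ k} (hc : c.IsHomogeneous 1)
    (y : σ) : S.D c y ω ∈ A.G a m := by
  rw [D_apply]
  refine add_mem ?_ (Submodule.sum_mem _ fun μ _ => ?_)
  · rcases m with _ | m
    · rw [A.GT0 h, map_zero]; exact zero_mem _
    · exact A.Gm hc (A.GT h)
  · rcases a with _ | a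
    · rw [A.GJ0 h, map_zero]; exact zero_mem _
    · exact Ee_mem A (A.GJ h) _

lemma D_cycle {c : MvPolynomial σ k} (hc : c.IsHomogeneous 1) (y : σ) {ω : F}
    (h : S.del ω = 0) : S.del (S.D c y ω) = 0 := by
  have := congrArg (fun f : Module.End k F => f ω) (S.D_del hc y)
  simp only [Module.End.mul_apply] at this
  rw [← this, h, map_zero]

lemma D_range {c : MvPolynomial σ k} (hc : c.IsHomogeneous 1) (y : σ) {ω : F}
    (h : ω ∈ LinearMap.range S.del) : S.D c y ω ∈ LinearMap.range S.del := by
  obtain ⟨η, rfl⟩ := h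
  have := congrArg (fun f : Module.End k F => f η) (S.D_del hc y)
  simp only [Module.End.mul_apply] at this
  exact ⟨_, this.symm⟩

lemma m_range (a : MvPolynomial σ k) {ω : F}
    (h : ω ∈ LinearMap.range S.del) : S.m a ω ∈ LinearMap.range S.del := by
  obtain ⟨η, rfl⟩ := h
  have := congrArg (fun f : Module.End k F => f η) (S.del_m a)
  simp only [Module.End.mul_apply] at this
  exact ⟨_, this⟩

lemma m_cycle (a : MvPolynomial σ k) {ω : F} (h : S.del ω = 0) : S.del (S.m a ω) = 0 := by
  have := congrArg (fun f : Module.End k F => f ω) (S.del_m a)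
  simp only [Module.End.mul_apply] at this
  rw [this, h, map_zero]

lemma J_cycle (μ : σ →₀ ℕ) {ω : F} (h : S.del ω = 0) : S.del (S.J μ ω) = 0 := by
  have := congrArg (fun f : Module.End k F => f ω) (S.del_J μ)
  simp only [Module.End.mul_apply, LinearMap.neg_apply] at this
  rw [this, h, map_zero, neg_zero]

lemma Cc_range {e : ℕ} (hd : d = e + 1) {c : MvPolynomial σ k} (hc : c.IsHomogeneous 1)
    {L : List (MvPolynomial σ k)} (hL : Fk.HomL e L) {ω : F} (h : ω ∈ LinearMap.range S.del) :
    S.Cc c L ω ∈ LinearMap.range S.del := by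
  obtain ⟨η, rfl⟩ := h
  have := congrArg (fun f : Module.End k F => f η) (S.del_Cc hd hc L hL)
  simp only [Module.End.mul_apply, LinearMap.smul_apply] at this
  refine ⟨Fk.sg k (L.length + 1) • S.Cc c L η, ?_⟩
  rw [map_smul, this, smul_smul, Fk.sg_sq, one_smul]

include A in
lemma range_mem_W0 {e : ℕ} (hd : d = e + 1) {a m q : ℕ} {κ : F} [CharZero k] (h : κ ∈ A.G a m)
    (hr : κ ∈ LinearMap.range S.del) : κ ∈ W0 S A e a m q := by
  refine ⟨h, ?_, fun c L hc hL _ => Cc_range hd hc hL hr⟩
  obtain ⟨η, rfl⟩ := hr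
  have := congrArg (fun f : Module.End k F => f η) S.del_del
  simpa using this

/-- all coefficients `Cg` act into the boundaries -/
lemma Cg_range [CharZero k] {c c' : MvPolynomial σ k}
    {L : List (MvPolynomial σ k)} {κ : F}
    (h : ∀ t : k, S.Cc (c + t • c') L κ ∈ LinearMap.range S.del) (i : ℕ) :
    S.Cg c c' L i κ ∈ LinearMap.range S.del := by
  rcases lt_or_ge i L.length with hi | hi
  · refine vdm (LinearMap.range S.del) L.length (fun i => S.Cg c c' L i κ) ?_ i hi
    intro t
    have := h t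
    rw [S.Cc_expand c c' t L L.length le_rfl, LinearMap.sum_apply] at this
    exact this
  · rw [S.Cg_zero_of_le c c' L i hi]
    exact zero_mem _

lemma hom_lin {c c' : MvPolynomial σ k} (hc : c.IsHomogeneous 1) (hc' : c'.IsHomogeneous 1)
    (t : k) : (c + t • c').IsHomogeneous 1 := by
  refine hc.add ?_
  rw [smul_eq_C_mul]
  exact hc'.C_mul t

lemma pderiv_lin {c : MvPolynomial σ k} (hc : c.IsHomogeneous 1) (y : σ) :
    ∃ γ : k, pderiv y c = C γ := by
  have h := hc.pderiv (i := y)
  have h1 : (pderiv y c).totalDegree = 0 := by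
    have := h.totalDegree_le
    omega
  exact ⟨_, totalDegree_eq_zero_iff_eq_C.mp h1⟩

include A in
/-- `W0` is stable under the derivations. -/
lemma W0_D [CharZero k] {e : ℕ} (hd : d = e + 1) {a m q : ℕ} {κ : F}
    (h : κ ∈ W0 S A e a m q) {c' : MvPolynomial σ k} (hc' : c'.IsHomogeneous 1) (y : σ) :
    S.D c' y κ ∈ W0 S A e a m q := by
  obtain ⟨h1, h2, h3⟩ := h
  refine ⟨D_mem A h1 hc' y, D_cycle hc' y h2, fun c L hc hL hq => ?_⟩
  obtain ⟨γ, hγ⟩ := pderiv_lin hc y
  have e1 := congrArg (fun f : Module.End k F => f κ) (S.D_Cc hd (c' := c') hc y γ hγ L hL)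
  simp only [Module.End.mul_apply, LinearMap.add_apply, LinearMap.smul_apply] at e1
  have e2 : S.Cc c L (S.D c' y κ) = S.D c' y (S.Cc c L κ)
      - ((Fk.Lv (fun f => c' * pderiv y f) L).map (S.Cc c)).sum κ - γ • S.Cg c c' L 1 κ := by
    rw [e1]; abel
  rw [e2]
  refine sub_mem (sub_mem (D_range hc' y (h3 c L hc hL hq)) ?_)
    (Submodule.smul_mem _ _ (Cg_range (fun t => h3 _ L (hom_lin hc hc' t) hL hq) 1))
  have hδ : ∀ f : MvPolynomial σ k, f.IsHomogeneous e → (c' * pderiv y f).IsHomogeneous e :=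
    fun f hf => Fk.hom_cpd hc' y hf
  have h4 := Fk.Lv_mem hδ L hL
  generalize Fk.Lv (fun f => c' * pderiv y f) L = LL at h4 ⊢
  induction LL with
  | nil => simp
  | cons L' LL ih =>
    rw [List.map_cons, List.sum_cons, LinearMap.add_apply]
    refine add_mem (h3 c L' hc (h4 L' List.mem_cons_self).1 ?_)
      (ih fun F' hF' => h4 F' (List.mem_cons_of_mem _ hF'))
    rw [(h4 L' List.mem_cons_self).2, hq]

include A in
/-- the level step -/
lemma star {e : ℕ} (hd : d = e + 1) {a m q : ℕ} (hml : ML S A e a (q + 1))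
    (hm : d + 1 ≤ m) {κ : F} (h : κ ∈ A.G (a + 1) m) (hz : S.del κ = 0)
    {c : MvPolynomial σ k} (hc : c.IsHomogeneous 1) (y : σ) {L : List (MvPolynomial σ k)}
    (hL : Fk.HomL e L) (hq : L.length = q) :
    S.Cc c L (S.D c y κ) ∈ LinearMap.range S.del := by
  have e1 := congrArg (fun f : Module.End k F => f κ) (S.key hd hc y L hL)
  simp only [Module.End.mul_apply, LinearMap.add_apply, LinearMap.smul_apply,
    LinearMap.sub_apply, LinearMap.sum_apply, hz, map_zero, smul_zero, add_zero] at e1
  rw [e1]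
  refine sub_mem ⟨_, rfl⟩ (Submodule.smul_mem _ _ (Submodule.sum_mem _ fun μ hμ => ?_))
  refine (hml m hm _ (A.GJ h) (J_cycle μ hz)).2.2 c _ hc (hL.cons ?_) (by simp [hq])
  have := (isHomogeneous_monomial (1 : k) (mem_Mo.mp hμ)).pderiv (i := y)
  rwa [hd, Nat.add_sub_cancel] at this

include A in
/-- the chain lemma -/
lemma chain [CharZero k] {e : ℕ} (hd : d = e + 1) {a m q : ℕ} (hml : ML S A e a (q + 1))
    (hm : d + 1 ≤ m) {κ : F} (h : κ ∈ A.G (a + 1) m) (hz : S.del κ = 0) {x : σ} {w : ℕ}
    (hw : S.D (X x) x κ = (w : k) • κ) (hqw : q ≤ w) :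
    κ ∈ W0 S A e (a + 1) m q := by
  have hX : (X x : MvPolynomial σ k).IsHomogeneous 1 := isHomogeneous_X _ _
  refine ⟨h, hz, fun c L hc hL hq => ?_⟩
  -- x-free `c`
  have h1 : ∀ (c : MvPolynomial σ k), c.IsHomogeneous 1 → pderiv x c = 0 →
      ∀ (n i w : ℕ) (κ : F), κ ∈ A.G (a + 1) m → S.del κ = 0 → S.D (X x) x κ = (w : k) • κ →
        n + i = q → q ≤ w + i → S.Cg c (X x) L i κ ∈ LinearMap.range S.del := by
    intro c hc hcx n
    induction n with
    | zero =>
      intro i w κ _ _ _ hn _
      rw [S.Cg_zero_of_le c (X x) L i (by omega)]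
      exact zero_mem _
    | succ n ih =>
      intro i w κ hκ hκz hκw hn hle
      -- the relation
      have h2 : ∀ t : k, ∑ j ∈ Finset.range (q + 1), t ^ j • (S.Cg c (X x) L j (S.D c x κ)
          + (if j = 0 then 0 else (w : k) • S.Cg c (X x) L (j - 1) κ)) ∈ LinearMap.range S.del := by
        intro t
        have h3 := star A hd hml hm hκ hκz (hom_lin hc hX t) x hL hq
        rw [S.D_add, S.D_smul, LinearMap.add_apply, LinearMap.smul_apply, hκw, map_add, map_smul,
          map_smul, S.Cc_expand c (X x) t L (q + 1) (by omega)] at h3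
        have h4 : (t • (w : k) • (∑ i ∈ Finset.range (q + 1), t ^ i • S.Cg c (X x) L i) κ)
            = ∑ j ∈ Finset.range (q + 1), t ^ j •
              (if j = 0 then 0 else (w : k) • S.Cg c (X x) L (j - 1) κ) := by
          rw [Finset.sum_range_succ, Finset.sum_range_succ', S.Cg_zero_of_le c (X x) L q (by omega),
            smul_zero, add_zero, if_pos rfl, smul_zero, add_zero, LinearMap.sum_apply,
            Finset.smul_sum, Finset.smul_sum]
          refine Finset.sum_congr rfl fun j _ => ?_
          rw [if_neg (Nat.succ_ne_zero j), Nat.add_sub_cancel, LinearMap.smul_apply, pow_succ,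
            smul_smul, smul_smul, smul_smul]
          congr 1
          ring
        rw [h4, LinearMap.sum_apply, ← Finset.sum_add_distrib] at h3
        have h5 : ∀ j ∈ Finset.range (q + 1), t ^ j • (S.Cg c (X x) L j (S.D c x κ)
          + (if j = 0 then 0 else (w : k) • S.Cg c (X x) L (j - 1) κ))
            = (t ^ j • S.Cg c (X x) L j) (S.D c x κ)
              + t ^ j • (if j = 0 then 0 else (w : k) • S.Cg c (X x) L (j - 1) κ) := by
          intro j _
          rw [smul_add, LinearMap.smul_apply]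
        rw [Finset.sum_congr rfl h5]
        exact h3
      have h3 := vdm (LinearMap.range S.del) (q + 1) _ h2 (i + 1) (by omega)
      rw [if_neg (Nat.succ_ne_zero i), Nat.add_sub_cancel] at h3
      -- the weight of `D c x κ`
      have hwpos : w ≠ 0 := by omega
      have h4 : S.D (X x) x (S.D c x κ) = ((w - 1 : ℕ) : k) • S.D c x κ := by
        have e1 := congrArg (fun f : Module.End k F => f κ) (S.D_D hX hc x x)
        simp only [Module.End.mul_apply, LinearMap.add_apply, LinearMap.sub_apply, hcx, mul_zero,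
          pderiv_X_self, mul_one, hκw, map_smul] at e1
        rw [e1]
        have e2 : S.D (0 : MvPolynomial σ k) x = 0 := by
          have := S.D_smul 0 (0 : MvPolynomial σ k) x
          simpa using this
        rw [e2, LinearMap.zero_apply, add_zero, Nat.cast_sub (by omega), Nat.cast_one, sub_smul,
          one_smul]
      have h5 := ih (i + 1) (w - 1) (S.D c x κ) (D_mem A hκ hc x) (D_cycle hc x hκz) h4 (by omega)
        (by omega)
      have h6 := sub_mem h3 h5
      rw [add_sub_cancel_left] at h6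
      have h7 := Submodule.smul_mem _ ((w : k)⁻¹) h6
      rwa [smul_smul, inv_mul_cancel₀ (Nat.cast_ne_zero.mpr hwpos), one_smul] at h7
  -- general `c`
  obtain ⟨γ, hγ⟩ := pderiv_lin hc x
  have h2 : c = (c - γ • X x) + γ • X x := by abel
  have hc0 : (c - γ • X x).IsHomogeneous 1 := by
    have := hom_lin hc hX (-γ)
    rwa [neg_smul, ← sub_eq_add_neg] at this
  have hcx : pderiv x (c - γ • X x) = 0 := by
    rw [map_sub, hγ, Derivation.map_smul, pderiv_X_self, smul_eq_C_mul, mul_one, sub_self]
  rw [h2, S.Cc_expand _ (X x) γ L q (by omega), LinearMap.sum_apply]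
  refine Submodule.sum_mem _ fun i hi => ?_
  rw [LinearMap.smul_apply]
  have hi' := Finset.mem_range.mp hi
  exact Submodule.smul_mem _ _ (h1 _ hc0 hcx (q - i) i w κ h hz hw (by omega) (by omega))

end

end Pool.Agent.H27.OP
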