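import Pool.Agent.H27.OP.Ring

set_option autoImplicit false
set_option linter.unusedSectionVars false

/-!
# Ottaviani-Paoletti: the operators `Π_c(F)` and `C_c(F)`
-/

open MvPolynomial

namespace Pool.Agent.H27.OP

variable {σ k : Type*} [Fintype σ] [Field k]

namespace Fk

variable {O : Type*} [Ring O] [Algebra k O] {d : ℕ} (S : Fk σ k O d)

/-- `Π_c(f_0,…,f_q) = [c f_0] ⋯ [c f_q]` -/
noncomputable def Pc (S : Fk σ k O d) (c : MvPolynomial σ k) : List (MvPolynomial σ k) → O
  | [] => 1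
  | f :: F => S.Ee (c * f) * Pc S c F

/-- `C_c(f_0,…,f_q) = ∑ (-1)^i f_i ∏_{j ≠ i} [c f_j]` -/
noncomputable def Cc (S : Fk σ k O d) (c : MvPolynomial σ k) : List (MvPolynomial σ k) → O
  | [] => 0
  | f :: F => S.m f * Pc S c F - S.Ee (c * f) * Cc S c F

/-- coefficients of `Π_{c+tc'}` -/
noncomputable def Pg (S : Fk σ k O d) (c c' : MvPolynomial σ k) : List (MvPolynomial σ k) → ℕ → O
  | [], 0 => 1
  | [], _ + 1 => 0
  | f :: F, 0 => S.Ee (c * f) * Pg S c c' F 0
  | f :: F, i + 1 => S.Ee (c * f) * Pg S c c' F (i + 1) + S.Ee (c' * f) * Pg S c c' F i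

/-- coefficients of `C_{c+tc'}` -/
noncomputable def Cg (S : Fk σ k O d) (c c' : MvPolynomial σ k) : List (MvPolynomial σ k) → ℕ → O
  | [], _ => 0
  | f :: F, 0 => S.m f * Pg S c c' F 0 - S.Ee (c * f) * Cg S c c' F 0
  | f :: F, i + 1 => S.m f * Pg S c c' F (i + 1) - S.Ee (c * f) * Cg S c c' F (i + 1)
      - S.Ee (c' * f) * Cg S c c' F i

/-- sign -/
abbrev sg (k : Type*) [Field k] (n : ℕ) : k := (-1) ^ n

lemma sg_succ (n : ℕ) : sg k (n + 1) = - sg k n := by
  simp [sg, pow_succ]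

lemma sg_sq (n : ℕ) : sg k n * sg k n = 1 := by
  simp [sg, ← mul_pow]

lemma m_Pc (c a : MvPolynomial σ k) (F : List (MvPolynomial σ k)) :
    S.m a * S.Pc c F = S.Pc c F * S.m a := by
  induction F with
  | nil => simp [Pc]
  | cons f F ih => rw [Pc, ← mul_assoc, S.mEe, mul_assoc, ih, mul_assoc]

lemma Ee_Pc (c e : MvPolynomial σ k) (F : List (MvPolynomial σ k)) :
    S.Ee e * S.Pc c F = sg k F.length • (S.Pc c F * S.Ee e) := by
  induction F with
  | nil => simp [Pc, sg]
  | cons f F ih =>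
    rw [Pc, ← mul_assoc, S.EeEe, neg_mul, mul_assoc, ih, List.length_cons, sg_succ, mul_smul_comm,
      neg_smul, mul_assoc]

lemma Pc_Ee (c e : MvPolynomial σ k) (F : List (MvPolynomial σ k)) :
    S.Pc c F * S.Ee e = sg k F.length • (S.Ee e * S.Pc c F) := by
  rw [Ee_Pc, smul_smul, sg_sq, one_smul]

lemma m_Cc (c a : MvPolynomial σ k) (F : List (MvPolynomial σ k)) :
    S.m a * S.Cc c F = S.Cc c F * S.m a := by
  induction F with
  | nil => simp [Cc]
  | cons f F ih =>
    rw [Cc, mul_sub, sub_mul, ← mul_assoc, S.mm, mul_assoc, m_Pc, ← mul_assoc, ← mul_assoc, S.mEe,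
      mul_assoc _ (S.m a), ih, ← mul_assoc]

lemma Ee_Cc (c e : MvPolynomial σ k) (F : List (MvPolynomial σ k)) :
    S.Ee e * S.Cc c F = sg k (F.length + 1) • (S.Cc c F * S.Ee e) := by
  induction F with
  | nil => simp [Cc]
  | cons f F ih =>
    rw [Cc, mul_sub, sub_mul, ← mul_assoc, ← mul_assoc, ← S.mEe, mul_assoc, S.Ee_Pc, S.EeEe e,
      neg_mul, mul_assoc (S.Ee (c * f)), ih]
    simp only [List.length_cons, sg_succ, mul_smul_comm, smul_sub, mul_assoc, neg_neg, neg_smul,
      mul_neg, neg_mul]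

lemma Cc_Ee (c e : MvPolynomial σ k) (F : List (MvPolynomial σ k)) :
    S.Cc c F * S.Ee e = sg k (F.length + 1) • (S.Ee e * S.Cc c F) := by
  rw [Ee_Cc, smul_smul, sg_sq, one_smul]

/-- lists of forms of degree `d - 1` -/
def HomL (j : ℕ) (F : List (MvPolynomial σ k)) : Prop := ∀ f ∈ F, f.IsHomogeneous j

lemma HomL.cons {j : ℕ} {f : MvPolynomial σ k} {F : List (MvPolynomial σ k)}
    (hf : f.IsHomogeneous j) (hF : HomL j F) : HomL j (f :: F) := by
  intro g hg
  rcases List.mem_cons.mp hg with h | h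
  · exact h ▸ hf
  · exact hF g h

lemma HomL.of_cons {j : ℕ} {f : MvPolynomial σ k} {F : List (MvPolynomial σ k)}
    (h : HomL j (f :: F)) : f.IsHomogeneous j ∧ HomL j F :=
  ⟨h f List.mem_cons_self, fun g hg => h g (List.mem_cons_of_mem _ hg)⟩

lemma hom_mul {j : ℕ} {c f : MvPolynomial σ k} (hc : c.IsHomogeneous 1) (hf : f.IsHomogeneous j) :
    (c * f).IsHomogeneous (j + 1) := by
  have := hc.mul hf
  rwa [add_comm] at this

lemma del_Pc {e : ℕ} (hd : d = e + 1) {c : MvPolynomial σ k} (hc : c.IsHomogeneous 1)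
    (F : List (MvPolynomial σ k)) (hF : HomL e F) :
    S.del * S.Pc c F = sg k F.length • (S.Pc c F * S.del) + S.m c * S.Cc c F := by
  induction F with
  | nil => simp [Pc, Cc, sg]
  | cons f F ih =>
    have h := hF.of_cons
    have hcf : (c * f).IsHomogeneous d := hd ▸ hom_mul hc h.1
    rw [Pc, Cc, ← mul_assoc, S.del_Ee hcf, sub_mul, mul_assoc, ih h.2, mul_add, List.length_cons,
      sg_succ, mul_smul_comm, mul_sub, map_mul, neg_smul, ← mul_assoc (S.m c) (S.m f),
      ← mul_assoc (S.m c) (S.Ee (c * f)), S.mEe c, mul_assoc (S.Ee (c * f)) (S.m c), mul_assoc]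
    simp only [mul_assoc]
    abel

lemma del_Cc {e : ℕ} (hd : d = e + 1) {c : MvPolynomial σ k} (hc : c.IsHomogeneous 1)
    (F : List (MvPolynomial σ k)) (hF : HomL e F) :
    S.del * S.Cc c F = sg k (F.length + 1) • (S.Cc c F * S.del) := by
  induction F with
  | nil => simp [Cc]
  | cons f F ih =>
    have h := hF.of_cons
    have hcf : (c * f).IsHomogeneous d := hd ▸ hom_mul hc h.1
    rw [Cc, mul_sub, sub_mul, ← mul_assoc, S.del_m, mul_assoc, S.del_Pc hd hc F h.2, ← mul_assoc,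
      S.del_Ee hcf, sub_mul, mul_assoc (S.Ee (c * f)), ih h.2, mul_add, map_mul,
      ← mul_assoc (S.m f) (S.m c), S.mm f c]
    simp only [List.length_cons, sg_succ, mul_smul_comm, smul_sub, mul_assoc, neg_neg, neg_smul,
      mul_neg, neg_mul]
    abel

/-- the key formula (P) -/
lemma key {e : ℕ} (hd : d = e + 1) {c : MvPolynomial σ k} (hc : c.IsHomogeneous 1) (y : σ)
    (F : List (MvPolynomial σ k)) (hF : HomL e F) :
    S.Cc c F * S.D c y = S.del * S.Pc c F * S.T y
      + sg k (F.length + 1) • (S.Pc c F * S.T y * S.del)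
      - sg k (F.length + 1) • ∑ μ ∈ Mo σ d, S.Cc c (pderiv y (monomial μ 1) :: F) * S.J μ := by
  have h1 : S.Cc c F * (S.m c * S.T y) = S.del * S.Pc c F * S.T y
      + sg k (F.length + 1) • (S.Pc c F * S.del * S.T y) := by
    rw [← mul_assoc, ← S.m_Cc, S.del_Pc hd hc F hF, add_mul, sg_succ, neg_smul, smul_mul_assoc]
    abel
  have h2 : S.Cc c F * (∑ μ ∈ Mo σ d, S.Ee (c * pderiv y (monomial μ 1)) * S.J μ)
      = sg k (F.length + 1) • (S.Pc c F * (∑ μ ∈ Mo σ d, S.m (pderiv y (monomial μ 1)) * S.J μ)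
        - ∑ μ ∈ Mo σ d, S.Cc c (pderiv y (monomial μ 1) :: F) * S.J μ) := by
    rw [Finset.mul_sum, Finset.mul_sum, ← Finset.sum_sub_distrib, Finset.smul_sum]
    refine Finset.sum_congr rfl fun μ _ => ?_
    rw [← mul_assoc, S.Cc_Ee, smul_mul_assoc, Cc, sub_mul, ← mul_assoc, S.m_Pc]
    congr 1
    abel
  have h3 := S.T_del y
  unfold D
  rw [mul_add, h1, h2, mul_assoc (S.Pc c F) (S.T y) S.del, h3, mul_add, smul_add, smul_sub,
    ← mul_assoc (S.Pc c F) S.del]
  abel

/-! ### expansions in `t` -/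

lemma Pg_zero_of_lt (c c' : MvPolynomial σ k) (F : List (MvPolynomial σ k)) (i : ℕ)
    (h : F.length < i) : S.Pg c c' F i = 0 := by
  induction F generalizing i with
  | nil =>
    obtain ⟨j, rfl⟩ : ∃ j, i = j + 1 := ⟨i - 1, by simp at h; omega⟩
    rfl
  | cons f F ih =>
    obtain ⟨j, rfl⟩ : ∃ j, i = j + 1 := ⟨i - 1, by simp at h; omega⟩
    rw [List.length_cons] at h
    rw [Pg, ih (j + 1) (by omega), ih j (by omega)]
    simp

lemma Cg_zero_of_le (c c' : MvPolynomial σ k) (F : List (MvPolynomial σ k)) (i : ℕ)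
    (h : F.length ≤ i) : S.Cg c c' F i = 0 := by
  induction F generalizing i with
  | nil => simp [Cg]
  | cons f F ih =>
    rw [List.length_cons] at h
    obtain ⟨j, rfl⟩ : ∃ j, i = j + 1 := ⟨i - 1, by omega⟩
    rw [Cg, ih (j + 1) (by omega), ih j (by omega), S.Pg_zero_of_lt c c' F (j + 1) (by omega)]
    simp

lemma Pc_expand (c c' : MvPolynomial σ k) (t : k) (F : List (MvPolynomial σ k)) (N : ℕ)
    (hN : F.length < N) :
    S.Pc (c + t • c') F = ∑ i ∈ Finset.range N, t ^ i • S.Pg c c' F i := by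
  induction F generalizing N with
  | nil =>
    obtain ⟨M, rfl⟩ : ∃ M, N = M + 1 := ⟨N - 1, by simp at hN; omega⟩
    rw [Finset.sum_range_succ', Pc]
    simp [Pg]
  | cons f F ih =>
    rw [List.length_cons] at hN
    obtain ⟨M, rfl⟩ : ∃ M, N = M + 1 := ⟨N - 1, by omega⟩
    rw [Finset.sum_range_succ', Pc, ih (M + 1) (by omega)]
    have h1 : ∑ i ∈ Finset.range M, t ^ (i + 1) • S.Pg c c' (f :: F) (i + 1)
        = S.Ee (c * f) * ∑ i ∈ Finset.range M, t ^ (i + 1) • S.Pg c c' F (i + 1)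
          + t • (S.Ee (c' * f) * ∑ i ∈ Finset.range M, t ^ i • S.Pg c c' F i) := by
      rw [Finset.mul_sum, Finset.mul_sum, Finset.smul_sum, ← Finset.sum_add_distrib]
      refine Finset.sum_congr rfl fun i _ => ?_
      rw [Pg, smul_add, mul_smul_comm, mul_smul_comm, smul_smul, ← pow_succ']
    rw [h1, Pg, add_mul, map_add, add_mul, smul_mul_assoc, map_smul, smul_mul_assoc]
    nth_rewrite 1 [Finset.sum_range_succ']
    rw [mul_add, Finset.sum_range_succ _ M, S.Pg_zero_of_lt c c' F M (by omega)]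
    simp only [pow_zero, one_smul, smul_zero, add_zero]
    abel

lemma Cc_expand (c c' : MvPolynomial σ k) (t : k) (F : List (MvPolynomial σ k)) (N : ℕ)
    (hN : F.length ≤ N) :
    S.Cc (c + t • c') F = ∑ i ∈ Finset.range N, t ^ i • S.Cg c c' F i := by
  induction F generalizing N with
  | nil => simp [Cc, Cg]
  | cons f F ih =>
    rw [List.length_cons] at hN
    obtain ⟨M, rfl⟩ : ∃ M, N = M + 1 := ⟨N - 1, by omega⟩
    rw [Finset.sum_range_succ', Cc, ih (M + 1) (by omega), S.Pc_expand c c' t F (M + 1) (by omega)]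
    have h1 : ∑ i ∈ Finset.range M, t ^ (i + 1) • S.Cg c c' (f :: F) (i + 1)
        = S.m f * ∑ i ∈ Finset.range M, t ^ (i + 1) • S.Pg c c' F (i + 1)
          - S.Ee (c * f) * ∑ i ∈ Finset.range M, t ^ (i + 1) • S.Cg c c' F (i + 1)
          - t • (S.Ee (c' * f) * ∑ i ∈ Finset.range M, t ^ i • S.Cg c c' F i) := by
      rw [Finset.mul_sum, Finset.mul_sum, Finset.mul_sum, Finset.smul_sum,
        ← Finset.sum_sub_distrib, ← Finset.sum_sub_distrib]
      refine Finset.sum_congr rfl fun i _ => ?_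
      rw [Cg, smul_sub, smul_sub, mul_smul_comm, mul_smul_comm, mul_smul_comm, smul_smul,
        ← pow_succ']
    rw [h1, Cg, add_mul, map_add, add_mul, smul_mul_assoc, map_smul, smul_mul_assoc]
    nth_rewrite 1 [Finset.sum_range_succ']
    nth_rewrite 1 [Finset.sum_range_succ']
    rw [mul_add, mul_add, Finset.sum_range_succ _ M, S.Cg_zero_of_le c c' F M (by omega)]
    simp only [pow_zero, one_smul, smul_zero, add_zero]
    abel

/-! ### commutator with `D` -/

/-- apply `δ` to one entry, in all possible ways -/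
def Lv (δ : MvPolynomial σ k → MvPolynomial σ k) :
    List (MvPolynomial σ k) → List (List (MvPolynomial σ k))
  | [] => []
  | f :: F => (δ f :: F) :: (Lv δ F).map (fun F' => f :: F')

lemma Lv_mem {δ : MvPolynomial σ k → MvPolynomial σ k} {j : ℕ}
    (hδ : ∀ f : MvPolynomial σ k, f.IsHomogeneous j → (δ f).IsHomogeneous j) :
    ∀ (F : List (MvPolynomial σ k)), HomL j F → ∀ F' ∈ Lv δ F, HomL j F' ∧ F'.length = F.length
  | [], _, F', h => by simp [Lv] at h
  | f :: F, hF, F', h => by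
    rw [Lv, List.mem_cons] at h
    rcases h with h | h
    · subst h
      exact ⟨(hF.of_cons.2).cons (hδ f hF.of_cons.1), by simp⟩
    · obtain ⟨F'', h1, rfl⟩ := List.mem_map.mp h
      have := Lv_mem hδ F hF.of_cons.2 F'' h1
      exact ⟨this.1.cons hF.of_cons.1, by simp [this.2]⟩

lemma D_Pc {e : ℕ} (hd : d = e + 1) {c c' : MvPolynomial σ k} (hc : c.IsHomogeneous 1) (y : σ)
    (γ : k) (hγ : pderiv y c = C γ) (F : List (MvPolynomial σ k)) (hF : HomL e F) :
    S.D c' y * S.Pc c F = S.Pc c F * S.D c' y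
      + ((Lv (fun f => c' * pderiv y f) F).map (S.Pc c)).sum + γ • S.Pg c c' F 1 := by
  induction F with
  | nil => simp [Pc, Lv, Pg]
  | cons f F ih =>
    have h := hF.of_cons
    have hcf : (c * f).IsHomogeneous d := hd ▸ hom_mul hc h.1
    have h1 : c' * pderiv y (c * f) = γ • (c' * f) + c * (c' * pderiv y f) := by
      rw [Derivation.leibniz, hγ, smul_eq_mul, smul_eq_mul, smul_eq_C_mul]
      ring
    rw [Pc, ← mul_assoc, S.D_Ee y hcf, add_mul, mul_assoc, ih h.2, h1, map_add, map_smul]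
    have h2 : ∀ L : List (List (MvPolynomial σ k)),
        ((L.map (fun F' => f :: F')).map (S.Pc c)).sum = S.Ee (c * f) * (L.map (S.Pc c)).sum := by
      intro L
      induction L with
      | nil => simp
      | cons a L ihL => rw [List.map_cons, List.map_cons, List.sum_cons, List.map_cons,
          List.sum_cons, ihL, Pc, mul_add]
    have h3 : ∀ F' : List (MvPolynomial σ k), S.Pg c c' F' 0 = S.Pc c F' := by
      intro F'
      induction F' with
      | nil => rfl
      | cons a L ihL => rw [Pg, Pc, ihL]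
    rw [Lv, List.map_cons, List.sum_cons, h2, Pg, h3, Pc, mul_add, mul_add, mul_smul_comm, add_mul,
      smul_mul_assoc, smul_add, mul_assoc]
    abel

lemma Pg_zero (c c' : MvPolynomial σ k) (F : List (MvPolynomial σ k)) :
    S.Pg c c' F 0 = S.Pc c F := by
  induction F with
  | nil => rfl
  | cons a L ihL => rw [Pg, Pc, ihL]

lemma Cg_zero (c c' : MvPolynomial σ k) (F : List (MvPolynomial σ k)) :
    S.Cg c c' F 0 = S.Cc c F := by
  induction F with
  | nil => rfl
  | cons a L ihL => rw [Cg, Cc, ihL, S.Pg_zero]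

lemma D_Cc {e : ℕ} (hd : d = e + 1) {c c' : MvPolynomial σ k} (hc : c.IsHomogeneous 1) (y : σ)
    (γ : k) (hγ : pderiv y c = C γ) (F : List (MvPolynomial σ k)) (hF : HomL e F) :
    S.D c' y * S.Cc c F = S.Cc c F * S.D c' y
      + ((Lv (fun f => c' * pderiv y f) F).map (S.Cc c)).sum + γ • S.Cg c c' F 1 := by
  induction F with
  | nil => simp [Cc, Lv, Cg]
  | cons f F ih =>
    have h := hF.of_cons
    have hcf : (c * f).IsHomogeneous d := hd ▸ hom_mul hc h.1
    have h1 : c' * pderiv y (c * f) = γ • (c' * f) + c * (c' * pderiv y f) := by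
      rw [Derivation.leibniz, hγ, smul_eq_mul, smul_eq_mul, smul_eq_C_mul]
      ring
    have h2 : ∀ L : List (List (MvPolynomial σ k)),
        ((L.map (fun F' => f :: F')).map (S.Cc c)).sum = S.m f * (L.map (S.Pc c)).sum
          - S.Ee (c * f) * (L.map (S.Cc c)).sum := by
      intro L
      induction L with
      | nil => simp
      | cons a L ihL =>
        rw [List.map_cons, List.map_cons, List.sum_cons, List.map_cons,
          List.sum_cons, ihL, Cc, mul_add, List.map_cons, List.sum_cons, mul_add]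
        abel
    rw [Cc, mul_sub, ← mul_assoc, S.D_m, ← mul_assoc, S.D_Ee y hcf, add_mul, add_mul, mul_assoc,
      mul_assoc (S.Ee (c * f)), ih h.2, S.D_Pc hd hc y γ hγ F h.2, h1, map_add, map_smul,
      Lv, List.map_cons, List.sum_cons, h2, Cg, S.Cg_zero, Cc]
    simp only [mul_add, add_mul, mul_smul_comm, smul_mul_assoc, smul_sub, sub_mul, mul_assoc]
    abel

end Fk

end Pool.Agent.H27.OP
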