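import Mathlib

set_option autoImplicit false

/-!
# Ottaviani-Paoletti: operator calculus for the Koszul complex of the Veronese embedding

All operators live in an (abstract, non commutative) `k`-algebra `O`:
`m a` multiplication by a polynomial, `E μ` exterior multiplication by the monomial `μ` (of degree
`d`), `J μ` contraction with the dual basis vector, `Θ x` coefficientwise derivative.
-/

open MvPolynomial

namespace Pool.Agent.H27.OP

set_option linter.unusedSectionVars false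

variable {σ k : Type*} [Fintype σ] [Field k]

open Classical in
/-- exponents of degree `j`. -/
noncomputable def Mo (σ : Type*) [Fintype σ] (j : ℕ) : Finset (σ →₀ ℕ) :=
  (Finset.univ : Finset σ).finsuppAntidiag j

lemma mem_Mo {j : ℕ} {μ : σ →₀ ℕ} : μ ∈ Mo σ j ↔ μ.degree = j := by
  classical
  unfold Mo
  rw [Finset.mem_finsuppAntidiag, Finsupp.degree_eq_sum]
  simp

lemma mem_Mo_of_coeff {j : ℕ} {e : MvPolynomial σ k} (he : e.IsHomogeneous j) {μ : σ →₀ ℕ}
    (h : coeff μ e ≠ 0) : μ ∈ Mo σ j := by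
  rw [mem_Mo, Finsupp.degree_eq_weight_one]
  exact he h

lemma sum_coeff {W : Type*} [AddCommMonoid W] [Module k W] {j : ℕ} (L : MvPolynomial σ k →ₗ[k] W)
    {e : MvPolynomial σ k} (he : e.IsHomogeneous j) :
    ∑ μ ∈ Mo σ j, coeff μ e • L (monomial μ 1) = L e := by
  classical
  have h1 : e = ∑ μ ∈ Mo σ j, coeff μ e • monomial μ (1 : k) := by
    have h2 : e.support ⊆ Mo σ j := by
      intro μ hμ
      exact mem_Mo_of_coeff he (mem_support_iff.mp hμ)
    conv_lhs => rw [as_sum e]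
    rw [Finset.sum_subset h2]
    · refine Finset.sum_congr rfl fun μ _ => ?_
      rw [smul_monomial, smul_eq_mul, mul_one]
    · intro μ _ hμ
      rw [notMem_support_iff.mp hμ, monomial_zero]
  conv_rhs => rw [h1]
  rw [map_sum]
  simp only [map_smul]

lemma pderiv_pderiv_comm' (x y : σ) (f : MvPolynomial σ k) :
    pderiv x (pderiv y f) = pderiv y (pderiv x f) := by
  induction f using MvPolynomial.induction_on with
  | C a => simp
  | add p q hp hq => rw [map_add, map_add, hp, hq, map_add, map_add]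
  | mul_X p i hp =>
    classical
    simp only [Derivation.leibniz, map_add, smul_eq_mul, hp, pderiv_X, Pi.single_apply]
    split_ifs <;> simp <;> ring

/-- The operator algebra data. -/
structure Fk (σ k O : Type*) [Fintype σ] [Field k] [Ring O] [Algebra k O] (d : ℕ) where
  m : MvPolynomial σ k →ₐ[k] O
  E : (σ →₀ ℕ) → O
  J : (σ →₀ ℕ) → O
  T : σ → O
  EE : ∀ μ ν, E μ * E ν = -(E ν * E μ)
  JJ : ∀ μ ν, J μ * J ν = -(J ν * J μ)
  JE : ∀ μ ∈ Mo σ d, ∀ ν ∈ Mo σ d, μ ≠ ν → J μ * E ν = -(E ν * J μ)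
  JEs : ∀ μ ∈ Mo σ d, J μ * E μ = 1 - E μ * J μ
  mE : ∀ a μ, m a * E μ = E μ * m a
  mJ : ∀ a μ, m a * J μ = J μ * m a
  Tm : ∀ x a, T x * m a = m a * T x + m (pderiv x a)
  TE : ∀ x μ, T x * E μ = E μ * T x
  TJ : ∀ x μ, T x * J μ = J μ * T x
  TT : ∀ x y, T x * T y = T y * T x

namespace Fk

variable {O : Type*} [Ring O] [Algebra k O] {d : ℕ} (S : Fk σ k O d)

/-- exterior multiplication by a form of degree `d` -/
noncomputable def Ee (S : Fk σ k O d) : MvPolynomial σ k →ₗ[k] O :=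
  ∑ μ ∈ Mo σ d, (MvPolynomial.lcoeff k μ).smulRight (S.E μ)

lemma Ee_apply (e : MvPolynomial σ k) : S.Ee e = ∑ μ ∈ Mo σ d, coeff μ e • S.E μ := by
  unfold Ee
  simp [LinearMap.sum_apply]

lemma Ee_monomial {μ : σ →₀ ℕ} (hμ : μ ∈ Mo σ d) : S.Ee (monomial μ 1) = S.E μ := by
  classical
  rw [Ee_apply, Finset.sum_eq_single μ]
  · simp
  · intro ν _ h
    rw [coeff_monomial, if_neg (Ne.symm h), zero_smul]
  · intro h; exact absurd hμ h

lemma EeEe (e f : MvPolynomial σ k) : S.Ee e * S.Ee f = -(S.Ee f * S.Ee e) := by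
  rw [Ee_apply, Ee_apply, Finset.sum_mul_sum, Finset.sum_mul_sum, Finset.sum_comm, ← Finset.sum_neg_distrib]
  refine Finset.sum_congr rfl fun μ _ => ?_
  rw [← Finset.sum_neg_distrib]
  refine Finset.sum_congr rfl fun ν _ => ?_
  rw [smul_mul_smul_comm, smul_mul_smul_comm, S.EE ν μ, smul_neg, mul_comm]

lemma JEe {μ : σ →₀ ℕ} (hμ : μ ∈ Mo σ d) (e : MvPolynomial σ k) :
    S.J μ * S.Ee e = coeff μ e • (1 : O) - S.Ee e * S.J μ := by
  classical
  rw [Ee_apply, Finset.mul_sum, Finset.sum_mul]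
  have h : ∀ ν ∈ Mo σ d, S.J μ * coeff ν e • S.E ν
      = (if ν = μ then coeff μ e • (1 : O) else 0) - coeff ν e • S.E ν * S.J μ := by
    intro ν hν
    by_cases h : ν = μ
    · subst h
      rw [if_pos rfl, mul_smul_comm, S.JEs ν hν, smul_sub, smul_mul_assoc]
    · rw [if_neg h, mul_smul_comm, S.JE μ hμ ν hν (Ne.symm h), smul_neg, zero_sub, smul_mul_assoc]
  rw [Finset.sum_congr rfl h, Finset.sum_sub_distrib, Finset.sum_ite_eq' (Mo σ d) μ, if_pos hμ]

lemma mEe (a e : MvPolynomial σ k) : S.m a * S.Ee e = S.Ee e * S.m a := by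
  rw [Ee_apply, Finset.mul_sum, Finset.sum_mul]
  refine Finset.sum_congr rfl fun μ _ => ?_
  rw [mul_smul_comm, smul_mul_assoc, S.mE]

lemma TEe (x : σ) (e : MvPolynomial σ k) : S.T x * S.Ee e = S.Ee e * S.T x := by
  rw [Ee_apply, Finset.mul_sum, Finset.sum_mul]
  refine Finset.sum_congr rfl fun μ _ => ?_
  rw [mul_smul_comm, smul_mul_assoc, S.TE]

lemma mm (a b : MvPolynomial σ k) : S.m a * S.m b = S.m b * S.m a := by
  rw [← map_mul, mul_comm, map_mul]

/-- second quantisation `∑ B(x^μ) J_μ` -/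
noncomputable def Gam (S : Fk σ k O d) (B : MvPolynomial σ k →ₗ[k] O) : O :=
  ∑ μ ∈ Mo σ d, B (monomial μ 1) * S.J μ

/-- Koszul differential -/
noncomputable def del (S : Fk σ k O d) : O := S.Gam S.m.toLinearMap

lemma del_eq : S.del = ∑ μ ∈ Mo σ d, S.m (monomial μ 1) * S.J μ := rfl

lemma del_Ee {e : MvPolynomial σ k} (he : e.IsHomogeneous d) :
    S.del * S.Ee e = S.m e - S.Ee e * S.del := by
  rw [del_eq, Finset.sum_mul, Finset.mul_sum]
  have h : ∀ μ ∈ Mo σ d, S.m (monomial μ 1) * S.J μ * S.Ee e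
      = coeff μ e • S.m.toLinearMap (monomial μ 1) - S.Ee e * (S.m (monomial μ 1) * S.J μ) := by
    intro μ hμ
    rw [mul_assoc, S.JEe hμ, mul_sub, mul_smul_comm, mul_one, ← mul_assoc, S.mEe, mul_assoc]
    rfl
  rw [Finset.sum_congr rfl h, Finset.sum_sub_distrib, sum_coeff _ he]
  rfl

lemma del_m (a : MvPolynomial σ k) : S.del * S.m a = S.m a * S.del := by
  rw [del_eq, Finset.sum_mul, Finset.mul_sum]
  refine Finset.sum_congr rfl fun μ _ => ?_
  rw [mul_assoc, ← S.mJ, ← mul_assoc, S.mm, mul_assoc]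

lemma del_J (ν : σ →₀ ℕ) : S.del * S.J ν = -(S.J ν * S.del) := by
  rw [del_eq, Finset.sum_mul, Finset.mul_sum, ← Finset.sum_neg_distrib]
  refine Finset.sum_congr rfl fun μ _ => ?_
  rw [mul_assoc, S.JJ, mul_neg, ← mul_assoc, S.mJ, mul_assoc]

lemma del_del [CharZero k] : S.del * S.del = 0 := by
  have h : S.del * S.del = -(S.del * S.del) := by
    conv_lhs => rw [del_eq, Finset.sum_mul]
    conv_rhs => rw [del_eq, Finset.mul_sum, ← Finset.sum_neg_distrib]
    refine Finset.sum_congr rfl fun μ _ => ?_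
    rw [mul_assoc, show S.J μ * (∑ μ ∈ Mo σ d, S.m (monomial μ 1) * S.J μ)
      = -(S.del * S.J μ) by rw [S.del_J, neg_neg, del_eq]]
    rw [mul_neg, ← mul_assoc, ← S.del_m, mul_assoc, del_eq]
  have h2 : (2 : k) • (S.del * S.del) = 0 := by
    rw [two_smul]
    nth_rewrite 1 [h]
    exact neg_add_cancel _
  have h3 := congrArg (fun z => (2 : k)⁻¹ • z) h2
  simpa [smul_smul] using h3

lemma T_del (y : σ) : S.T y * S.del = S.del * S.T y
    + ∑ μ ∈ Mo σ d, S.m (pderiv y (monomial μ 1)) * S.J μ := by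
  rw [del_eq, Finset.mul_sum, Finset.sum_mul, ← Finset.sum_add_distrib]
  refine Finset.sum_congr rfl fun μ _ => ?_
  rw [← mul_assoc, S.Tm, add_mul, mul_assoc, S.TJ, ← mul_assoc]

/-- the derivation `c ∂_y` acting on everything -/
noncomputable def D (S : Fk σ k O d) (c : MvPolynomial σ k) (y : σ) : O :=
  S.m c * S.T y + ∑ μ ∈ Mo σ d, S.Ee (c * pderiv y (monomial μ 1)) * S.J μ

lemma hom_cpd {c : MvPolynomial σ k} (hc : c.IsHomogeneous 1) (y : σ) {e : MvPolynomial σ k} {j : ℕ}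
    (he : e.IsHomogeneous j) : (c * pderiv y e).IsHomogeneous j := by
  rcases Nat.eq_zero_or_pos j with h | h
  · subst h
    have : pderiv y e = 0 := by
      have h1 : e.totalDegree = 0 := Nat.le_zero.mp he.totalDegree_le
      rw [totalDegree_eq_zero_iff_eq_C] at h1
      rw [h1, pderiv_C]
    rw [this, mul_zero]
    exact isHomogeneous_zero _ _ _
  · have := hc.mul (he.pderiv (i := y))
    rwa [Nat.add_sub_cancel' h] at this

lemma D_del {c : MvPolynomial σ k} (hc : c.IsHomogeneous 1) (y : σ) :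
    S.D c y * S.del = S.del * S.D c y := by
  have h1 : S.m c * S.T y * S.del = S.del * (S.m c * S.T y)
      + ∑ μ ∈ Mo σ d, S.m (c * pderiv y (monomial μ 1)) * S.J μ := by
    rw [mul_assoc, S.T_del, mul_add, ← mul_assoc, ← S.del_m, mul_assoc, Finset.mul_sum]
    congr 1
    refine Finset.sum_congr rfl fun μ _ => ?_
    rw [← mul_assoc, ← map_mul]
  have h2 : (∑ μ ∈ Mo σ d, S.Ee (c * pderiv y (monomial μ 1)) * S.J μ) * S.del
      = S.del * (∑ μ ∈ Mo σ d, S.Ee (c * pderiv y (monomial μ 1)) * S.J μ)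
        - ∑ μ ∈ Mo σ d, S.m (c * pderiv y (monomial μ 1)) * S.J μ := by
    rw [Finset.sum_mul, Finset.mul_sum, ← Finset.sum_sub_distrib]
    refine Finset.sum_congr rfl fun μ hμ => ?_
    have he : (c * pderiv y (monomial μ (1 : k))).IsHomogeneous d :=
      hom_cpd hc y (isHomogeneous_monomial _ (mem_Mo.mp hμ))
    rw [mul_assoc, show S.J μ * S.del = -(S.del * S.J μ) by rw [S.del_J, neg_neg], mul_neg,
      ← mul_assoc, show S.Ee (c * pderiv y (monomial μ 1)) * S.del
        = S.m (c * pderiv y (monomial μ 1)) - S.del * S.Ee (c * pderiv y (monomial μ 1)) by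
          rw [S.del_Ee he, sub_sub_cancel]]
    rw [sub_mul, mul_assoc]
    abel
  unfold D
  rw [add_mul, h1, h2, mul_add]
  abel

lemma D_m {c : MvPolynomial σ k} (y : σ) (a : MvPolynomial σ k) :
    S.D c y * S.m a = S.m a * S.D c y + S.m (c * pderiv y a) := by
  unfold D
  rw [add_mul, mul_assoc, S.Tm, mul_add, ← mul_assoc, S.mm c a, mul_assoc, mul_add, map_mul,
    Finset.sum_mul, Finset.mul_sum]
  have : ∀ μ ∈ Mo σ d, S.Ee (c * pderiv y (monomial μ 1)) * S.J μ * S.m a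
      = S.m a * (S.Ee (c * pderiv y (monomial μ 1)) * S.J μ) := by
    intro μ _
    rw [mul_assoc, ← S.mJ, ← mul_assoc, ← S.mEe, mul_assoc]
  rw [Finset.sum_congr rfl this]
  abel

/-- linear map `e ↦ c ∂_y e` -/
noncomputable def cpd (c : MvPolynomial σ k) (y : σ) : MvPolynomial σ k →ₗ[k] MvPolynomial σ k :=
  (LinearMap.mulLeft k c).comp (pderiv y).toLinearMap

lemma cpd_apply (c : MvPolynomial σ k) (y : σ) (e : MvPolynomial σ k) :
    cpd c y e = c * pderiv y e := rfl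

lemma D_Ee {c : MvPolynomial σ k} (y : σ) {e : MvPolynomial σ k}
    (he : e.IsHomogeneous d) :
    S.D c y * S.Ee e = S.Ee e * S.D c y + S.Ee (c * pderiv y e) := by
  unfold D
  rw [add_mul, mul_add, mul_assoc, S.TEe, ← mul_assoc, S.mEe, mul_assoc, Finset.sum_mul,
    Finset.mul_sum, add_assoc]
  congr 1
  have : ∀ μ ∈ Mo σ d, S.Ee (c * pderiv y (monomial μ 1)) * S.J μ * S.Ee e
      = coeff μ e • (S.Ee.comp (cpd c y)) (monomial μ 1)
        + S.Ee e * (S.Ee (c * pderiv y (monomial μ 1)) * S.J μ) := by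
    intro μ hμ
    rw [mul_assoc, S.JEe hμ, mul_sub, mul_smul_comm, mul_one, ← mul_assoc, S.EeEe _ e, neg_mul,
      sub_neg_eq_add, mul_assoc]
    rfl
  rw [Finset.sum_congr rfl this, Finset.sum_add_distrib, sum_coeff _ he, add_comm]
  rfl

lemma D_add (c c' : MvPolynomial σ k) (y : σ) : S.D (c + c') y = S.D c y + S.D c' y := by
  unfold D
  rw [map_add, add_mul]
  simp only [add_mul, map_add, Finset.sum_add_distrib]
  abel

lemma D_smul (t : k) (c : MvPolynomial σ k) (y : σ) : S.D (t • c) y = t • S.D c y := by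
  unfold D
  rw [map_smul, smul_add, smul_mul_assoc, Finset.smul_sum]
  congr 1
  refine Finset.sum_congr rfl fun μ _ => ?_
  rw [smul_mul_assoc, map_smul, smul_mul_assoc]

lemma D_J (c : MvPolynomial σ k) (y : σ) {ν : σ →₀ ℕ} (hν : ν ∈ Mo σ d) :
    S.D c y * S.J ν = S.J ν * S.D c y
      - ∑ μ ∈ Mo σ d, coeff ν (c * pderiv y (monomial μ 1)) • S.J μ := by
  unfold D
  rw [add_mul, mul_add, mul_assoc, S.TJ, ← mul_assoc, S.mJ, mul_assoc, add_sub_assoc]
  congr 1
  rw [Finset.sum_mul, Finset.mul_sum, ← Finset.sum_sub_distrib]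
  refine Finset.sum_congr rfl fun μ _ => ?_
  rw [mul_assoc, S.JJ μ ν, mul_neg, ← mul_assoc, ← mul_assoc, S.JEe hν, sub_mul, smul_mul_assoc,
    one_mul]
  abel

lemma D_T (c : MvPolynomial σ k) (x y : σ) :
    S.D c x * S.T y = S.T y * S.D c x - S.m (pderiv y c) * S.T x := by
  unfold D
  rw [add_mul, mul_add, ← mul_assoc (S.T y), S.Tm, add_mul, mul_assoc, S.TT x y, ← mul_assoc,
    Finset.sum_mul, Finset.mul_sum]
  have : ∀ μ ∈ Mo σ d, S.Ee (c * pderiv x (monomial μ 1)) * S.J μ * S.T y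
      = S.T y * (S.Ee (c * pderiv x (monomial μ 1)) * S.J μ) := by
    intro μ _
    rw [mul_assoc, ← S.TJ, ← mul_assoc, ← S.TEe, mul_assoc]
  rw [Finset.sum_congr rfl this]
  abel

/-- `∑_μ L(x^μ) [D, J_μ]` -/
lemma sum_D_J {c : MvPolynomial σ k} (hc : c.IsHomogeneous 1) (y : σ)
    (L : MvPolynomial σ k →ₗ[k] O) :
    ∑ μ ∈ Mo σ d, L (monomial μ 1) * (S.D c y * S.J μ)
      = ∑ μ ∈ Mo σ d, L (monomial μ 1) * (S.J μ * S.D c y)
        - ∑ μ ∈ Mo σ d, L (c * pderiv y (monomial μ 1)) * S.J μ := by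
  have h1 : ∀ μ ∈ Mo σ d, L (monomial μ 1) * (S.D c y * S.J μ)
      = L (monomial μ 1) * (S.J μ * S.D c y)
        - ∑ ν ∈ Mo σ d, coeff μ (c * pderiv y (monomial ν 1)) • (L (monomial μ 1) * S.J ν) := by
    intro μ hμ
    rw [S.D_J c y hμ, mul_sub, Finset.mul_sum]
    simp only [mul_smul_comm]
  rw [Finset.sum_congr rfl h1, Finset.sum_sub_distrib, Finset.sum_comm]
  congr 1
  refine Finset.sum_congr rfl fun ν hν => ?_
  have he : (c * pderiv y (monomial ν (1 : k))).IsHomogeneous d :=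
    hom_cpd hc y (isHomogeneous_monomial _ (mem_Mo.mp hν))
  rw [← sum_coeff L he, Finset.sum_mul]
  simp only [smul_mul_assoc]

lemma D_D {c c' : MvPolynomial σ k} (hc : c.IsHomogeneous 1) (hc' : c'.IsHomogeneous 1) (x y : σ) :
    S.D c x * S.D c' y = S.D c' y * S.D c x + S.D (c * pderiv x c') y
      - S.D (c' * pderiv y c) x := by
  have h1 : S.D c x * (S.m c' * S.T y) = S.m c' * S.T y * S.D c x
      + S.m (c * pderiv x c') * S.T y - S.m (c' * pderiv y c) * S.T x := by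
    rw [← mul_assoc, S.D_m, add_mul, mul_assoc, S.D_T, mul_sub, ← mul_assoc, ← mul_assoc,
      map_mul (S.m) c' (pderiv y c)]
    abel
  have h2 : S.D c x * (∑ μ ∈ Mo σ d, S.Ee (c' * pderiv y (monomial μ 1)) * S.J μ)
      = (∑ μ ∈ Mo σ d, S.Ee (c' * pderiv y (monomial μ 1)) * S.J μ) * S.D c x
        + ∑ μ ∈ Mo σ d, S.Ee (c * pderiv x c' * pderiv y (monomial μ 1)) * S.J μ
        - ∑ μ ∈ Mo σ d, S.Ee (c' * pderiv y c * pderiv x (monomial μ 1)) * S.J μ := by
    have h3 : ∀ μ ∈ Mo σ d, S.D c x * (S.Ee (c' * pderiv y (monomial μ 1)) * S.J μ)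
        = (S.Ee.comp (cpd c' y)) (monomial μ 1) * (S.D c x * S.J μ)
          + S.Ee (c * pderiv x (c' * pderiv y (monomial μ 1))) * S.J μ := by
      intro μ hμ
      have he : (c' * pderiv y (monomial μ (1 : k))).IsHomogeneous d :=
        hom_cpd hc' y (isHomogeneous_monomial _ (mem_Mo.mp hμ))
      rw [← mul_assoc, S.D_Ee x he, add_mul, mul_assoc]
      rfl
    have h4 : ∀ μ ∈ Mo σ d, S.Ee (c * pderiv x (c' * pderiv y (monomial μ 1))) * S.J μ
        = S.Ee (c' * pderiv y (c * pderiv x (monomial μ 1))) * S.J μ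
          + S.Ee (c * pderiv x c' * pderiv y (monomial μ 1)) * S.J μ
          - S.Ee (c' * pderiv y c * pderiv x (monomial μ 1)) * S.J μ := by
      intro μ _
      rw [← add_mul, ← sub_mul, ← map_add, ← map_sub]
      congr 2
      rw [Derivation.leibniz, Derivation.leibniz, smul_eq_mul, smul_eq_mul, smul_eq_mul,
        smul_eq_mul, pderiv_pderiv_comm' x y (monomial μ (1 : k))]
      ring
    have h5 : ∀ μ ∈ Mo σ d, (S.Ee.comp (cpd c' y)) (monomial μ 1) * (S.J μ * S.D c x)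
        = (S.Ee (c' * pderiv y (monomial μ 1)) * S.J μ) * S.D c x := by
      intro μ _
      rw [mul_assoc, LinearMap.comp_apply, cpd_apply]
    have h6 : ∀ μ ∈ Mo σ d, (S.Ee.comp (cpd c' y)) (c * pderiv x (monomial μ 1)) * S.J μ
        = S.Ee (c' * pderiv y (c * pderiv x (monomial μ 1))) * S.J μ := by
      intro μ _
      rw [LinearMap.comp_apply, cpd_apply]
    rw [Finset.mul_sum, Finset.sum_congr rfl h3, Finset.sum_add_distrib, S.sum_D_J hc, Finset.sum_mul,
      Finset.sum_congr rfl h4, Finset.sum_congr rfl h5, Finset.sum_congr rfl h6,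
      Finset.sum_sub_distrib, Finset.sum_add_distrib]
    abel
  have h7 : S.D c' y = S.m c' * S.T y
    + ∑ μ ∈ Mo σ d, S.Ee (c' * pderiv y (monomial μ 1)) * S.J μ := rfl
  have h8 : S.D (c * pderiv x c') y = S.m (c * pderiv x c') * S.T y
    + ∑ μ ∈ Mo σ d, S.Ee (c * pderiv x c' * pderiv y (monomial μ 1)) * S.J μ := rfl
  have h9 : S.D (c' * pderiv y c) x = S.m (c' * pderiv y c) * S.T x
    + ∑ μ ∈ Mo σ d, S.Ee (c' * pderiv y c * pderiv x (monomial μ 1)) * S.J μ := rfl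
  rw [h7, h8, h9, mul_add, h1, h2, add_mul]
  abel

end Fk

end Pool.Agent.H27.OP
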